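import Pool.Agent.H661R3.OP.Defs

/-!
Uniform version (polynomial bounds in the coefficients): definitions and statements.
Each statement is a `Prop`; the proofs are in the other files of this folder.
-/

set_option autoImplicit false

open Finset

namespace Pool.Agent.H661R3.UP

open Pool.Agent.H661R3.OP (Rough Add2 SV CR)

/-- the sieve constant: all primes up to `KK k` divide the modulus `W` -/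
def KK (k : ℕ) : ℕ := 100 * (k + 1) ^ 2 * 16 ^ k

/-- an admissible system of linear forms with coefficients in `[1, Q]` -/
structure US (ι : Type) [Fintype ι] where
  a : ι → ℤ
  b : ι → ℤ
  S : Finset ι
  o : ι
  Q : ℕ
  n₀ : ℤ
  ha : ∀ i, 0 < a i
  hb : ∀ i, 0 < b i
  haQ : ∀ i, a i ≤ Q
  hbQ : ∀ i, b i ≤ Q
  hab : ∀ i, IsCoprime (a i) (b i)
  hdet : ∀ i j, i ≠ j → a i * b j - a j * b i ≠ 0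
  hS : Odd S.card
  ho : o ∈ S
  hmin : ∀ i ∈ S, i ≠ o → 0 < a o * b i - a i * b o
  hn₀ : ∀ i, ∀ p : ℕ, p.Prime → p ≤ KK (Fintype.card ι) → ¬ (p : ℤ) ∣ a i * n₀ + b i

namespace US

variable {ι : Type} [Fintype ι] (D : US ι)

/-- number of forms -/
def k (_ : US ι) : ℕ := Fintype.card ι

/-- the product of the primes up to `KK k` -/
def W : ℕ := primorial (KK D.k)

/-- the `i`-th form, homogenised -/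
def L (i : ι) (x y : ℤ) : ℤ := D.a i * x + D.b i * y

/-- the sum of `F` over the values of the forms in `S` -/
def R (F : ℤ → ZMod 2) (x y : ℤ) : ZMod 2 := ∑ i ∈ D.S, F (D.L i x y)

/-- the steps of the elimination -/
def s [DecidableEq ι] (i : ι) : ℤ := if i = D.o then D.a D.o else D.a D.o * D.b i - D.a i * D.b D.o

/-- the product of the steps -/
def P [DecidableEq ι] : ℤ := ∏ i ∈ D.S, D.s i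

/-- cofactors: `s i * cof i = P` for `i ∈ S` -/
def cof [DecidableEq ι] (i : ι) : ℤ := ∏ j ∈ D.S.erase i, D.s j

/-- first coordinate of the point `(j, T)` -/
def px [DecidableEq ι] (j : ℕ) (T : Finset ι) : ℤ :=
  j * D.cof D.o + ∑ i ∈ T, (if i = D.o then D.cof D.o else D.cof i * D.b i)

/-- second coordinate of the point `(j, T)` -/
def py [DecidableEq ι] (T : Finset ι) : ℤ := ∑ i ∈ T, (if i = D.o then 0 else - (D.cof i * D.a i))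

/-- good pairs -/
def Good (Y : ℕ) (x y : ℤ) : Prop :=
  Rough Y y ∧ (D.W : ℤ) ∣ x - D.n₀ * y ∧ IsCoprime x y ∧ (∀ i, Rough Y (D.L i x y)) ∧
    ∀ j ∈ D.S, 0 < D.L j x y

/-- the sign is constant at rough values up to `Z` -/
def Cst (F : ℤ → ZMod 2) (c : ZMod 2) (Y : ℕ) (Z : ℤ) : Prop :=
  ∀ n : ℤ, 0 < n → n ≤ Z → (∀ i, Rough Y (D.L i n 1)) → D.R F n 1 = c

/-- `Y` is large compared with the coefficients -/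
def Big (Y : ℕ) : Prop := (16 * D.Q) ^ (10 * (D.k + 1)) ≤ Y

end US

/-- UG: grid -/
def UG : Prop := ∀ k C₁ : ℕ, ∃ C Y₀ : ℕ, ∀ (ι : Type) [Fintype ι] (D : US ι), D.k = k →
  ∀ (F : ℤ → ZMod 2), Add2 F → ∀ (c : ZMod 2) (Y : ℕ) (Z : ℤ), Y₀ ≤ Y → D.Big Y →
  (Y : ℤ) ^ C ≤ Z → D.Cst F c Y Z →
  ∀ U V w : ℤ, |U| ≤ (Y : ℤ) ^ C₁ → |V| ≤ (Y : ℤ) ^ C₁ → |w| ≤ (Y : ℤ) ^ C₁ →
  D.Good Y U w → D.Good Y V w →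
  (∀ i ∈ D.S, ∀ j ∈ D.S, IsCoprime (D.L i U w) (D.L j V w)) →
  D.R F U w = D.R F V w

/-- ULA: intermediate first member -/
def ULA : Prop := ∀ k C₁ : ℕ, ∃ C Y₀ : ℕ, ∀ (ι : Type) [Fintype ι] (D : US ι), D.k = k →
  ∀ (Y : ℕ), Y₀ ≤ Y → D.Big Y →
  ∀ U U' w : ℤ, |U| ≤ (Y : ℤ) ^ C₁ → |U'| ≤ (Y : ℤ) ^ C₁ → |w| ≤ (Y : ℤ) ^ C₁ →
  D.Good Y U w → D.Good Y U' w →
  ∃ V : ℤ, |V| ≤ (Y : ℤ) ^ C ∧ D.Good Y V w ∧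
    (∀ i ∈ D.S, ∀ j ∈ D.S, IsCoprime (D.L i U w) (D.L j V w)) ∧
    (∀ i ∈ D.S, ∀ j ∈ D.S, IsCoprime (D.L i U' w) (D.L j V w))

/-- ULK: link -/
def ULK : Prop := ∀ k C₁ : ℕ, ∃ C Y₀ : ℕ, ∀ (ι : Type) [Fintype ι] (D : US ι), D.k = k →
  ∀ (F : ℤ → ZMod 2), Add2 F → ∀ (c : ZMod 2) (Y : ℕ) (Z : ℤ), Y₀ ≤ Y → D.Big Y →
  (Y : ℤ) ^ C ≤ Z → D.Cst F c Y Z →
  ∀ U U' w : ℤ, |U| ≤ (Y : ℤ) ^ C₁ → |U'| ≤ (Y : ℤ) ^ C₁ → |w| ≤ (Y : ℤ) ^ C₁ →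
  D.Good Y U w → D.Good Y U' w → D.R F U w = D.R F U' w

/-- UPT: facts on the points -/
def UPT : Prop := ∀ (ι : Type) [Fintype ι] [DecidableEq ι] (D : US ι),
  (0 < D.P ∧ D.P ≤ (2 * (D.Q : ℤ) ^ 2) ^ D.k) ∧
  (∀ (j : ℕ) (T : Finset ι), T ⊆ D.S →
    D.L D.o (D.px j T) (D.py T) = ((j + T.card : ℕ) : ℤ) * D.P) ∧
  (∀ (j : ℕ) (T : Finset ι), T ⊆ D.S → j ≤ 2 ^ D.k →
    |D.px j T| ≤ (16 * (D.Q : ℤ)) ^ (4 * (D.k + 1)) ∧ |D.py T| ≤ (16 * (D.Q : ℤ)) ^ (4 * (D.k + 1)))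

/-- UEL: elimination -/
def UEL : Prop := ∀ (ι : Type) [Fintype ι] [DecidableEq ι] (D : US ι) (φ : ι → ℤ → ZMod 2)
  (ρ : ℤ → ZMod 2),
  (∀ (j : ℕ) (T : Finset ι), j ≤ 2 ^ D.k → T ⊆ D.S →
    ∑ i ∈ D.S, φ i (D.L i (D.px j T) (D.py T)) = ρ (D.py T)) →
  φ D.o 0 = φ D.o (2 ^ D.k * D.P)

/-- UTA: the family of good pairs through `(r, δ)` -/
def UTA : Prop := ∀ k C₁ : ℕ, ∃ C Y₀ : ℕ, ∀ (ι : Type) [Fintype ι] [DecidableEq ι] (D : US ι),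
  D.k = k → ∀ (Y : ℕ), Y₀ ≤ Y → D.Big Y →
  ∀ r δ : ℤ, 0 < r → r ≤ (Y : ℤ) ^ C₁ → 0 < δ → δ ≤ (Y : ℤ) ^ C₁ →
  (D.W : ℤ) ∣ δ → IsCoprime r δ →
  (∀ m : ℕ, m ≤ 2 ^ (k + 1) → Rough Y (r + m * D.P * δ)) →
  ∃ u w : ℤ, |u| ≤ (Y : ℤ) ^ C ∧ |w| ≤ (Y : ℤ) ^ C ∧ D.L D.o u w = r ∧
    ∀ (j : ℕ) (T : Finset ι), j ≤ 2 ^ k → T ⊆ D.S →
      D.Good Y (u + D.px j T * δ) (w + D.py T * δ)

/-- UL3: invariance of `F` under `r ↦ r + 2 ^ k P δ` -/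
def UL3 : Prop := ∀ k C₁ : ℕ, ∃ C Y₀ : ℕ, ∀ (ι : Type) [Fintype ι] [DecidableEq ι] (D : US ι),
  D.k = k → ∀ (F : ℤ → ZMod 2), Add2 F → ∀ (c : ZMod 2) (Y : ℕ) (Z : ℤ), Y₀ ≤ Y → D.Big Y →
  (Y : ℤ) ^ C ≤ Z → D.Cst F c Y Z →
  ∀ r δ : ℤ, 0 < r → r ≤ (Y : ℤ) ^ C₁ → 0 < δ → δ ≤ (Y : ℤ) ^ C₁ →
  (D.W : ℤ) ∣ δ → IsCoprime r δ →
  (∀ m : ℕ, m ≤ 2 ^ (k + 1) → Rough Y (r + m * D.P * δ)) →
  F r = F (r + 2 ^ k * D.P * δ)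

/-- UNI: `F` depends on the class modulo `2 ^ k P W` only (coprime arguments) -/
def UNI : Prop := ∀ k C₁ : ℕ, ∃ C Y₀ : ℕ, ∀ (ι : Type) [Fintype ι] [DecidableEq ι] (D : US ι),
  D.k = k → ∀ (F : ℤ → ZMod 2), Add2 F → ∀ (c : ZMod 2) (Y : ℕ) (Z : ℤ), Y₀ ≤ Y → D.Big Y →
  (Y : ℤ) ^ C ≤ Z → D.Cst F c Y Z →
  ∀ r r' : ℤ, 0 < r → r ≤ (Y : ℤ) ^ C₁ → 0 < r' → r' ≤ (Y : ℤ) ^ C₁ → Rough Y r → Rough Y r' →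
  IsCoprime r r' → (2 ^ k * D.P * D.W : ℤ) ∣ r - r' → F r = F r'

/-- real characters modulo `q` -/
def RC (q : ℕ) (χ : ℕ → ℤ) : Prop :=
  (∀ m n, χ (m * n) = χ m * χ n) ∧ (∀ n, χ (n + q) = χ n) ∧
  (∀ n, Nat.Coprime n q → χ n = 1 ∨ χ n = -1) ∧ (∀ n, ¬ Nat.Coprime n q → χ n = 0)

/-- UCH: `F` is a real character on the primes of `(Y, Y ^ C₁]` -/
def UCH : Prop := ∀ k C₁ : ℕ, ∃ C Y₀ : ℕ, ∀ (ι : Type) [Fintype ι] [DecidableEq ι] (D : US ι),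
  D.k = k → ∀ (F : ℤ → ZMod 2), Add2 F → ∀ (c : ZMod 2) (Y : ℕ) (Z : ℤ), Y₀ ≤ Y → D.Big Y →
  (Y : ℤ) ^ C ≤ Z → D.Cst F c Y Z →
  ∃ (q : ℕ) (χ : ℕ → ℤ), 0 < q ∧ q ≤ Y ∧ RC q χ ∧
    ∀ p : ℕ, p.Prime → Y < p → p ≤ Y ^ C₁ → χ p = 1 → F p = 0

/-- sum of `χ` over the divisors -/
def rr (χ : ℕ → ℤ) (n : ℕ) : ℤ := ∑ d ∈ n.divisors, χ d

/-- EA: summatory function of `rr` and lower bound for `L(1, χ)` (elementary) -/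
def EA : Prop := ∃ c : ℝ, 0 < c ∧ ∀ (q : ℕ) (χ : ℕ → ℤ), 0 < q → RC q χ →
  (∃ n, χ n = -1) → ∃ L : ℝ, c / (q : ℝ) ^ 2 ≤ L ∧
    ∀ x : ℝ, 1 ≤ x → |((∑ n ∈ Icc 1 ⌊x⌋₊, rr χ n : ℤ) : ℝ) - x * L| ≤ 10 * q * Real.sqrt x

/-- EX: a real character modulo `q ≤ Y` takes the value 1 at some prime of `(Y, Y ^ 200]` -/
def EX : Prop := ∃ Y₀ : ℕ, ∀ (q : ℕ) (χ : ℕ → ℤ), 0 < q → RC q χ → ∀ Y : ℕ, Y₀ ≤ Y → q ≤ Y →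
  ∃ p : ℕ, p.Prime ∧ Y < p ∧ p ≤ Y ^ 200 ∧ χ p = 1

/-- USU: the system exists -/
def USU : Prop := ∀ (ι : Type) [Fintype ι] (a b : ι → ℤ) (S : Finset ι) (Q : ℕ),
  (∀ i, 0 < a i) → (∀ i, 0 < b i) → (∀ i, a i ≤ Q) → (∀ i, b i ≤ Q) →
  (∀ i j, i ≠ j → a i * b j - a j * b i ≠ 0) → Odd S.card →
  (∀ p : ℕ, p.Prime → ∃ n : ℤ, ∀ i, ¬ (p : ℤ) ∣ a i * n + b i) →
  ∃ D : US ι, D.a = a ∧ D.b = b ∧ D.S = S ∧ D.Q = Q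

/-- UM: the main theorem for additive functions that are non-zero at all primes -/
def UM : Prop := ∀ k : ℕ, ∃ C Y₀ : ℕ, ∀ (ι : Type) [Fintype ι] (D : US ι), D.k = k →
  ∀ (F : ℤ → ZMod 2), Add2 F → (∀ p : ℕ, p.Prime → F p ≠ 0) → ∀ (c : ZMod 2) (Y : ℕ),
  Y₀ ≤ Y → D.Big Y →
  ∃ n : ℤ, 0 < n ∧ n ≤ (Y : ℤ) ^ C ∧ (∀ i, Rough Y (D.L i n 1)) ∧ D.R F n 1 = c

/-- KT: the uniform k-tuplets statement with parity -/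
def KT : Prop := ∀ k : ℕ, ∃ A R : ℕ, ∃ γ : ℝ, 0 < γ ∧ ∀ a b : Fin k → ℕ,
  (∀ i, 1 ≤ b i ∧ b i < a i) → Function.Injective (fun i => (a i, b i)) →
  (∀ p : ℕ, p.Prime → ∃ n : ℤ, ∀ i, ¬ (p : ℤ) ∣ a i * n + b i) →
  ∀ S : Finset (Fin k), Odd S.card → ∀ s : ZMod 2,
  ∃ n : ℕ, (n : ℝ) ≤ γ * ((∏ i, a i : ℕ) : ℝ) ^ A ∧
    (∀ i, ArithmeticFunction.cardFactors (a i * n + b i) ≤ R ∧
      ∀ p : ℕ, p.Prime → p ∣ a i * n + b i → ∏ j, a j < p) ∧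
    ((∑ i ∈ S, ArithmeticFunction.cardFactors (a i * n + b i) : ℕ) : ZMod 2) = s

end Pool.Agent.H661R3.UP
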