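import Pool.Agent.H661R3.UP.Defs

/-!
EA: the summatory function of `rr χ` and an elementary lower bound for `L(1, χ)`.
-/

set_option autoImplicit false

open Finset Filter Topology

namespace Pool.Agent.H661R3.UP

namespace EAaux

section
variable {q : ℕ} {χ : ℕ → ℤ}

lemma abs_le_one (h : RC q χ) (n : ℕ) : |χ n| ≤ 1 := by
  by_cases hn : Nat.Coprime n q
  · rcases h.2.2.1 n hn with h1 | h1 <;> simp [h1]
  · simp [h.2.2.2 n hn]

lemma chi_one (h : RC q χ) : χ 1 = 1 := by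
  have h1 := h.1 1 1
  rcases h.2.2.1 1 (Nat.coprime_one_left q) with h2 | h2
  · exact h2
  · rw [mul_one, h2] at h1; norm_num at h1

lemma chi_mod (h : RC q χ) (n : ℕ) : χ (n % q) = χ n := by
  have : Function.Periodic χ q := h.2.1
  exact this.map_mod_nat n

lemma sum_period (hq : 0 < q) (h : RC q χ) (hn : ∃ n, χ n = -1) :
    ∑ n ∈ range q, χ n = 0 := by
  obtain ⟨n, hn⟩ := hn
  have hco : Nat.Coprime n q := by
    by_contra hc
    have := h.2.2.2 n hc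
    rw [hn] at this; norm_num at this
  have hinj : Set.InjOn (fun a => (n * a) % q) (range q : Finset ℕ) := by
    intro a ha b hb hab
    have ha' : a < q := by simpa using ha
    have hb' : b < q := by simpa using hb
    have h1 : n * a ≡ n * b [MOD q] := hab
    have h2 : a ≡ b [MOD q] := Nat.ModEq.cancel_left_of_coprime (by simpa [Nat.coprime_comm] using hco) h1
    exact Nat.ModEq.eq_of_lt_of_lt h2 ha' hb'
  have himg : (range q).image (fun a => (n * a) % q) = range q := by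
    apply Finset.eq_of_subset_of_card_le
    · intro x hx
      simp only [mem_image, mem_range] at hx ⊢
      obtain ⟨a, _, rfl⟩ := hx
      exact Nat.mod_lt _ hq
    · rw [card_image_of_injOn hinj]
  have h1 : ∑ a ∈ range q, χ a = ∑ a ∈ range q, χ ((n * a) % q) := by
    conv_lhs => rw [← himg]
    rw [sum_image hinj]
  have h2 : ∑ a ∈ range q, χ ((n * a) % q) = - ∑ a ∈ range q, χ a := by
    rw [← sum_neg_distrib]
    refine sum_congr rfl fun a _ => ?_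
    rw [chi_mod h, h.1, hn]; ring
  omega

lemma sum_shift (hq : 0 < q) (h : RC q χ) (hn : ∃ n, χ n = -1) (A : ℕ) :
    ∑ n ∈ range (A + q), χ n = ∑ n ∈ range A, χ n := by
  induction A with
  | zero => simpa using sum_period hq h hn
  | succ A ih =>
    have : A + 1 + q = (A + q) + 1 := by ring
    rw [this, sum_range_succ, sum_range_succ, ih, h.2.1]

lemma abs_sum_Ico (hq : 0 < q) (h : RC q χ) (hn : ∃ n, χ n = -1) (A m : ℕ) :
    |∑ n ∈ Ico A (A + m), χ n| ≤ q := by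
  induction m using Nat.strong_induction_on with
  | _ m ih =>
    rcases lt_or_ge m q with hm | hm
    · calc |∑ n ∈ Ico A (A + m), χ n| ≤ ∑ n ∈ Ico A (A + m), |χ n| := abs_sum_le_sum_abs _ _
        _ ≤ ∑ n ∈ Ico A (A + m), 1 := sum_le_sum fun n _ => abs_le_one h n
        _ = m := by simp
        _ ≤ q := by exact_mod_cast hm.le
    · have h1 := ih (m - q) (by omega)
      rw [sum_Ico_eq_sub _ (by omega)] at h1 ⊢
      have h2 : A + m = (A + (m - q)) + q := by omega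
      rw [h2, sum_shift hq h hn]
      exact h1

lemma abs_sum_Ico_real (hq : 0 < q) (h : RC q χ) (hn : ∃ n, χ n = -1) (A B : ℕ) (hAB : A ≤ B) :
    |∑ n ∈ Ico A B, (χ n : ℝ)| ≤ q := by
  obtain ⟨m, rfl⟩ := Nat.exists_eq_add_of_le hAB
  have := abs_sum_Ico hq h hn A m
  exact_mod_cast this

end

/-- Abel's inequality -/
lemma abel (f z : ℕ → ℝ) (A : ℕ) (b : ℝ) (hf : ∀ n, A ≤ n → f (n + 1) ≤ f n)
    (hf0 : ∀ n, A ≤ n → 0 ≤ f n)
    (hz : ∀ n, A ≤ n → |∑ i ∈ Ico A n, z i| ≤ b) (B : ℕ) (hB : A ≤ B) :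
    |∑ i ∈ Ico A B, f i * z i| ≤ f A * b := by
  have key : ∑ i ∈ Ico A B, f i * z i = f B * ∑ i ∈ Ico A B, z i +
      ∑ n ∈ Ico A B, (f n - f (n + 1)) * ∑ i ∈ Ico A (n + 1), z i := by
    induction B, hB using Nat.le_induction with
    | base => simp
    | succ n hn ih =>
      rw [sum_Ico_succ_top hn, ih, sum_Ico_succ_top hn, sum_Ico_succ_top hn,
        sum_Ico_succ_top hn]
      ring
  have key2 : ∑ n ∈ Ico A B, (f n - f (n + 1)) = f A - f B := by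
    clear key
    induction B, hB using Nat.le_induction with
    | base => simp
    | succ n hn ih => rw [sum_Ico_succ_top hn, ih]; ring
  have h1 : |f B * ∑ i ∈ Ico A B, z i| ≤ f B * b := by
    rw [abs_mul, abs_of_nonneg (hf0 B hB)]
    exact mul_le_mul_of_nonneg_left (hz B hB) (hf0 B hB)
  have h2 : |∑ n ∈ Ico A B, (f n - f (n + 1)) * ∑ i ∈ Ico A (n + 1), z i| ≤ (f A - f B) * b := by
    rw [← key2, sum_mul]
    refine (abs_sum_le_sum_abs _ _).trans (sum_le_sum fun n hn => ?_)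
    have hn' := (mem_Ico.1 hn).1
    have h3 : 0 ≤ f n - f (n + 1) := by linarith [hf n hn']
    rw [abs_mul, abs_of_nonneg h3]
    exact mul_le_mul_of_nonneg_left (hz (n + 1) (by omega)) h3
  rw [key]
  calc _ ≤ _ := abs_add_le _ _
    _ ≤ f B * b + (f A - f B) * b := add_le_add h1 h2
    _ = f A * b := by ring

section rrsec
variable {q : ℕ} {χ : ℕ → ℤ}

/-- the arithmetic function of `χ` -/
def arith (χ : ℕ → ℤ) : ArithmeticFunction ℤ := ⟨fun n => if n = 0 then 0 else χ n, by simp⟩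

lemma arith_apply (χ : ℕ → ℤ) {n : ℕ} (hn : n ≠ 0) : arith χ n = χ n := by
  simp [arith, hn]

lemma rr_eq (χ : ℕ → ℤ) (n : ℕ) : rr χ n = (arith χ * (ArithmeticFunction.zeta : ArithmeticFunction ℤ)) n := by
  rw [ArithmeticFunction.coe_mul_zeta_apply]
  unfold rr
  refine sum_congr rfl fun d hd => ?_
  rw [arith_apply]
  exact (Nat.pos_of_mem_divisors hd).ne'

lemma arith_mult (h : RC q χ) : (arith χ).IsMultiplicative := by
  refine ⟨?_, ?_⟩
  · rw [arith_apply χ one_ne_zero, chi_one h]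
  · intro m n _
    by_cases hm : m = 0
    · subst hm; simp
    by_cases hn : n = 0
    · subst hn; simp
    rw [arith_apply χ hm, arith_apply χ hn, arith_apply χ (mul_ne_zero hm hn), h.1]

lemma rr_mult (h : RC q χ) :
    (arith χ * (ArithmeticFunction.zeta : ArithmeticFunction ℤ)).IsMultiplicative :=
  (arith_mult h).mul (ArithmeticFunction.isMultiplicative_zeta.natCast)

lemma chi_pow (h : RC q χ) (p i : ℕ) : χ (p ^ i) = χ p ^ i := by
  induction i with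
  | zero => simp [chi_one h]
  | succ i ih => rw [pow_succ, h.1, ih, pow_succ]

lemma rr_pow (h : RC q χ) {p : ℕ} (hp : p.Prime) (k : ℕ) :
    rr χ (p ^ k) = ∑ i ∈ range (k + 1), χ p ^ i := by
  unfold rr
  rw [Nat.sum_divisors_prime_pow hp]
  exact sum_congr rfl fun i _ => chi_pow h p i

lemma chi_cases (h : RC q χ) (n : ℕ) : χ n = 0 ∨ χ n = 1 ∨ χ n = -1 := by
  by_cases hn : Nat.Coprime n q
  · exact Or.inr (h.2.2.1 n hn)
  · exact Or.inl (h.2.2.2 n hn)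

lemma neg_one_sum (k : ℕ) : ∑ i ∈ range (k + 1), (-1 : ℤ) ^ i = if Even k then 1 else 0 := by
  induction k with
  | zero => simp
  | succ k ih =>
    rw [sum_range_succ, ih]
    by_cases hk : Even k
    · have h1 : ¬ Even (k + 1) := by simpa [Nat.even_add_one] using hk
      have h2 : Odd (k + 1) := by simpa using h1
      simp [hk, h1, h2.neg_one_pow]
    · have h1 : Even (k + 1) := by simpa [Nat.even_add_one] using hk
      simp [hk, h1, h1.neg_one_pow]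

lemma rr_pow_nonneg (h : RC q χ) {p : ℕ} (hp : p.Prime) (k : ℕ) : 0 ≤ rr χ (p ^ k) := by
  rw [rr_pow h hp]
  rcases chi_cases h p with h1 | h1 | h1
  · rw [h1]; exact sum_nonneg fun i _ => pow_nonneg le_rfl i
  · rw [h1]; exact sum_nonneg fun i _ => by simp
  · rw [h1, neg_one_sum]; split_ifs <;> simp

lemma rr_pow_pos (h : RC q χ) {p : ℕ} (hp : p.Prime) (k : ℕ) : 0 < rr χ (p ^ (2 * k)) := by
  rw [rr_pow h hp]
  rcases chi_cases h p with h1 | h1 | h1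
  · rw [h1, sum_range_succ']
    have : 0 ≤ ∑ i ∈ range (2 * k), (0 : ℤ) ^ (i + 1) := sum_nonneg fun i _ => by simp
    simp
  · rw [h1]; simp
  · rw [h1, neg_one_sum]; simp

lemma rr_nonneg (h : RC q χ) (n : ℕ) : 0 ≤ rr χ n := by
  by_cases hn : n = 0
  · subst hn; simp [rr]
  rw [rr_eq, (rr_mult h).multiplicative_factorization _ hn]
  refine prod_nonneg fun p hp => ?_
  have hp' : p.Prime := by
    have := Nat.support_factorization n ▸ hp
    exact Nat.prime_of_mem_primeFactors this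
  show 0 ≤ (arith χ * (ArithmeticFunction.zeta : ArithmeticFunction ℤ)) (p ^ n.factorization p)
  rw [← rr_eq]
  exact rr_pow_nonneg h hp' _

lemma rr_sq_pos (h : RC q χ) {m : ℕ} (hm : m ≠ 0) : 1 ≤ rr χ (m * m) := by
  have h0 : 0 < rr χ (m * m) := by
    rw [rr_eq, (rr_mult h).multiplicative_factorization _ (mul_ne_zero hm hm)]
    refine prod_pos fun p hp => ?_
    have hp' : p.Prime := by
      have := Nat.support_factorization (m * m) ▸ hp
      exact Nat.prime_of_mem_primeFactors this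
    show 0 < (arith χ * (ArithmeticFunction.zeta : ArithmeticFunction ℤ))
      (p ^ (m * m).factorization p)
    rw [← rr_eq]
    have h1 : (m * m).factorization p = 2 * m.factorization p := by
      rw [Nat.factorization_mul hm hm]; simp; ring
    rw [h1]
    exact rr_pow_pos h hp' _
  omega

end rrsec

/-- exchange of summation -/
lemma sum_rr (χ : ℕ → ℤ) (w : ℕ → ℝ) (N : ℕ) :
    ∑ n ∈ Icc 1 N, (rr χ n : ℝ) * w n =
      ∑ d ∈ Icc 1 N, (χ d : ℝ) * ∑ m ∈ Icc 1 (N / d), w (d * m) := by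
  have h1 : ∑ n ∈ Icc 1 N, (rr χ n : ℝ) * w n =
      ∑ n ∈ Icc 1 N, ∑ d ∈ n.divisors, (χ d : ℝ) * w n := by
    refine sum_congr rfl fun n _ => ?_
    unfold rr
    push_cast
    rw [sum_mul]
  rw [h1]
  have h2 : ∑ n ∈ Icc 1 N, ∑ d ∈ n.divisors, (χ d : ℝ) * w n =
      ∑ d ∈ Icc 1 N, ∑ n ∈ (Icc 1 N).filter (fun n => d ∣ n), (χ d : ℝ) * w n := by
    refine sum_comm' fun n d => ?_
    simp only [mem_Icc, Nat.mem_divisors, mem_filter]
    constructor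
    · rintro ⟨⟨h1, h2⟩, h3, h4⟩
      exact ⟨⟨⟨h1, h2⟩, h3⟩, Nat.pos_of_dvd_of_pos h3 (by omega), (Nat.le_of_dvd (by omega) h3).trans h2⟩
    · rintro ⟨⟨⟨h1, h2⟩, h3⟩, h4, h5⟩
      exact ⟨⟨h1, h2⟩, h3, by omega⟩
  rw [h2]
  refine sum_congr rfl fun d hd => ?_
  have hd1 : 1 ≤ d := (mem_Icc.1 hd).1
  rw [mul_sum]
  symm
  refine sum_nbij (fun m => d * m) ?_ ?_ ?_ ?_
  · intro m hm
    simp only [mem_Icc, mem_filter] at hm ⊢
    refine ⟨⟨Nat.mul_pos hd1 hm.1, ?_⟩, dvd_mul_right _ _⟩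
    calc d * m ≤ d * (N / d) := Nat.mul_le_mul_left _ hm.2
      _ ≤ N := Nat.mul_div_le N d
  · intro a _ b _ hab
    exact Nat.eq_of_mul_eq_mul_left hd1 hab
  · intro n hn
    simp only [coe_filter, mem_Icc, Set.mem_ofPred_eq] at hn
    obtain ⟨⟨h1, h2⟩, m, rfl⟩ := hn
    refine ⟨m, ?_, rfl⟩
    simp only [coe_Icc, Set.mem_Icc]
    refine ⟨Nat.pos_of_mul_pos_left h1 |> fun h => ?_, ?_⟩
    · rcases Nat.eq_zero_or_pos m with rfl | hm
      · simp at h1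
      · exact hm
    · rw [Nat.le_div_iff_mul_le hd1, mul_comm]; exact h2
  · intro m _; rfl

lemma tendsto_const_div_add_atTop_nhds_zero_nat_aux (q : ℕ) :
    Tendsto (fun n : ℕ => (q : ℝ) / (n + 1 : ℝ)) atTop (𝓝 0) := by
  have := tendsto_one_div_add_atTop_nhds_zero_nat (𝕜 := ℝ)
  have h2 := this.const_mul (q : ℝ)
  rw [mul_zero] at h2
  refine h2.congr fun n => ?_
  rw [mul_one_div]

section Lsec
variable {q : ℕ} {χ : ℕ → ℤ}

/-- partial sums of `L(1, χ)` -/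
noncomputable def LD (χ : ℕ → ℤ) (D : ℕ) : ℝ := ∑ d ∈ Ico 1 (D + 1), (1 / (d : ℝ)) * (χ d : ℝ)

lemma LD_sub (hq : 0 < q) (h : RC q χ) (hn : ∃ n, χ n = -1) (A B : ℕ) (hAB : A ≤ B) :
    |LD χ A - LD χ B| ≤ q / (A + 1 : ℝ) := by
  have h1 : LD χ B - LD χ A = ∑ d ∈ Ico (A + 1) (B + 1), (1 / (d : ℝ)) * (χ d : ℝ) := by
    unfold LD
    rw [← sum_Ico_consecutive _ (by omega : 1 ≤ A + 1) (by omega : A + 1 ≤ B + 1)]
    ring
  rw [abs_sub_comm, h1]
  have := abel (fun d : ℕ => 1 / (d : ℝ)) (fun d => (χ d : ℝ)) (A + 1) q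
    (fun n hn => by
      apply one_div_le_one_div_of_le
      · have : 0 < n := by omega
        exact_mod_cast this
      · push_cast; linarith)
    (fun n hn => by positivity)
    (fun n hn' => abs_sum_Ico_real hq h hn _ _ hn') (B + 1) (by omega)
  calc _ ≤ _ := this
    _ = q / (A + 1 : ℝ) := by push_cast; ring

lemma exists_L (hq : 0 < q) (h : RC q χ) (hn : ∃ n, χ n = -1) :
    ∃ L : ℝ, ∀ D : ℕ, |LD χ D - L| ≤ q / (D + 1 : ℝ) := by
  have hb : Tendsto (fun n : ℕ => (q : ℝ) / (n + 1 : ℝ)) atTop (𝓝 0) :=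
    tendsto_const_div_add_atTop_nhds_zero_nat_aux q
  have hc : CauchySeq (LD χ) := by
    refine cauchySeq_of_le_tendsto_0' (fun n : ℕ => (q : ℝ) / (n + 1 : ℝ)) ?_ hb
    intro n m hnm
    rw [Real.dist_eq]
    exact LD_sub hq h hn n m hnm
  obtain ⟨L, hL⟩ := cauchySeq_tendsto_of_complete hc
  refine ⟨L, fun D => ?_⟩
  have h1 : Tendsto (fun m => |LD χ D - LD χ m|) atTop (𝓝 |LD χ D - L|) :=
    (tendsto_const_nhds.sub hL).abs
  refine le_of_tendsto h1 ?_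
  filter_upwards [eventually_ge_atTop D] with m hm
  exact LD_sub hq h hn D m hm

lemma Icc_eq (N : ℕ) : Icc 1 N = Ico 1 (N + 1) := by
  ext n; simp only [mem_Icc, mem_Ico]; omega

lemma sum_rr_one (χ : ℕ → ℤ) (N : ℕ) :
    ((∑ n ∈ Icc 1 N, rr χ n : ℤ) : ℝ) = ∑ d ∈ Ico 1 (N + 1), ((N / d : ℕ) : ℝ) * (χ d : ℝ) := by
  have h1 := sum_rr χ (fun _ => 1) N
  simp only [mul_one, sum_const, Nat.card_Icc, Nat.add_sub_cancel, nsmul_eq_mul] at h1
  push_cast
  rw [h1, Icc_eq]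
  exact sum_congr rfl fun d _ => mul_comm _ _

lemma summatory (hq : 0 < q) (h : RC q χ) (hn : ∃ n, χ n = -1) {L : ℝ}
    (hL : ∀ D : ℕ, |LD χ D - L| ≤ q / (D + 1 : ℝ)) (x : ℝ) (hx : 1 ≤ x) :
    |((∑ n ∈ Icc 1 ⌊x⌋₊, rr χ n : ℤ) : ℝ) - x * L| ≤ 10 * q * Real.sqrt x := by
  set N := ⌊x⌋₊ with hN
  set D := Nat.sqrt N with hD
  have hx0 : 0 ≤ x := by linarith
  have hNx : (N : ℝ) ≤ x := Nat.floor_le hx0
  have hxN : x < N + 1 := Nat.lt_floor_add_one x
  have hq1 : (1 : ℝ) ≤ q := by exact_mod_cast hq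
  have hDN : D ≤ N := Nat.sqrt_le_self N
  have hDsq : D * D ≤ N := Nat.sqrt_le N
  have hDsq' : N < (D + 1) * (D + 1) := Nat.sqrt_lt.1 (Nat.lt_succ_self _)
  have hD1 : (D : ℝ) ≤ Real.sqrt x := by
    apply Real.le_sqrt_of_sq_le
    have : ((D * D : ℕ) : ℝ) ≤ N := by exact_mod_cast hDsq
    push_cast at this
    nlinarith
  have hD2 : Real.sqrt x ≤ D + 1 := by
    apply Real.sqrt_le_iff.2
    refine ⟨by positivity, ?_⟩
    have h1 : N + 1 ≤ (D + 1) * (D + 1) := hDsq'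
    have : ((N + 1 : ℕ) : ℝ) ≤ (((D + 1) * (D + 1) : ℕ) : ℝ) := by exact_mod_cast h1
    push_cast at this
    nlinarith
  have hs : 0 ≤ Real.sqrt x := Real.sqrt_nonneg x
  have hss : Real.sqrt x * Real.sqrt x = x := Real.mul_self_sqrt hx0
  rw [sum_rr_one, ← sum_Ico_consecutive _ (by omega : 1 ≤ D + 1) (by omega : D + 1 ≤ N + 1)]
  have hA : |∑ d ∈ Ico 1 (D + 1), ((N / d : ℕ) : ℝ) * (χ d : ℝ) - x * LD χ D| ≤ D := by
    unfold LD
    rw [mul_sum, ← sum_sub_distrib]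
    refine (abs_sum_le_sum_abs _ _).trans ?_
    calc _ ≤ ∑ d ∈ Ico 1 (D + 1), (1 : ℝ) := by
          refine sum_le_sum fun d hd => ?_
          have hd1 : 1 ≤ d := (mem_Ico.1 hd).1
          have hd0 : (0 : ℝ) < d := by exact_mod_cast hd1
          have e1 : ((N / d : ℕ) : ℝ) * (χ d : ℝ) - x * (1 / (d : ℝ) * (χ d : ℝ)) =
            (((N / d : ℕ) : ℝ) - x / d) * (χ d : ℝ) := by ring
          have e2 : N / d = ⌊x / d⌋₊ := by rw [Nat.floor_div_natCast]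
          have e3 : ((N / d : ℕ) : ℝ) ≤ x / d := by rw [e2]; exact Nat.floor_le (by positivity)
          have e4 : x / d < ((N / d : ℕ) : ℝ) + 1 := by rw [e2]; exact Nat.lt_floor_add_one _
          have e5 : |((N / d : ℕ) : ℝ) - x / d| ≤ 1 := by rw [abs_le]; constructor <;> linarith
          have e6 : |(χ d : ℝ)| ≤ 1 := by exact_mod_cast abs_le_one h d
          rw [e1, abs_mul]
          exact mul_le_one₀ e5 (abs_nonneg _) e6
      _ = D := by simp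
  have hB : |∑ d ∈ Ico (D + 1) (N + 1), ((N / d : ℕ) : ℝ) * (χ d : ℝ)| ≤ D * q := by
    have := abel (fun d : ℕ => ((N / d : ℕ) : ℝ)) (fun d => (χ d : ℝ)) (D + 1) q
      (fun n hn => by
        have : N / (n + 1) ≤ N / n := Nat.div_le_div_left (by omega) (by omega)
        exact_mod_cast this)
      (fun n hn => by positivity)
      (fun n hn' => abs_sum_Ico_real hq h hn _ _ hn') (N + 1) (by omega)
    refine this.trans ?_
    have h1 : N / (D + 1) ≤ D := by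
      have : N / (D + 1) < D + 1 := by
        rw [Nat.div_lt_iff_lt_mul (by omega)]; exact hDsq'
      omega
    have h2 : ((N / (D + 1) : ℕ) : ℝ) ≤ D := by exact_mod_cast h1
    exact mul_le_mul_of_nonneg_right h2 (by positivity)
  have hC : |x * LD χ D - x * L| ≤ q * Real.sqrt x := by
    rw [← mul_sub, abs_mul, abs_of_nonneg hx0]
    calc x * |LD χ D - L| ≤ x * (q / (D + 1 : ℝ)) := mul_le_mul_of_nonneg_left (hL D) hx0
      _ = q * (x / (D + 1 : ℝ)) := by ring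
      _ ≤ q * Real.sqrt x := by
          apply mul_le_mul_of_nonneg_left _ (by positivity)
          rw [div_le_iff₀ (by positivity)]
          nlinarith
  have e : ∑ d ∈ Ico 1 (D + 1), ((N / d : ℕ) : ℝ) * (χ d : ℝ) +
      ∑ d ∈ Ico (D + 1) (N + 1), ((N / d : ℕ) : ℝ) * (χ d : ℝ) - x * L =
      (∑ d ∈ Ico 1 (D + 1), ((N / d : ℕ) : ℝ) * (χ d : ℝ) - x * LD χ D) +
      (∑ d ∈ Ico (D + 1) (N + 1), ((N / d : ℕ) : ℝ) * (χ d : ℝ)) + (x * LD χ D - x * L) := by ring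
  rw [e]
  refine (abs_add_three _ _ _).trans ?_
  have h1 : (D : ℝ) * q ≤ Real.sqrt x * q := mul_le_mul_of_nonneg_right hD1 (by positivity)
  have h2 : Real.sqrt x ≤ Real.sqrt x * q := le_mul_of_one_le_right hs hq1
  nlinarith

/-- the weights of the smoothed sum -/
noncomputable def HH (N d : ℕ) : ℝ := ∑ m ∈ Icc 1 (N / d), ((N : ℝ) - ((d * m : ℕ) : ℝ))

lemma sum_lin (N d K : ℕ) : ∑ m ∈ Icc 1 K, ((N : ℝ) - ((d * m : ℕ) : ℝ)) =
    K * N - d * (K * (K + 1) / 2) := by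
  induction K with
  | zero => simp
  | succ K ih =>
    rw [sum_Icc_succ_top (by omega), ih]; push_cast; ring

lemma sum_squares (N M : ℕ) : ∑ m ∈ Icc 1 M, ((N : ℝ) - ((m * m : ℕ) : ℝ)) =
    M * N - M * (M + 1) * (2 * M + 1) / 6 := by
  induction M with
  | zero => simp
  | succ K ih =>
    rw [sum_Icc_succ_top (by omega), ih]; push_cast; ring

lemma HH_nonneg (N d : ℕ) : 0 ≤ HH N d := by
  refine sum_nonneg fun m hm => ?_
  have : d * m ≤ N := (Nat.mul_le_mul_left _ (mem_Icc.1 hm).2).trans (Nat.mul_div_le N d)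
  have h2 : ((d * m : ℕ) : ℝ) ≤ N := by exact_mod_cast this
  linarith

lemma HH_anti (N d : ℕ) (hd : 1 ≤ d) : HH N (d + 1) ≤ HH N d := by
  have h1 : HH N (d + 1) ≤ ∑ m ∈ Icc 1 (N / (d + 1)), ((N : ℝ) - ((d * m : ℕ) : ℝ)) := by
    refine sum_le_sum fun m _ => ?_
    have : ((d * m : ℕ) : ℝ) ≤ (((d + 1) * m : ℕ) : ℝ) := by
      exact_mod_cast Nat.mul_le_mul_right m (by omega)
    linarith
  refine h1.trans ?_
  unfold HH
  refine sum_le_sum_of_subset_of_nonneg ?_ ?_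
  · exact Icc_subset_Icc_right (Nat.div_le_div_left (by omega) (by omega))
  · intro m hm _
    have : d * m ≤ N := (Nat.mul_le_mul_left _ (mem_Icc.1 hm).2).trans (Nat.mul_div_le N d)
    have h2 : ((d * m : ℕ) : ℝ) ≤ N := by exact_mod_cast this
    linarith

lemma HH_formula (N d : ℕ) (hd : 1 ≤ d) : ∃ r : ℝ, 0 ≤ r ∧ r ≤ d ∧ r ≤ N ∧
    HH N d = (N : ℝ) ^ 2 / (2 * d) - N / 2 + r * (d - r) / (2 * d) := by
  have hd0 : (0 : ℝ) < d := by exact_mod_cast hd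
  have h1 : d * (N / d) + N % d = N := Nat.div_add_mod N d
  refine ⟨((N % d : ℕ) : ℝ), by positivity, ?_, ?_, ?_⟩
  · exact_mod_cast (Nat.mod_lt N hd).le
  · exact_mod_cast Nat.mod_le N d
  · unfold HH
    rw [sum_lin]
    have h2 : (N : ℝ) = d * ((N / d : ℕ) : ℝ) + ((N % d : ℕ) : ℝ) := by exact_mod_cast h1.symm
    generalize ((N / d : ℕ) : ℝ) = K at h2 ⊢
    generalize ((N % d : ℕ) : ℝ) = r at h2 ⊢
    rw [h2]
    field_simp
    ring

lemma HH_approx (N d : ℕ) (hd : 1 ≤ d) :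
    |HH N d - ((N : ℝ) ^ 2 / (2 * d) - N / 2)| ≤ (d : ℝ) / 2 := by
  obtain ⟨r, h0, h1, _, h⟩ := HH_formula N d hd
  have hd0 : (0 : ℝ) < d := by exact_mod_cast hd
  rw [h]
  have e : (N : ℝ) ^ 2 / (2 * d) - N / 2 + r * (d - r) / (2 * d) - ((N : ℝ) ^ 2 / (2 * d) - N / 2)
    = r * (d - r) / (2 * d) := by ring
  rw [e, abs_of_nonneg (div_nonneg (mul_nonneg h0 (by linarith)) (by positivity))]
  rw [div_le_div_iff₀ (by positivity) (by norm_num)]
  nlinarith [mul_nonneg h0 h0]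

lemma HH_le (N d : ℕ) (hd : 1 ≤ d) : HH N d ≤ (N : ℝ) ^ 2 / (2 * d) := by
  obtain ⟨r, h0, h1, h2, h⟩ := HH_formula N d hd
  have hd0 : (0 : ℝ) < d := by exact_mod_cast hd
  have : r * (d - r) / (2 * d) ≤ N / 2 := by
    rw [div_le_div_iff₀ (by positivity) (by norm_num)]
    nlinarith [mul_nonneg h0 h0, mul_le_mul_of_nonneg_right h2 hd0.le]
  rw [h]; linarith

lemma lower_left (h : RC q χ) (M : ℕ) :
    (2 / 3 : ℝ) * ((M : ℝ) ^ 3 - (M : ℝ) ^ 2) ≤
      ∑ n ∈ Icc 1 (M * M), (rr χ n : ℝ) * (((M * M : ℕ) : ℝ) - (n : ℝ)) := by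
  have hinj : Set.InjOn (fun m : ℕ => m * m) (Icc 1 M : Finset ℕ) := by
    intro a _ b _ hab
    exact Nat.mul_self_inj.1 hab
  have hsub : (Icc 1 M).image (fun m : ℕ => m * m) ⊆ Icc 1 (M * M) := by
    intro n hn
    simp only [mem_image, mem_Icc] at hn ⊢
    obtain ⟨m, ⟨h1, h2⟩, rfl⟩ := hn
    exact ⟨Nat.mul_pos h1 h1, Nat.mul_le_mul h2 h2⟩
  have h1 : ∑ m ∈ Icc 1 M, (rr χ (m * m) : ℝ) * (((M * M : ℕ) : ℝ) - ((m * m : ℕ) : ℝ)) ≤
      ∑ n ∈ Icc 1 (M * M), (rr χ n : ℝ) * (((M * M : ℕ) : ℝ) - (n : ℝ)) := by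
    have := sum_image (f := fun n : ℕ => (rr χ n : ℝ) * (((M * M : ℕ) : ℝ) - (n : ℝ))) hinj
    rw [← this]
    refine sum_le_sum_of_subset_of_nonneg hsub fun n hn _ => ?_
    have h2 : ((n : ℕ) : ℝ) ≤ ((M * M : ℕ) : ℝ) := by exact_mod_cast (mem_Icc.1 hn).2
    have h3 : (0 : ℝ) ≤ (rr χ n : ℝ) := by exact_mod_cast rr_nonneg h n
    exact mul_nonneg h3 (by linarith)
  refine le_trans ?_ h1
  have h2 : ∑ m ∈ Icc 1 M, (((M * M : ℕ) : ℝ) - ((m * m : ℕ) : ℝ)) ≤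
      ∑ m ∈ Icc 1 M, (rr χ (m * m) : ℝ) * (((M * M : ℕ) : ℝ) - ((m * m : ℕ) : ℝ)) := by
    refine sum_le_sum fun m hm => ?_
    have hm' := mem_Icc.1 hm
    have h3 : ((m * m : ℕ) : ℝ) ≤ ((M * M : ℕ) : ℝ) := by
      exact_mod_cast Nat.mul_le_mul hm'.2 hm'.2
    have h4 : (1 : ℝ) ≤ (rr χ (m * m) : ℝ) := by exact_mod_cast rr_sq_pos h (by omega)
    nlinarith
  refine le_trans ?_ h2
  rw [sum_squares]
  push_cast
  rcases Nat.eq_zero_or_pos M with h0 | h0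
  · subst h0; simp
  have h5 : (1 : ℝ) ≤ M := by exact_mod_cast h0
  nlinarith [mul_nonneg (by linarith : (0 : ℝ) ≤ M) (by linarith : (0 : ℝ) ≤ (M : ℝ) - 1)]

lemma upper_right (hq : 0 < q) (h : RC q χ) (hn : ∃ n, χ n = -1) {L : ℝ}
    (hL : ∀ D : ℕ, |LD χ D - L| ≤ q / (D + 1 : ℝ)) (N D : ℕ) (hD : 1 ≤ D) (hDN : D ≤ N) :
    ∑ n ∈ Icc 1 N, (rr χ n : ℝ) * ((N : ℝ) - (n : ℝ)) ≤
      (N : ℝ) ^ 2 / 2 * L + q * (N : ℝ) ^ 2 / D + N * q / 2 + (D : ℝ) ^ 2 / 2 := by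
  have h1 := sum_rr χ (fun n => (N : ℝ) - (n : ℝ)) N
  have h2 : ∑ d ∈ Icc 1 N, (χ d : ℝ) * ∑ m ∈ Icc 1 (N / d), ((N : ℝ) - ((d * m : ℕ) : ℝ)) =
      ∑ d ∈ Ico 1 (N + 1), HH N d * (χ d : ℝ) := by
    rw [Icc_eq]
    exact sum_congr rfl fun d _ => mul_comm _ _
  rw [h1, h2, ← sum_Ico_consecutive _ (by omega : 1 ≤ D + 1) (by omega : D + 1 ≤ N + 1)]
  have hD0 : (0 : ℝ) < D := by exact_mod_cast hD
  have hD1 : (1 : ℝ) ≤ D := by exact_mod_cast hD
  have hA : |∑ d ∈ Ico 1 (D + 1), HH N d * (χ d : ℝ) -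
      ((N : ℝ) ^ 2 / 2 * LD χ D - N / 2 * ∑ d ∈ Ico 1 (D + 1), (χ d : ℝ))| ≤ (D : ℝ) ^ 2 / 2 := by
    unfold LD
    rw [mul_sum, mul_sum, ← sum_sub_distrib, ← sum_sub_distrib]
    refine (abs_sum_le_sum_abs _ _).trans ?_
    calc _ ≤ ∑ d ∈ Ico 1 (D + 1), (D / 2 : ℝ) := by
          refine sum_le_sum fun d hd => ?_
          have hd' := mem_Ico.1 hd
          have hd0 : (0 : ℝ) < d := by exact_mod_cast hd'.1
          have e1 : HH N d * (χ d : ℝ) - ((N : ℝ) ^ 2 / 2 * (1 / (d : ℝ) * (χ d : ℝ)) -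
              N / 2 * (χ d : ℝ)) = (HH N d - ((N : ℝ) ^ 2 / (2 * d) - N / 2)) * (χ d : ℝ) := by
            field_simp
          have e6 : |(χ d : ℝ)| ≤ 1 := by exact_mod_cast abs_le_one h d
          rw [e1, abs_mul]
          have e7 := HH_approx N d hd'.1
          have e8 : (d : ℝ) ≤ D := by exact_mod_cast (by omega : d ≤ D)
          calc _ ≤ |HH N d - ((N : ℝ) ^ 2 / (2 * d) - N / 2)| * 1 :=
                mul_le_mul_of_nonneg_left e6 (abs_nonneg _)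
            _ ≤ D / 2 := by linarith
      _ = (D : ℝ) ^ 2 / 2 := by simp; ring
  have hB : |∑ d ∈ Ico (D + 1) (N + 1), HH N d * (χ d : ℝ)| ≤ q * (N : ℝ) ^ 2 / (2 * D) := by
    have := abel (fun d : ℕ => HH N d) (fun d => (χ d : ℝ)) (D + 1) q
      (fun n hn => HH_anti N n (by omega))
      (fun n hn => HH_nonneg N n)
      (fun n hn' => abs_sum_Ico_real hq h hn _ _ hn') (N + 1) (by omega)
    refine this.trans ?_
    have h3 : HH N (D + 1) ≤ (N : ℝ) ^ 2 / (2 * D) := by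
      refine (HH_anti N D hD).trans (HH_le N D hD)
    calc HH N (D + 1) * q ≤ (N : ℝ) ^ 2 / (2 * D) * q :=
          mul_le_mul_of_nonneg_right h3 (by positivity)
      _ = q * (N : ℝ) ^ 2 / (2 * D) := by ring
  have hC : |∑ d ∈ Ico 1 (D + 1), (χ d : ℝ)| ≤ q := abs_sum_Ico_real hq h hn _ _ (by omega)
  have hE : LD χ D ≤ L + q / D := by
    have h3 := (abs_le.1 (hL D)).2
    have h4 : (q : ℝ) / (D + 1 : ℝ) ≤ q / D :=
      div_le_div_of_nonneg_left (by positivity) hD0 (by linarith)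
    linarith
  have hN0 : (0 : ℝ) ≤ N := by positivity
  have hE2 : (N : ℝ) ^ 2 / 2 * LD χ D ≤ (N : ℝ) ^ 2 / 2 * (L + q / D) :=
    mul_le_mul_of_nonneg_left hE (by positivity)
  have hC2 : - ((N : ℝ) / 2 * ∑ d ∈ Ico 1 (D + 1), (χ d : ℝ)) ≤ N / 2 * q := by
    have h3 := (abs_le.1 hC).1
    have h4 := mul_le_mul_of_nonneg_left h3 (by positivity : (0 : ℝ) ≤ N / 2)
    linarith
  have hA2 := (abs_le.1 hA).2
  have hB2 := (abs_le.1 hB).2
  have e : (N : ℝ) ^ 2 / 2 * (L + q / D) + q * (N : ℝ) ^ 2 / (2 * D) =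
      (N : ℝ) ^ 2 / 2 * L + q * (N : ℝ) ^ 2 / D := by
    field_simp; ring
  linarith

lemma lower_L (hq : 0 < q) (h : RC q χ) (hn : ∃ n, χ n = -1) {L : ℝ}
    (hL : ∀ D : ℕ, |LD χ D - L| ≤ q / (D + 1 : ℝ)) : (1 / 300 : ℝ) / (q : ℝ) ^ 2 ≤ L := by
  have hq1 : (1 : ℝ) ≤ q := by exact_mod_cast hq
  have hq0 : (0 : ℝ) < q := by linarith
  set M : ℕ := 60 * q ^ 2 with hM
  set D : ℕ := 120 * q ^ 3 with hD
  have hD1 : 1 ≤ D := by rw [hD]; have := Nat.pow_pos (n := 3) hq; omega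
  have hDN : D ≤ M * M := by
    rw [hM, hD]
    have h1 : q ^ 3 ≤ q ^ 4 := Nat.pow_le_pow_right hq (by norm_num)
    nlinarith
  have h1 := lower_left h M
  have h2 := upper_right hq h hn hL (M * M) D hD1 hDN
  have h3 := h1.trans h2
  have eM : (M : ℝ) = 60 * (q : ℝ) ^ 2 := by rw [hM]; push_cast; ring
  have eD : (D : ℝ) = 120 * (q : ℝ) ^ 3 := by rw [hD]; push_cast; ring
  push_cast at h3
  rw [eM, eD] at h3
  have e1 : (q : ℝ) * (60 * (q : ℝ) ^ 2 * (60 * (q : ℝ) ^ 2)) ^ 2 / (120 * (q : ℝ) ^ 3) =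
      108000 * (q : ℝ) ^ 6 := by field_simp; ring
  rw [e1] at h3
  have h4 : (q : ℝ) ^ 5 ≤ (q : ℝ) ^ 6 := pow_le_pow_right₀ hq1 (by norm_num)
  have h5 : (q : ℝ) ^ 4 ≤ (q : ℝ) ^ 6 := pow_le_pow_right₀ hq1 (by norm_num)
  have h6 : 24600 * (q : ℝ) ^ 6 ≤ 6480000 * (q : ℝ) ^ 8 * L := by nlinarith
  rw [div_le_iff₀ (by positivity)]
  have h7 : 24600 * (q : ℝ) ^ 6 ≤ (6480000 * (q : ℝ) ^ 6) * (L * (q : ℝ) ^ 2) := by nlinarith
  have h8 : (0 : ℝ) < (q : ℝ) ^ 6 := by positivity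
  by_contra hc
  rw [not_le] at hc
  have h9 : (6480000 * (q : ℝ) ^ 6) * (L * (q : ℝ) ^ 2) < (6480000 * (q : ℝ) ^ 6) * (1 / 300) :=
    mul_lt_mul_of_pos_left hc (by positivity)
  nlinarith

end Lsec

end EAaux

theorem t_EA : EA := by
  refine ⟨1 / 300, by norm_num, ?_⟩
  intro q χ hq h hn
  obtain ⟨L, hL⟩ := EAaux.exists_L hq h hn
  exact ⟨L, EAaux.lower_L hq h hn hL, fun x hx => EAaux.summatory hq h hn hL x hx⟩

end Pool.Agent.H661R3.UP
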