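import Pool.Agent.H661R3.UP.Defs
import Pool.Agent.Helper112.Lp.MertensLog

/-!
EX: a real character modulo `q ≤ Y` takes the value 1 at some prime of `(Y, Y ^ 200]`.
-/

set_option autoImplicit false

open Finset

namespace Pool.Agent.H661R3.UP

namespace EXX

section arith

variable {q : ℕ} {χ : ℕ → ℤ}

theorem chi_one (h : RC q χ) : χ 1 = 1 := by
  have h1 := h.2.2.1 1 (Nat.coprime_one_left q)
  have h2 := h.1 1 1
  rw [Nat.one_mul] at h2
  rcases h1 with h1 | h1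
  · exact h1
  · rw [h1] at h2; norm_num at h2

theorem chi_pow (h : RC q χ) (p k : ℕ) : χ (p ^ k) = χ p ^ k := by
  induction k with
  | zero => rw [pow_zero, pow_zero, chi_one h]
  | succ k ih => rw [pow_succ, h.1, ih, pow_succ]

theorem chi_val (h : RC q χ) (n : ℕ) : χ n = 1 ∨ χ n = -1 ∨ χ n = 0 := by
  by_cases hc : Nat.Coprime n q
  · rcases h.2.2.1 n hc with h1 | h1
    · exact Or.inl h1
    · exact Or.inr (Or.inl h1)
  · exact Or.inr (Or.inr (h.2.2.2 n hc))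

/-- `χ` as an arithmetic function -/
noncomputable def cA (χ : ℕ → ℤ) : ArithmeticFunction ℤ := ⟨fun n => if n = 0 then 0 else χ n, by simp⟩

theorem rr_eq (χ : ℕ → ℤ) (n : ℕ) :
    rr χ n = (cA χ * (ArithmeticFunction.zeta : ArithmeticFunction ℤ)) n := by
  rw [ArithmeticFunction.coe_mul_zeta_apply]
  unfold rr
  apply Finset.sum_congr rfl
  intro d hd
  have : d ≠ 0 := (Nat.pos_of_mem_divisors hd).ne'
  show _ = if d = 0 then 0 else χ d
  rw [if_neg this]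

theorem cA_mul (h : RC q χ) : (cA χ).IsMultiplicative := by
  refine ⟨?_, ?_⟩
  · show (if (1 : ℕ) = 0 then 0 else χ 1) = 1
    rw [if_neg one_ne_zero, chi_one h]
  · intro m n _
    show (if m * n = 0 then 0 else χ (m * n)) =
      (if m = 0 then 0 else χ m) * (if n = 0 then 0 else χ n)
    by_cases hm : m = 0
    · simp [hm]
    · by_cases hn : n = 0
      · simp [hn]
      · rw [if_neg hm, if_neg hn, if_neg (mul_ne_zero hm hn), h.1]

theorem rr_mult (h : RC q χ) :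
    (cA χ * (ArithmeticFunction.zeta : ArithmeticFunction ℤ)).IsMultiplicative :=
  (cA_mul h).mul ArithmeticFunction.isMultiplicative_zeta.natCast

/-- values at prime powers -/
def gg (x : ℤ) (k : ℕ) : ℤ := ∑ i ∈ range (k + 1), x ^ i

theorem gg_one (k : ℕ) : gg 1 k = k + 1 := by simp [gg]

theorem gg_zero (k : ℕ) : gg 0 k = 1 := by
  unfold gg
  rw [Finset.sum_range_succ']
  simp

theorem gg_neg (k : ℕ) : gg (-1) k = if Even k then 1 else 0 := by
  unfold gg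
  induction k with
  | zero => simp
  | succ k ih =>
    rw [Finset.sum_range_succ, ih]
    by_cases hk : Even k
    · rw [if_pos hk, if_neg (by rw [Nat.even_add_one]; simpa using hk), (hk.add_one).neg_one_pow]
      norm_num
    · have hk' : Even (k + 1) := by rw [Nat.even_add_one]; exact hk
      rw [if_neg hk, if_pos hk', hk'.neg_one_pow]
      norm_num

theorem gg_nonneg {x : ℤ} (hx : x = 1 ∨ x = -1 ∨ x = 0) (k : ℕ) : 0 ≤ gg x k := by
  rcases hx with rfl | rfl | rfl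
  · rw [gg_one]; positivity
  · rw [gg_neg]; split_ifs <;> norm_num
  · rw [gg_zero]; norm_num

theorem rr_pp (h : RC q χ) {p : ℕ} (hp : p.Prime) (k : ℕ) : rr χ (p ^ k) = gg (χ p) k := by
  unfold rr gg
  rw [Nat.sum_divisors_prime_pow hp]
  exact Finset.sum_congr rfl fun i _ => chi_pow h p i

theorem rr_mul (h : RC q χ) {p : ℕ} (hp : p.Prime) (k : ℕ) {m : ℕ} (hm : ¬ p ∣ m) :
    rr χ (p ^ k * m) = gg (χ p) k * rr χ m := by
  have hc : Nat.Coprime (p ^ k) m := Nat.Coprime.pow_left _ ((hp.coprime_iff_not_dvd).mpr hm)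
  rw [← rr_pp h hp k, rr_eq, rr_eq, rr_eq, (rr_mult h).map_mul_of_coprime hc]

theorem rr_nonneg (h : RC q χ) (n : ℕ) : 0 ≤ rr χ n := by
  rcases Nat.eq_zero_or_pos n with rfl | hn
  · simp [rr]
  rw [rr_eq, (rr_mult h).multiplicative_factorization _ hn.ne']
  unfold Finsupp.prod
  apply Finset.prod_nonneg
  intro p hp
  show 0 ≤ (cA χ * (ArithmeticFunction.zeta : ArithmeticFunction ℤ)) (p ^ n.factorization p)
  rw [← rr_eq, rr_pp h (Nat.prime_of_mem_primeFactors (by simpa using hp))]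
  exact gg_nonneg (chi_val h p) _

theorem pt1 (h : RC q χ) {p : ℕ} (hp : p.Prime) (hχ : χ p = 1 ∨ χ p = 0) (a : ℕ) {m : ℕ}
    (hm : 0 < m) : rr χ (p ^ a * m) ≤ (a + 1) * rr χ m := by
  obtain ⟨b, m', hm', rfl⟩ := Nat.exists_eq_pow_mul_and_not_dvd hm.ne' p hp.ne_one
  have hr := rr_nonneg h m'
  rw [← mul_assoc, ← pow_add, rr_mul h hp _ hm', rr_mul h hp _ hm', ← mul_assoc]
  apply mul_le_mul_of_nonneg_right _ hr
  rcases hχ with hχ | hχ
  · rw [hχ, gg_one, gg_one]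
    push_cast
    nlinarith [mul_nonneg (Int.natCast_nonneg a) (Int.natCast_nonneg b)]
  · rw [hχ, gg_zero, gg_zero]
    have := Int.natCast_nonneg a
    linarith

theorem pt2 (h : RC q χ) {p : ℕ} (hp : p.Prime) (hχ : χ p = -1) (a : ℕ) {m : ℕ}
    (hm : 0 < m) : rr χ (p ^ a * m) ≤ rr χ m + (if p ∣ m then rr χ (m / p) else 0) := by
  obtain ⟨b, m', hm', rfl⟩ := Nat.exists_eq_pow_mul_and_not_dvd hm.ne' p hp.ne_one
  have hr := rr_nonneg h m'
  rw [← mul_assoc, ← pow_add, rr_mul h hp _ hm', rr_mul h hp _ hm', hχ]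
  have hg : gg (-1) (a + b) ≤ 1 := by rw [gg_neg]; split_ifs <;> norm_num
  cases b with
  | zero =>
    have : ¬ p ∣ p ^ 0 * m' := by simpa using hm'
    rw [if_neg this, gg_neg 0, if_pos (by decide)]
    nlinarith
  | succ b =>
    have h1 : p ∣ p ^ (b + 1) * m' := Dvd.dvd.mul_right (dvd_pow_self p (by omega)) _
    have h2 : p ^ (b + 1) * m' / p = p ^ b * m' := by
      rw [pow_succ, mul_right_comm]
      exact Nat.mul_div_cancel _ hp.pos
    rw [if_pos h1, h2, rr_mul h hp _ hm', hχ]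
    have h3 : gg (-1) (b + 1) + gg (-1) b = 1 := by
      rw [gg_neg, gg_neg]
      by_cases hb : Even b
      · rw [if_pos hb, if_neg (by rw [Nat.even_add_one]; simpa using hb)]; norm_num
      · rw [if_neg hb, if_pos (by rw [Nat.even_add_one]; exact hb)]; norm_num
    nlinarith

/-- the summatory function -/
def Sn (χ : ℕ → ℤ) (M : ℕ) : ℤ := ∑ n ∈ Icc 1 M, rr χ n

theorem Abound (h : RC q χ) {p : ℕ} (hp : p.Prime) {a : ℕ} (ha : 1 ≤ a) (M : ℕ) :
    ∑ m ∈ Icc 1 M, rr χ (p ^ a * m) ≤ (a + 1) * Sn χ M := by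
  have hS : 0 ≤ Sn χ M := Finset.sum_nonneg fun n _ => rr_nonneg h n
  have ha' : (1 : ℤ) ≤ a := by exact_mod_cast ha
  by_cases hχ : χ p = -1
  · have h1 : ∑ m ∈ Icc 1 M, rr χ (p ^ a * m) ≤
        ∑ m ∈ Icc 1 M, (rr χ m + (if p ∣ m then rr χ (m / p) else 0)) := by
      apply Finset.sum_le_sum
      intro m hm
      exact pt2 h hp hχ a (by rw [mem_Icc] at hm; omega)
    have h2 : ∑ m ∈ Icc 1 M, (if p ∣ m then rr χ (m / p) else 0) ≤ Sn χ M := by
      rw [← Finset.sum_filter]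
      have hinj : Set.InjOn (fun m => m / p) ((Icc 1 M).filter (fun m => p ∣ m) : Set ℕ) := by
        intro x hx y hy hxy
        simp only [mem_coe, mem_filter] at hx hy
        obtain ⟨u, hu⟩ := hx.2
        obtain ⟨v, hv⟩ := hy.2
        simp only [hu, hv, Nat.mul_div_cancel_left _ hp.pos] at hxy
        rw [hu, hv, hxy]
      rw [← Finset.sum_image (f := fun k => rr χ k) (g := fun m => m / p) hinj]
      apply Finset.sum_le_sum_of_subset_of_nonneg
      · intro k hk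
        rw [mem_image] at hk
        obtain ⟨m, hm, rfl⟩ := hk
        rw [mem_filter, mem_Icc] at hm
        obtain ⟨u, hu⟩ := hm.2
        rw [mem_Icc, hu, Nat.mul_div_cancel_left _ hp.pos]
        have hp1 := hp.pos
        constructor
        · rcases Nat.eq_zero_or_pos u with h0 | h0
          · rw [h0] at hu; omega
          · exact h0
        · nlinarith
      · intro k _ _
        exact rr_nonneg h k
    rw [Finset.sum_add_distrib] at h1
    have h3 : Sn χ M = ∑ m ∈ Icc 1 M, rr χ m := rfl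
    nlinarith
  · have hχ' : χ p = 1 ∨ χ p = 0 := by
      rcases chi_val h p with h1 | h1 | h1
      · exact Or.inl h1
      · exact absurd h1 hχ
      · exact Or.inr h1
    unfold Sn
    rw [Finset.mul_sum]
    apply Finset.sum_le_sum
    intro m hm
    exact pt1 h hp hχ' a (by rw [mem_Icc] at hm; omega)

theorem reindex (f : ℕ → ℤ) (N : ℕ) {d : ℕ} (hd : 0 < d) :
    ∑ n ∈ (Icc 1 N).filter (fun n => d ∣ n), f n = ∑ m ∈ Icc 1 (N / d), f (d * m) := by
  have h1 : (Icc 1 N).filter (fun n => d ∣ n) = (Icc 1 (N / d)).image (fun m => d * m) := by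
    ext n
    rw [mem_filter, mem_Icc, mem_image]
    constructor
    · rintro ⟨⟨hn1, hn2⟩, u, rfl⟩
      refine ⟨u, ?_, rfl⟩
      rw [mem_Icc]
      constructor
      · rcases Nat.eq_zero_or_pos u with h0 | h0
        · rw [h0] at hn1; omega
        · exact h0
      · rw [Nat.le_div_iff_mul_le hd, mul_comm]; exact hn2
    · rintro ⟨u, hu, rfl⟩
      rw [mem_Icc, Nat.le_div_iff_mul_le hd] at hu
      refine ⟨⟨?_, ?_⟩, dvd_mul_right _ _⟩
      · exact Nat.mul_pos hd hu.1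
      · rw [mul_comm]; exact hu.2
  rw [h1, Finset.sum_image]
  intro x _ y _ hxy
  exact Nat.eq_of_mul_eq_mul_left hd hxy

/-- sum over the multiples of `p ^ a` -/
def Ap (χ : ℕ → ℤ) (N p a : ℕ) : ℤ := ∑ n ∈ (Icc 1 N).filter (fun n => p ^ a ∣ n), rr χ n

theorem Ap_le (h : RC q χ) (N : ℕ) {p : ℕ} (hp : p.Prime) {a : ℕ} (ha : 1 ≤ a) :
    Ap χ N p a ≤ (a + 1) * Sn χ (N / p ^ a) := by
  unfold Ap
  rw [reindex _ _ (pow_pos hp.pos a)]
  exact Abound h hp ha _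

theorem Ap_one (h : RC q χ) (N : ℕ) {p : ℕ} (hp : p.Prime) (hχ : χ p = -1) :
    Ap χ N p 1 ≤ Ap χ N p 2 := by
  unfold Ap
  apply le_of_eq
  symm
  apply Finset.sum_subset
  · intro n hn
    rw [mem_filter] at hn ⊢
    exact ⟨hn.1, (pow_dvd_pow p (by norm_num)).trans hn.2⟩
  · intro n hn hn2
    rw [mem_filter, mem_Icc, pow_one] at hn
    have hnd : ¬ p ^ 2 ∣ n := fun h2 => hn2 (mem_filter.mpr ⟨mem_Icc.mpr hn.1, h2⟩)
    obtain ⟨u, rfl⟩ := hn.2
    have hu : ¬ p ∣ u := by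
      rintro ⟨v, rfl⟩
      exact hnd ⟨v, by ring⟩
    have := rr_mul h hp 1 hu
    rw [pow_one] at this
    rw [this, hχ, gg_neg, if_neg (by decide), zero_mul]

theorem Vp_le (h : RC q χ) (N : ℕ) {p : ℕ} (hp : p.Prime) :
    ∑ n ∈ Icc 1 N, rr χ n * (n.factorization p : ℤ) ≤ ∑ a ∈ Ico 1 (N + 1), Ap χ N p a := by
  unfold Ap
  simp only [Finset.sum_filter]
  rw [Finset.sum_comm]
  apply Finset.sum_le_sum
  intro n hn
  rw [mem_Icc] at hn
  have h1 : (n.factorization p : ℤ) ≤ ∑ a ∈ Ico 1 (N + 1), (if p ^ a ∣ n then (1 : ℤ) else 0) := by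
    rw [Finset.sum_boole, Nat.factorization_eq_card_pow_dvd n hp]
    norm_cast
    apply card_le_card
    intro i hi
    rw [mem_filter, mem_Ico] at hi ⊢
    exact ⟨⟨hi.1.1, by omega⟩, hi.2⟩
  calc rr χ n * (n.factorization p : ℤ)
      ≤ rr χ n * ∑ a ∈ Ico 1 (N + 1), (if p ^ a ∣ n then (1 : ℤ) else 0) :=
        mul_le_mul_of_nonneg_left h1 (rr_nonneg h n)
    _ = _ := by
        rw [Finset.mul_sum]
        apply Finset.sum_congr rfl
        intro a _
        split_ifs <;> simp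

end arith

section analysis

open Pool.Agent.Helper112.LP.KML (PP)

theorem geo (z : ℝ) (hz : 0 ≤ z) (hz1 : z < 1) (K : ℕ) (hK : 2 ≤ K) :
    ∑ a ∈ Ico 2 K, ((a : ℝ) + 1) * z ^ a ≤ 3 * z ^ 2 / (1 - z) ^ 2 := by
  have h1 : (1 - z) ^ 2 * ∑ a ∈ Ico 2 K, ((a : ℝ) + 1) * z ^ a =
      3 * z ^ 2 - 2 * z ^ 3 - ((K : ℝ) + 1) * z ^ K + K * z ^ (K + 1) := by
    induction K, hK using Nat.le_induction with
    | base => norm_num
    | succ K hK ih =>
      rw [Finset.sum_Ico_succ_top hK, mul_add, ih]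
      push_cast
      ring
  have h2 : 0 < (1 - z) ^ 2 := by apply pow_pos; linarith
  rw [le_div_iff₀ h2, mul_comm, h1]
  have h3 : 0 ≤ z ^ K * ((K : ℝ) + 1 - K * z) := by
    apply mul_nonneg (by positivity)
    have : (K : ℝ) * z ≤ K := by
      have hK0 : (0 : ℝ) ≤ K := by positivity
      nlinarith
    linarith
  have h4 : 0 ≤ z ^ 3 := by positivity
  have h5 : z ^ K * ((K : ℝ) + 1 - K * z) = ((K : ℝ) + 1) * z ^ K - K * z ^ (K + 1) := by
    rw [pow_succ]; ring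
  rw [h5] at h3
  linarith

theorem geo1 (p : ℝ) (hp : 2 ≤ p) (K : ℕ) (hK : 2 ≤ K) :
    ∑ a ∈ Ico 2 K, ((a : ℝ) + 1) * (1 / p) ^ a ≤ 12 / p ^ 2 := by
  have hp0 : 0 < p := by linarith
  have h1 : 1 / p ≤ 1 / 2 := one_div_le_one_div_of_le (by norm_num) hp
  refine (geo (1 / p) (by positivity) (by linarith) K hK).trans ?_
  have h2 : (1 / 2 : ℝ) ^ 2 ≤ (1 - 1 / p) ^ 2 := pow_le_pow_left₀ (by norm_num) (by linarith) 2
  rw [div_le_iff₀ (by nlinarith)]
  have h3 : (1 / p) ^ 2 = 1 / p ^ 2 := by rw [div_pow, one_pow]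
  have h4 : 12 / p ^ 2 = 12 * (1 / p ^ 2) := by ring
  have h5 : 0 < 1 / p ^ 2 := by positivity
  rw [h3, h4]
  nlinarith

theorem geo2 (p : ℝ) (hp : 2 ≤ p) (K : ℕ) (hK : 2 ≤ K) :
    ∑ a ∈ Ico 2 K, ((a : ℝ) + 1) * (1 / Real.sqrt p) ^ a ≤ 36 / p := by
  have hp0 : 0 < p := by linarith
  have hs : 0 < Real.sqrt p := Real.sqrt_pos.mpr hp0
  set z := 1 / Real.sqrt p with hz
  have hz0 : 0 < z := by positivity
  have hz2 : z ^ 2 = 1 / p := by rw [hz, div_pow, one_pow, Real.sq_sqrt hp0.le]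
  have h1 : 1 / p ≤ 1 / 2 := one_div_le_one_div_of_le (by norm_num) hp
  have hz3 : z ≤ 0.7072 := by nlinarith
  refine (geo z hz0.le (by linarith) K hK).trans ?_
  have h2 : (0.2928 : ℝ) ^ 2 ≤ (1 - z) ^ 2 := pow_le_pow_left₀ (by norm_num) (by linarith) 2
  rw [div_le_iff₀ (by nlinarith), hz2]
  have h4 : 36 / p = 36 * (1 / p) := by ring
  have h5 : 0 < 1 / p := by positivity
  rw [h4]
  nlinarith

variable {q : ℕ} {χ : ℕ → ℤ} {L : ℝ}

theorem Sn_le (hL : 0 ≤ L) (hS : ∀ x : ℝ, 1 ≤ x →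
    |((∑ n ∈ Icc 1 ⌊x⌋₊, rr χ n : ℤ) : ℝ) - x * L| ≤ 10 * q * Real.sqrt x) (N d : ℕ) :
    (Sn χ (N / d) : ℝ) ≤ (N : ℝ) / d * L + 10 * q * Real.sqrt ((N : ℝ) / d) := by
  by_cases hx : 1 ≤ (N : ℝ) / d
  · have h1 := hS _ hx
    rw [Nat.floor_div_eq_div] at h1
    have h2 := (abs_le.mp h1).2
    unfold Sn
    linarith
  · have h0 : N / d = 0 := by
      rw [← Nat.floor_div_eq_div (K := ℝ)]
      exact Nat.floor_eq_zero.mpr (not_le.mp hx)
    rw [h0]
    simp only [Sn]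
    simp only [show Icc 1 0 = (∅ : Finset ℕ) from rfl, Finset.sum_empty, Int.cast_zero]
    positivity

theorem sqrt_pw (N p : ℝ) (hN : 0 ≤ N) (hp : 0 ≤ p) (a : ℕ) :
    Real.sqrt (N / p ^ a) = Real.sqrt N * (1 / Real.sqrt p) ^ a := by
  have h1 : Real.sqrt (p ^ a) = (Real.sqrt p) ^ a := by
    rw [← Real.sqrt_sq (by positivity : (0 : ℝ) ≤ (Real.sqrt p) ^ a)]
    congr 1
    rw [← pow_mul, mul_comm, pow_mul, Real.sq_sqrt hp]
  rw [Real.sqrt_div hN, h1, div_pow, one_pow]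
  ring

/-- the bound for one prime -/
theorem Vp_bound (h : RC q χ) (hL : 0 ≤ L) (hS : ∀ x : ℝ, 1 ≤ x →
    |((∑ n ∈ Icc 1 ⌊x⌋₊, rr χ n : ℤ) : ℝ) - x * L| ≤ 10 * q * Real.sqrt x) (N : ℕ) (hN : 1 ≤ N)
    (Y : ℕ) {p : ℕ} (hp : p.Prime) (hY : Y < p → χ p = -1) :
    ((∑ n ∈ Icc 1 N, rr χ n * (n.factorization p : ℤ) : ℤ) : ℝ) ≤
      (if p ≤ Y then 2 * (N * L) * (1 / p) + 20 * q * Real.sqrt N else 0) +
        15 * (N * L) * (1 / p ^ 2) + 390 * q * Real.sqrt N * (1 / p) := by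
  have hp2 : (2 : ℝ) ≤ p := by exact_mod_cast hp.two_le
  have hp0 : (0 : ℝ) < p := by linarith
  have hN0 : (0 : ℝ) ≤ N := by positivity
  have hsN : 0 ≤ Real.sqrt N := Real.sqrt_nonneg _
  have hq : (0 : ℝ) ≤ q := by positivity
  have h1 : ((∑ n ∈ Icc 1 N, rr χ n * (n.factorization p : ℤ) : ℤ) : ℝ) ≤
      ((∑ a ∈ Ico 1 (N + 1), Ap χ N p a : ℤ) : ℝ) := by exact_mod_cast Vp_le h N hp
  rw [Finset.sum_eq_sum_Ico_succ_bot (by omega)] at h1
  push_cast at h1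
  -- the tail
  have h2 : ∑ a ∈ Ico 2 (N + 1), (Ap χ N p a : ℝ) ≤
      12 * (N * L) * (1 / p ^ 2) + 360 * q * Real.sqrt N * (1 / p) := by
    have h3 : ∀ a ∈ Ico 2 (N + 1), (Ap χ N p a : ℝ) ≤
        (N * L) * (((a : ℝ) + 1) * (1 / (p : ℝ)) ^ a) +
          10 * q * Real.sqrt N * (((a : ℝ) + 1) * (1 / Real.sqrt p) ^ a) := by
      intro a ha
      rw [mem_Ico] at ha
      have h4 : (Ap χ N p a : ℝ) ≤ ((a : ℝ) + 1) * (Sn χ (N / p ^ a) : ℝ) := by
        exact_mod_cast Ap_le h N hp (by omega : 1 ≤ a)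
      have h5 := Sn_le hL hS N (p ^ a)
      push_cast at h5
      rw [sqrt_pw _ _ hN0 hp0.le] at h5
      have h6 : (0 : ℝ) ≤ (a : ℝ) + 1 := by positivity
      have h7 := mul_le_mul_of_nonneg_left h5 h6
      refine h4.trans (h7.trans (le_of_eq ?_))
      rw [div_pow, one_pow]
      ring
    refine (Finset.sum_le_sum h3).trans ?_
    rw [Finset.sum_add_distrib, ← Finset.mul_sum, ← Finset.mul_sum]
    have h8 := geo1 p hp2 (N + 1) (by omega)
    have h9 := geo2 p hp2 (N + 1) (by omega)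
    have h10 := mul_le_mul_of_nonneg_left h8 (mul_nonneg hN0 hL)
    have h11 := mul_le_mul_of_nonneg_left h9 (by positivity : (0 : ℝ) ≤ 10 * q * Real.sqrt N)
    refine (add_le_add h10 h11).trans (le_of_eq ?_)
    ring
  have hcase : (Ap χ N p 1 : ℝ) ≤
      (if p ≤ Y then 2 * (N * L) * (1 / p) + 20 * q * Real.sqrt N else 0) +
        3 * (N * L) * (1 / p ^ 2) + 30 * q * Real.sqrt N * (1 / p) := by
    split_ifs with hpY
    · have h4 : (Ap χ N p 1 : ℝ) ≤ ((1 : ℕ) + 1 : ℝ) * (Sn χ (N / p ^ 1) : ℝ) := by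
        exact_mod_cast Ap_le h N hp (le_refl 1)
      rw [pow_one] at h4
      have h5 := Sn_le hL hS N p
      have h6 : Real.sqrt ((N : ℝ) / p) ≤ Real.sqrt N := by
        apply Real.sqrt_le_sqrt
        apply div_le_self hN0 (by linarith)
      have h7 : (10 : ℝ) * q * Real.sqrt ((N : ℝ) / p) ≤ 10 * q * Real.sqrt N :=
        mul_le_mul_of_nonneg_left h6 (by positivity)
      have h8 : 0 ≤ 3 * (N * L) * (1 / (p : ℝ) ^ 2) := by positivity
      have h9 : 0 ≤ 30 * q * Real.sqrt N * (1 / (p : ℝ)) := by positivity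
      push_cast at h4
      have h10 : (N : ℝ) / p * L = (N * L) * (1 / p) := by ring
      rw [h10] at h5
      linarith
    · have hχ := hY (not_le.mp hpY)
      have h4 : (Ap χ N p 1 : ℝ) ≤ (Ap χ N p 2 : ℝ) := by exact_mod_cast Ap_one h N hp hχ
      have h5 : (Ap χ N p 2 : ℝ) ≤ ((2 : ℕ) + 1 : ℝ) * (Sn χ (N / p ^ 2) : ℝ) := by
        exact_mod_cast Ap_le h N hp (by norm_num : 1 ≤ 2)
      have h6 := Sn_le hL hS N (p ^ 2)
      push_cast at h5 h6
      rw [sqrt_pw _ _ hN0 hp0.le, div_pow, one_pow, Real.sq_sqrt hp0.le] at h6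
      have h10 : (N : ℝ) / p ^ 2 * L = (N * L) * (1 / p ^ 2) := by ring
      rw [h10] at h6
      linarith
  push_cast
  refine h1.trans ((add_le_add hcase h2).trans (le_of_eq ?_))
  ring

theorem log_eq {n N : ℕ} (hn1 : 1 ≤ n) (hnN : n ≤ N) :
    Real.log n = ∑ p ∈ PP N, (n.factorization p : ℝ) * Real.log p := by
  rw [Real.log_nat_eq_sum_factorization, Finsupp.sum]
  have h1 : n.factorization.support ⊆ PP N := by
    intro p hp
    rw [Nat.support_factorization, Nat.mem_primeFactors] at hp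
    rw [Finset.mem_filter, Finset.mem_Icc]
    exact ⟨⟨hp.1.one_lt.le, (Nat.le_of_dvd hn1 hp.2.1).trans hnN⟩, hp.1⟩
  refine Finset.sum_subset h1 fun p _ hp => ?_
  rw [Finsupp.notMem_support_iff] at hp
  rw [hp]; simp

theorem Tup (h : RC q χ) (hL : 0 ≤ L) (hS : ∀ x : ℝ, 1 ≤ x →
    |((∑ n ∈ Icc 1 ⌊x⌋₊, rr χ n : ℤ) : ℝ) - x * L| ≤ 10 * q * Real.sqrt x) (N : ℕ) (hN : 1 ≤ N)
    (Y : ℕ) (hY : 1 ≤ Y) (hYN : Y ≤ N) (hχ : ∀ p : ℕ, p.Prime → Y < p → p ≤ N → χ p = -1)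
    (C₁ C₂ : ℝ) (hC₁ : ∀ M : ℕ, 1 ≤ M →
      |∑ p ∈ (Finset.Icc 1 M).filter Nat.Prime, Real.log p / p - Real.log M| ≤ C₁)
    (hC₂ : ∀ M : ℕ, ∑ p ∈ PP M, Real.log p / (p * (p - 1)) ≤ C₂) :
    ∑ n ∈ Icc 1 N, (rr χ n : ℝ) * Real.log n ≤
      2 * (N * L) * (Real.log Y + C₁) + 40 * q * Real.sqrt N * Y + 15 * (N * L) * C₂ +
        390 * q * Real.sqrt N * (Real.log N + C₁) := by
  have hN0 : (0 : ℝ) ≤ N := by positivity
  have hsN : 0 ≤ Real.sqrt N := Real.sqrt_nonneg _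
  have hq : (0 : ℝ) ≤ q := by positivity
  have hNL : 0 ≤ (N : ℝ) * L := mul_nonneg hN0 hL
  have hlog : ∀ p : ℕ, p ∈ PP N → 0 ≤ Real.log p := fun p hp => Real.log_natCast_nonneg p
  have e1 : ∑ n ∈ Icc 1 N, (rr χ n : ℝ) * Real.log n =
      ∑ p ∈ PP N, Real.log p * ((∑ n ∈ Icc 1 N, rr χ n * (n.factorization p : ℤ) : ℤ) : ℝ) := by
    have h1 : ∑ n ∈ Icc 1 N, (rr χ n : ℝ) * Real.log n =
        ∑ n ∈ Icc 1 N, ∑ p ∈ PP N, (rr χ n : ℝ) * ((n.factorization p : ℝ) * Real.log p) := by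
      apply Finset.sum_congr rfl
      intro n hn
      rw [mem_Icc] at hn
      rw [log_eq hn.1 hn.2, Finset.mul_sum]
    rw [h1, Finset.sum_comm]
    apply Finset.sum_congr rfl
    intro p _
    push_cast
    rw [Finset.mul_sum]
    apply Finset.sum_congr rfl
    intro n _
    ring
  rw [e1]
  have e2 : ∀ p ∈ PP N, Real.log p * ((∑ n ∈ Icc 1 N, rr χ n * (n.factorization p : ℤ) : ℤ) : ℝ) ≤
      (if p ≤ Y then 2 * (N * L) * (Real.log p / p) + 20 * q * Real.sqrt N * Real.log p else 0) +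
        15 * (N * L) * (Real.log p / (p * (p - 1))) +
          390 * q * Real.sqrt N * (Real.log p / p) := by
    intro p hp
    have hp' := hp
    rw [mem_filter, mem_Icc] at hp'
    have hp2 : (2 : ℝ) ≤ p := by exact_mod_cast hp'.2.two_le
    have h1 := Vp_bound h hL hS N hN Y hp'.2 (fun hlt => hχ p hp'.2 hlt hp'.1.2)
    have h2 := mul_le_mul_of_nonneg_left h1 (hlog p hp)
    refine h2.trans ?_
    have h3 : Real.log p * (1 / (p : ℝ) ^ 2) ≤ Real.log p / (p * (p - 1)) := by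
      rw [mul_one_div]
      apply div_le_div_of_nonneg_left (hlog p hp) (by nlinarith) (by nlinarith)
    have h4 := mul_le_mul_of_nonneg_left h3 (by positivity : (0 : ℝ) ≤ 15 * (N * L))
    split_ifs
    · have : Real.log p * (2 * (N * L) * (1 / p) + 20 * q * Real.sqrt N +
          15 * (N * L) * (1 / (p : ℝ) ^ 2) + 390 * q * Real.sqrt N * (1 / p)) =
          2 * (N * L) * (Real.log p / p) + 20 * q * Real.sqrt N * Real.log p +
          15 * (N * L) * (Real.log p * (1 / (p : ℝ) ^ 2)) +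
          390 * q * Real.sqrt N * (Real.log p / p) := by ring
      rw [this]
      linarith
    · have : Real.log p * (0 + 15 * (N * L) * (1 / (p : ℝ) ^ 2) +
          390 * q * Real.sqrt N * (1 / p)) =
          0 + 15 * (N * L) * (Real.log p * (1 / (p : ℝ) ^ 2)) +
          390 * q * Real.sqrt N * (Real.log p / p) := by ring
      rw [this]
      linarith
  refine (Finset.sum_le_sum e2).trans ?_
  rw [Finset.sum_add_distrib, Finset.sum_add_distrib, ← Finset.sum_filter, ← Finset.mul_sum,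
    ← Finset.mul_sum]
  have e3 : (PP N).filter (fun p => p ≤ Y) = PP Y := by
    ext p
    simp only [mem_filter, mem_Icc]
    constructor
    · rintro ⟨⟨⟨h1, h2⟩, h3⟩, h4⟩; exact ⟨⟨h1, h4⟩, h3⟩
    · rintro ⟨⟨h1, h2⟩, h3⟩; exact ⟨⟨⟨h1, h2.trans hYN⟩, h3⟩, h2⟩
  rw [e3, Finset.sum_add_distrib, ← Finset.mul_sum, ← Finset.mul_sum]
  have f1 : ∑ p ∈ PP Y, Real.log p / p ≤ Real.log Y + C₁ := by
    have := (abs_le.mp (hC₁ Y hY)).2
    linarith
  have f2 : ∑ p ∈ PP N, Real.log p / p ≤ Real.log N + C₁ := by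
    have := (abs_le.mp (hC₁ N hN)).2
    linarith
  have f3 := Pool.Agent.Helper112.LP.KML.theta_le Y
  have g1 := mul_le_mul_of_nonneg_left f1 (by positivity : (0 : ℝ) ≤ 2 * (N * L))
  have g2 := mul_le_mul_of_nonneg_left f2 (by positivity : (0 : ℝ) ≤ 390 * q * Real.sqrt N)
  have g3 := mul_le_mul_of_nonneg_left f3 (by positivity : (0 : ℝ) ≤ 20 * q * Real.sqrt N)
  have g4 := mul_le_mul_of_nonneg_left (hC₂ N) (by positivity : (0 : ℝ) ≤ 15 * (N * L))
  linarith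

theorem Tlow (h : RC q χ) (hL : 0 ≤ L) (hS : ∀ x : ℝ, 1 ≤ x →
    |((∑ n ∈ Icc 1 ⌊x⌋₊, rr χ n : ℤ) : ℝ) - x * L| ≤ 10 * q * Real.sqrt x) (R : ℕ) (hR : 2 ≤ R) :
    Real.log R * ((R : ℝ) ^ 2 * L / 2 - 20 * q * R) ≤
      ∑ n ∈ Icc 1 (R ^ 2), (rr χ n : ℝ) * Real.log n := by
  have hR2 : (2 : ℝ) ≤ R := by exact_mod_cast hR
  have hR0 : (0 : ℝ) ≤ R := by linarith
  have hq : (0 : ℝ) ≤ q := by positivity
  have hlog : 0 ≤ Real.log R := Real.log_natCast_nonneg R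
  have hRR : R ≤ R ^ 2 := by nlinarith
  -- split
  have h1 : ∑ n ∈ Icc (R + 1) (R ^ 2), (rr χ n : ℝ) * Real.log R ≤
      ∑ n ∈ Icc 1 (R ^ 2), (rr χ n : ℝ) * Real.log n := by
    have h2 : ∑ n ∈ Icc (R + 1) (R ^ 2), (rr χ n : ℝ) * Real.log R ≤
        ∑ n ∈ Icc (R + 1) (R ^ 2), (rr χ n : ℝ) * Real.log n := by
      apply Finset.sum_le_sum
      intro n hn
      rw [mem_Icc] at hn
      apply mul_le_mul_of_nonneg_left _ (by exact_mod_cast rr_nonneg h n)
      apply Real.log_le_log (by linarith)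
      exact_mod_cast (by omega : R ≤ n)
    refine h2.trans ?_
    apply Finset.sum_le_sum_of_subset_of_nonneg
    · intro n hn
      rw [mem_Icc] at hn ⊢
      omega
    · intro n _ _
      exact mul_nonneg (by exact_mod_cast rr_nonneg h n) (Real.log_natCast_nonneg n)
  have h3 : ∑ n ∈ Icc (R + 1) (R ^ 2), (rr χ n : ℝ) * Real.log R =
      Real.log R * ((Sn χ (R ^ 2) : ℝ) - Sn χ R) := by
    rw [← Finset.sum_mul, mul_comm]
    congr 1
    have h4 : Sn χ (R ^ 2) = Sn χ R + ∑ n ∈ Icc (R + 1) (R ^ 2), rr χ n := by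
      unfold Sn
      rw [← Finset.sum_union]
      · apply Finset.sum_congr _ fun _ _ => rfl
        ext n
        simp only [mem_union, mem_Icc]
        omega
      · rw [Finset.disjoint_left]
        intro n hn hn2
        rw [mem_Icc] at hn hn2
        omega
    rw [h4]
    push_cast
    ring
  refine le_trans ?_ (h3 ▸ h1)
  apply mul_le_mul_of_nonneg_left _ hlog
  have h5 := hS ((R : ℝ) ^ 2) (by nlinarith)
  have h6 : ⌊(R : ℝ) ^ 2⌋₊ = R ^ 2 := by
    have : (R : ℝ) ^ 2 = ((R ^ 2 : ℕ) : ℝ) := by push_cast; ring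
    rw [this, Nat.floor_natCast]
  rw [h6, Real.sqrt_sq hR0] at h5
  have h7 := hS (R : ℝ) (by linarith)
  rw [Nat.floor_natCast] at h7
  have h8 : Real.sqrt R ≤ R := by
    rw [Real.sqrt_le_left hR0]
    nlinarith
  have h9 := (abs_le.mp h5).1
  have h10 := (abs_le.mp h7).2
  have h11 : (10 : ℝ) * q * Real.sqrt R ≤ 10 * q * R := mul_le_mul_of_nonneg_left h8 (by positivity)
  have h12 : (R : ℝ) * L ≤ (R : ℝ) ^ 2 * L / 2 := by nlinarith [mul_nonneg hR0 hL]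
  have h13 : (Sn χ (R ^ 2) : ℝ) = ((∑ n ∈ Icc 1 (R ^ 2), rr χ n : ℤ) : ℝ) := rfl
  have h14 : (Sn χ R : ℝ) = ((∑ n ∈ Icc 1 R, rr χ n : ℤ) : ℝ) := rfl
  rw [h13, h14]
  linarith

end analysis

theorem num {A K K₂ C₁ C₂ c ℓ y r q L : ℝ} (hc : 0 < c) (hC₁ : 0 < C₁) (hC₂ : 0 ≤ C₂)
    (hK : K = 2 * C₁ + 15 * C₂) (hK₂ : K₂ = 80040 + 390 * C₁) (hy : 2 ≤ y) (hr : r = y ^ 100)
    (hq : 0 < q) (hqy : q ≤ y) (hℓ : K + 1 ≤ ℓ) (hℓy : ℓ ≤ y) (hyc : K₂ < y * c)
    (hL : c / q ^ 2 ≤ L) (hA : A = r ^ 2 * L)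
    (h : 100 * ℓ * (A / 2 - 20 * q * r) ≤ 2 * A * (ℓ + C₁) + 40 * q * r * y + 15 * A * C₂ +
      390 * q * r * (200 * ℓ + C₁)) : False := by
  have hy0 : 0 < y := by linarith
  have hr0 : 0 < r := by rw [hr]; positivity
  have hL0 : 0 < L := lt_of_lt_of_le (by positivity) hL
  have hA0 : 0 < A := by rw [hA]; positivity
  have hqr : 0 < q * r := mul_pos hq hr0
  have hK0 : 0 ≤ K := by rw [hK]; positivity
  have h1 : (48 * ℓ - K) * A ≤ q * r * (80000 * ℓ + 40 * y + 390 * C₁) := by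
    rw [hK]; nlinarith
  have h2 : 80000 * ℓ + 40 * y + 390 * C₁ ≤ y * K₂ := by
    rw [hK₂]
    have : 390 * C₁ ≤ y * (390 * C₁) := by nlinarith
    nlinarith
  have h3 : A ≤ (48 * ℓ - K) * A := by
    have : 1 ≤ 48 * ℓ - K := by linarith
    nlinarith
  have hK₂0 : 0 < K₂ := by rw [hK₂]; positivity
  have h4 : A ≤ y ^ 2 * r * K₂ := by
    have h5 : q * r * (80000 * ℓ + 40 * y + 390 * C₁) ≤ q * r * (y * K₂) :=
      mul_le_mul_of_nonneg_left h2 hqr.le
    have h6 : q * r * (y * K₂) ≤ y * r * (y * K₂) := by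
      apply mul_le_mul_of_nonneg_right _ (by positivity)
      exact mul_le_mul_of_nonneg_right hqy hr0.le
    calc A ≤ _ := h3
      _ ≤ _ := h1
      _ ≤ _ := h5
      _ ≤ _ := h6
      _ = y ^ 2 * r * K₂ := by ring
  have h7 : c ≤ y ^ 2 * L := by
    rw [div_le_iff₀ (by positivity)] at hL
    have h8 : q ^ 2 ≤ y ^ 2 := pow_le_pow_left₀ hq.le hqy 2
    calc c ≤ L * q ^ 2 := hL
      _ ≤ L * y ^ 2 := mul_le_mul_of_nonneg_left h8 hL0.le
      _ = y ^ 2 * L := by ring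
  have h9 : r * (r * c) ≤ r * (y ^ 4 * K₂) := by
    calc r * (r * c) = r ^ 2 * c := by ring
      _ ≤ r ^ 2 * (y ^ 2 * L) := mul_le_mul_of_nonneg_left h7 (by positivity)
      _ = y ^ 2 * A := by rw [hA]; ring
      _ ≤ y ^ 2 * (y ^ 2 * r * K₂) := mul_le_mul_of_nonneg_left h4 (by positivity)
      _ = r * (y ^ 4 * K₂) := by ring
  have h10 : r * c ≤ y ^ 4 * K₂ := le_of_mul_le_mul_left h9 hr0
  have h11 : y ^ 5 ≤ r := by
    rw [hr]; exact pow_le_pow_right₀ (by linarith) (by norm_num)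
  have h12 : y ^ 4 * (y * c) ≤ y ^ 4 * K₂ := by
    calc y ^ 4 * (y * c) = y ^ 5 * c := by ring
      _ ≤ r * c := mul_le_mul_of_nonneg_right h11 hc.le
      _ ≤ _ := h10
  have h13 : y * c ≤ K₂ := le_of_mul_le_mul_left h12 (by positivity)
  linarith

end EXX

open EXX in
/-- EX -/
theorem t_EX (h : EA) : EX := by
  obtain ⟨c, hc, hEA⟩ := h
  obtain ⟨C₁, hC₁0, hC₁⟩ := Pool.Agent.Helper112.LP.mertens_log
  obtain ⟨C₂, hC₂0, hC₂⟩ := Pool.Agent.Helper112.LP.KML.sum_small_bound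
  refine ⟨⌈Real.exp (2 * C₁ + 15 * C₂ + 1)⌉₊ + (⌊(80040 + 390 * C₁) / c⌋₊ + 1) + 2, ?_⟩
  intro q χ hq hRC Y hY hqY
  have hY2 : 2 ≤ Y := by omega
  by_cases hneg : ∃ n, χ n = -1
  · by_contra hcon
    push Not at hcon
    obtain ⟨L, hL, hS⟩ := hEA q χ hq hRC hneg
    have hq0 : (0 : ℝ) < q := by exact_mod_cast hq
    have hL0 : 0 ≤ L := le_trans (by positivity) hL
    have hY2' : (2 : ℝ) ≤ Y := by exact_mod_cast hY2
    have hR2 : 2 ≤ Y ^ 100 := by
      calc 2 ≤ Y := hY2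
        _ = Y ^ 1 := (pow_one Y).symm
        _ ≤ Y ^ 100 := Nat.pow_le_pow_right (by omega) (by norm_num)
    have hχ : ∀ p : ℕ, p.Prime → Y < p → p ≤ (Y ^ 100) ^ 2 → χ p = -1 := by
      intro p hp hYp hpN
      have hcop : Nat.Coprime p q :=
        (hp.coprime_iff_not_dvd).mpr fun hd => by have := Nat.le_of_dvd hq hd; omega
      rcases hRC.2.2.1 p hcop with h1 | h1
      · exact absurd h1 (hcon p hp hYp (by rw [← pow_mul] at hpN; exact hpN))
      · exact h1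
    have hYN : Y ≤ (Y ^ 100) ^ 2 := by
      rw [← pow_mul]
      calc Y = Y ^ 1 := (pow_one Y).symm
        _ ≤ Y ^ (100 * 2) := Nat.pow_le_pow_right (by omega) (by norm_num)
    have hlow := Tlow hRC hL0 hS (Y ^ 100) hR2
    have hup := Tup hRC hL0 hS ((Y ^ 100) ^ 2) (by omega) Y (by omega) hYN hχ C₁ C₂ hC₁ hC₂
    have hfin := hlow.trans hup
    push_cast at hfin
    have hs : Real.sqrt (((Y : ℝ) ^ 100) ^ 2) = (Y : ℝ) ^ 100 := Real.sqrt_sq (by positivity)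
    have hl1 : Real.log ((Y : ℝ) ^ 100) = 100 * Real.log Y := by rw [Real.log_pow]; norm_num
    have hl2 : Real.log (((Y : ℝ) ^ 100) ^ 2) = 200 * Real.log Y := by
      rw [Real.log_pow, hl1]; push_cast; ring
    rw [hs, hl1, hl2] at hfin
    have hYbig : Real.exp (2 * C₁ + 15 * C₂ + 1) ≤ Y := by
      refine (Nat.le_ceil _).trans ?_
      exact_mod_cast (by omega : ⌈Real.exp (2 * C₁ + 15 * C₂ + 1)⌉₊ ≤ Y)
    have hYbig2 : (80040 + 390 * C₁) / c < Y := by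
      refine (Nat.lt_floor_add_one _).trans_le ?_
      exact_mod_cast (by omega : ⌊(80040 + 390 * C₁) / c⌋₊ + 1 ≤ Y)
    refine num (A := ((Y : ℝ) ^ 100) ^ 2 * L) (K := 2 * C₁ + 15 * C₂) (K₂ := 80040 + 390 * C₁)
      (C₁ := C₁) (C₂ := C₂) (c := c) (ℓ := Real.log Y) (y := Y) (r := (Y : ℝ) ^ 100) (q := q)
      (L := L) hc hC₁0 hC₂0 rfl rfl hY2' rfl hq0 (by exact_mod_cast hqY) ?_ ?_ ?_ hL rfl ?_
    · rw [Real.le_log_iff_exp_le (by linarith)]
      exact hYbig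
    · have := Real.log_le_sub_one_of_pos (by linarith : (0 : ℝ) < Y)
      linarith
    · rwa [div_lt_iff₀ hc] at hYbig2
    · refine hfin.trans (le_of_eq ?_)
      ring
  · push Not at hneg
    obtain ⟨p, hp, hYp, hp2⟩ := Nat.exists_prime_lt_and_le_two_mul Y (by omega)
    refine ⟨p, hp, hYp, ?_, ?_⟩
    · calc p ≤ 2 * Y := hp2
        _ ≤ Y * Y := Nat.mul_le_mul_right _ hY2
        _ = Y ^ 2 := (pow_two Y).symm
        _ ≤ Y ^ 200 := Nat.pow_le_pow_right (by omega) (by norm_num)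
    · have hcop : Nat.Coprime p q :=
        (hp.coprime_iff_not_dvd).mpr fun hd => by have := Nat.le_of_dvd hq hd; omega
      rcases hRC.2.2.1 p hcop with h1 | h1
      · exact h1
      · exact absurd h1 (hneg p)

end Pool.Agent.H661R3.UP
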