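import Pool.Agent.H661R3.UP.Defs

/-! helper70, for the project of helper661: the uniform k-tuplets statement with parity. -/

set_option autoImplicit false

open Finset

namespace Pool.Agent.H661R3.UP

open Pool.Agent.H661R3.OP (Rough Add2 SV CR)

namespace KTaux

/-- distinct members of an admissible family are not proportional -/
theorem det_ne {ι : Type} (a b : ι → ℤ) (ha : ∀ i, 0 < a i)
    (hinj : Function.Injective fun i => (a i, b i))
    (hadm : ∀ p : ℕ, p.Prime → ∃ n : ℤ, ∀ i, ¬ (p : ℤ) ∣ a i * n + b i) :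
    ∀ i j, i ≠ j → a i * b j - a j * b i ≠ 0 := by
  have hcop : ∀ i, IsCoprime (a i) (b i) := by
    intro i
    rw [Int.isCoprime_iff_gcd_eq_one]
    by_contra h
    obtain ⟨p, hp, hpd⟩ := Nat.exists_prime_and_dvd h
    obtain ⟨n, hn⟩ := hadm p hp
    have h1 : (p : ℤ) ∣ a i := (Int.natCast_dvd_natCast.2 hpd).trans (Int.gcd_dvd_left _ _)
    have h2 : (p : ℤ) ∣ b i := (Int.natCast_dvd_natCast.2 hpd).trans (Int.gcd_dvd_right _ _)
    exact hn i (dvd_add (h1.mul_right n) h2)
  intro i j hij h0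
  have h : a i * b j = a j * b i := by linarith
  have h1 : a i ∣ a j := (hcop i).dvd_of_dvd_mul_right (Dvd.intro _ h)
  have h2 : a j ∣ a i := (hcop j).dvd_of_dvd_mul_right (Dvd.intro _ h.symm)
  have h3 : a i = a j := Int.dvd_antisymm (ha i).le (ha j).le h1 h2
  have h4 : b i = b j := by
    rw [h3] at h
    exact (mul_left_cancel₀ (ha j).ne' h).symm
  exact hij (hinj (by simp [h3, h4]))

/-- number of prime factors of a rough number -/
theorem card_le (m Y C : ℕ) (hm : 0 < m) (hY : 1 ≤ Y) (hmY : m ≤ Y ^ C)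
    (h : ∀ p : ℕ, p.Prime → p ∣ m → Y < p) : ArithmeticFunction.cardFactors m ≤ C := by
  have key : (Y + 1) ^ (ArithmeticFunction.cardFactors m) ≤ m := by
    have hprod : m.primeFactorsList.prod = m := Nat.prod_primeFactorsList hm.ne'
    rw [ArithmeticFunction.cardFactors_apply]
    nth_rewrite 2 [← hprod]
    have hall : ∀ p ∈ m.primeFactorsList, Y + 1 ≤ p := by
      intro p hp
      exact h p (Nat.prime_of_mem_primeFactorsList hp) (Nat.dvd_of_mem_primeFactorsList hp)
    generalize m.primeFactorsList = l at hall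
    induction l with
    | nil => simp
    | cons p l ih =>
      rw [List.length_cons, pow_succ, List.prod_cons, mul_comm]
      exact Nat.mul_le_mul (hall p List.mem_cons_self)
        (ih (fun q hq => hall q (List.mem_cons_of_mem _ hq)))
  by_contra hlt
  push Not at hlt
  have h1 : (Y + 1) ^ C < (Y + 1) ^ (ArithmeticFunction.cardFactors m) :=
    Nat.pow_lt_pow_right (by omega) hlt
  have h2 : Y ^ C ≤ (Y + 1) ^ C := Nat.pow_le_pow_left (by omega) C
  omega

end KTaux

theorem t_KT (hM : UM) (hU : USU) : KT := by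
  intro k
  obtain ⟨C, Y₀, hC⟩ := hM k
  refine ⟨10 * (k + 1) * C, C + 2, (((Y₀ + 1) * 16 ^ (10 * (k + 1)) : ℕ) : ℝ) ^ C, by positivity, ?_⟩
  intro a b hab hinj hadm S hS s
  set Q : ℕ := ∏ i, a i with hQ
  have ha2 : ∀ i, 2 ≤ a i := fun i => by have := hab i; omega
  have hQ0 : 0 < Q := Finset.prod_pos fun i _ => by have := ha2 i; omega
  have haQ : ∀ i, a i ≤ Q := fun i =>
    Nat.le_of_dvd hQ0 (Finset.dvd_prod_of_mem a (Finset.mem_univ i))
  have hdet := KTaux.det_ne (fun i => (a i : ℤ)) (fun i => (b i : ℤ))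
    (fun i => by have := ha2 i; positivity)
    (by
      intro i j hij
      simp only [Prod.mk.injEq, Nat.cast_inj] at hij
      exact hinj (by simp [hij.1, hij.2])) hadm
  obtain ⟨D, hDa, hDb, hDS, hDQ⟩ := hU (Fin k) (fun i => (a i : ℤ)) (fun i => (b i : ℤ)) S Q
    (fun i => by have := ha2 i; positivity) (fun i => by have := (hab i).1; positivity)
    (fun i => by exact_mod_cast haQ i)
    (fun i => by have := haQ i; have := (hab i).2; simp only [Nat.cast_le]; omega) hdet hS hadm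
  have hDk : D.k = k := by simp [US.k]
  set F : ℤ → ZMod 2 := fun x => ((ArithmeticFunction.cardFactors x.natAbs : ℕ) : ZMod 2) with hF
  have hFadd : Add2 F := by
    intro x y hx hy
    simp only [hF]
    rw [Int.natAbs_mul, ArithmeticFunction.cardFactors_mul (Int.natAbs_ne_zero.mpr hx)
      (Int.natAbs_ne_zero.mpr hy)]
    push_cast
    rfl
  have hFp : ∀ p : ℕ, p.Prime → F p ≠ 0 := by
    intro p hp
    simp only [hF, Int.natAbs_natCast]
    rw [ArithmeticFunction.cardFactors_apply_prime hp]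
    simp
  set Y : ℕ := Y₀ + (16 * Q) ^ (10 * (k + 1)) with hY
  have hbig : D.Big Y := by
    show (16 * D.Q) ^ (10 * (D.k + 1)) ≤ Y
    rw [hDQ, hDk]
    omega
  have h16 : 16 * Q ≤ (16 * Q) ^ (10 * (k + 1)) :=
    Nat.le_self_pow (by omega) _
  have hYQ : 16 * Q ≤ Y := by omega
  have hY1 : 1 ≤ Y := by omega
  obtain ⟨n, hn0, hnY, hrough, hsum⟩ := hC (Fin k) D hDk F hFadd hFp s Y (by omega) hbig
  have hnn : ((n.toNat : ℕ) : ℤ) = n := Int.toNat_of_nonneg hn0.le
  have hnle : n.toNat ≤ Y ^ C := by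
    have : ((n.toNat : ℕ) : ℤ) ≤ ((Y ^ C : ℕ) : ℤ) := by rw [hnn]; exact_mod_cast hnY
    exact_mod_cast this
  have hL : ∀ i, D.L i n 1 = ((a i * n.toNat + b i : ℕ) : ℤ) := by
    intro i
    simp only [US.L, hDa, hDb]
    push_cast
    rw [hnn]
    ring
  have hpr : ∀ i, ∀ p : ℕ, p.Prime → p ∣ a i * n.toNat + b i → Y < p := by
    intro i p hp hpd
    by_contra hle
    push Not at hle
    apply hrough i p hp hle
    rw [hL i]
    exact_mod_cast hpd
  refine ⟨n.toNat, ?_, ?_, ?_⟩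
  · -- size of n
    have h1 : Y ≤ (Y₀ + 1) * 16 ^ (10 * (k + 1)) * Q ^ (10 * (k + 1)) := by
      have h3 : 1 ≤ (16 * Q) ^ (10 * (k + 1)) := Nat.one_le_pow _ _ (by omega)
      have h4 : (16 * Q) ^ (10 * (k + 1)) = 16 ^ (10 * (k + 1)) * Q ^ (10 * (k + 1)) :=
        mul_pow _ _ _
      rw [mul_assoc, ← h4, hY]
      nlinarith
    have h2 : n.toNat ≤ ((Y₀ + 1) * 16 ^ (10 * (k + 1)) * Q ^ (10 * (k + 1))) ^ C :=
      hnle.trans (Nat.pow_le_pow_left h1 C)
    have h5 : ((Y₀ + 1) * 16 ^ (10 * (k + 1)) * Q ^ (10 * (k + 1))) ^ C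
        = ((Y₀ + 1) * 16 ^ (10 * (k + 1))) ^ C * Q ^ (10 * (k + 1) * C) := by
      rw [mul_pow _ (Q ^ _), ← pow_mul]
    rw [h5] at h2
    exact_mod_cast h2
  · intro i
    refine ⟨?_, fun p hp hpd => ?_⟩
    · apply KTaux.card_le _ Y (C + 2) (by have := (hab i).1; omega) hY1 _ (hpr i)
      have h1 : a i * n.toNat + b i ≤ Q * Y ^ C + Q := by
        have h2 : a i * n.toNat ≤ Q * Y ^ C := Nat.mul_le_mul (haQ i) hnle
        have := haQ i
        have := (hab i).2
        omega
      have h3 : 1 ≤ Y ^ C := Nat.one_le_pow _ _ hY1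
      have h4 : Q ≤ Y := by omega
      have h5 : Q * Y ^ C ≤ Y * Y ^ C := Nat.mul_le_mul_right _ h4
      have h6 : Q * Y ^ C + Q ≤ 2 * (Q * Y ^ C) := by nlinarith
      have h7 : 2 * (Q * Y ^ C) ≤ Y * Y ^ C := by
        have : 2 * Q ≤ Y := by omega
        calc 2 * (Q * Y ^ C) = (2 * Q) * Y ^ C := by ring
          _ ≤ Y * Y ^ C := Nat.mul_le_mul_right _ this
      have h8 : Y * Y ^ C ≤ Y ^ (C + 2) := by
        calc Y * Y ^ C = 1 * (Y ^ C * Y) := by ring
          _ ≤ Y * (Y ^ C * Y) := Nat.mul_le_mul_right _ hY1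
          _ = Y ^ (C + 2) := by ring
      omega
    · have := hpr i p hp hpd
      omega
  · have h1 : D.R F n 1 = s := hsum
    rw [← h1]
    simp only [US.R, hDS]
    push_cast
    refine Finset.sum_congr rfl fun i _ => ?_
    simp only [hF, hL i, Int.natAbs_natCast]

end Pool.Agent.H661R3.UP
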