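import Pool.Agent.H661R3.UP.Defs

set_option autoImplicit false

open Finset

namespace Pool.Agent.H661R3.UP

open Pool.Agent.H661R3.OP (Rough Add2 SV CR)

theorem uch_cop {Y q : ℕ} (hq : 0 < q) (hqY : q ≤ Y) {x : ℤ} (hx : Rough Y x) :
    IsCoprime x (q : ℤ) := by
  rw [Int.isCoprime_iff_gcd_eq_one]
  by_contra h
  obtain ⟨p, hp, hpd⟩ := Nat.exists_prime_and_dvd h
  have h1 : (p : ℤ) ∣ x :=
    (Int.natCast_dvd_natCast.mpr hpd).trans (Int.gcd_dvd_left x (q : ℤ))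
  have h2 : (p : ℤ) ∣ (q : ℤ) :=
    (Int.natCast_dvd_natCast.mpr hpd).trans (Int.gcd_dvd_right x (q : ℤ))
  have h3 : p ≤ q := Nat.le_of_dvd hq (Int.natCast_dvd_natCast.mp h2)
  exact hx p hp (h3.trans hqY) h1

theorem uch_rough_mul {Y : ℕ} {x y : ℤ} (hx : Rough Y x) (hy : Rough Y y) : Rough Y (x * y) := by
  intro p hp hpY hd
  rcases (Nat.prime_iff_prime_int.mp hp).dvd_or_dvd hd with h | h
  · exact hx p hp hpY h
  · exact hy p hp hpY h

theorem uch_lift (hSV : SV) : ∃ Cs : ℕ, ∀ (Y q : ℕ), 2 ≤ Y → 0 < q → q ≤ Y → 2 ∣ q →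
    ∀ (e : ℕ) (r₁ r₂ a : ℤ), 0 < r₁ → 0 < r₂ → r₁ ≤ (Y : ℤ) ^ e → r₂ ≤ (Y : ℤ) ^ e →
      Rough Y r₁ → Rough Y r₂ → IsCoprime a (q : ℤ) →
      ∃ r : ℤ, 0 < r ∧ r ≤ (Y : ℤ) ^ (2 * e + Cs + 2) ∧ Rough Y r ∧ (q : ℤ) ∣ r - a ∧
        IsCoprime r r₁ ∧ IsCoprime r r₂ := by
  obtain ⟨Cs, hs⟩ := hSV 1
  refine ⟨Cs, ?_⟩
  intro Y q hY hq hqY h2q e r₁ r₂ a h1 h2 h1e h2e hr1 hr2 ha
  have hqZ : (0 : ℤ) < q := by exact_mod_cast hq
  have hRpos : 0 < r₁ * r₂ := mul_pos h1 h2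
  have hRr : Rough Y (r₁ * r₂) := uch_rough_mul hr1 hr2
  obtain ⟨v, u, huv⟩ := uch_cop hq hqY hRr
  -- huv : v * (r₁ * r₂) + u * q = 1
  set R : ℤ := r₁ * r₂ with hR
  set m : ℤ := q * R with hm
  have hmpos : 0 < m := mul_pos hqZ hRpos
  set b0 : ℤ := a * v * R + u * q with hb0
  set b : ℤ := b0 % m with hb
  have hb_nonneg : 0 ≤ b := Int.emod_nonneg _ hmpos.ne'
  have hb_lt : b < m := Int.emod_lt_of_pos _ hmpos
  have hbm : m ∣ b0 - b := by
    rw [hb]; exact Int.dvd_self_sub_emod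
  have hqb0 : (q : ℤ) ∣ b0 - a := ⟨u - a * u, by rw [hb0]; linear_combination a * huv⟩
  have hRb0 : R ∣ b0 - 1 := ⟨a * v - v, by rw [hb0]; linear_combination huv⟩
  have hqb : (q : ℤ) ∣ b - a := by
    have h3 : (q : ℤ) ∣ b0 - b := (Dvd.intro _ hm.symm).trans hbm
    have h4 : b - a = (b0 - a) - (b0 - b) := by ring
    rw [h4]; exact dvd_sub hqb0 h3
  have hRb : R ∣ b - 1 := by
    have h3 : R ∣ b0 - b := (Dvd.intro_left _ hm.symm).trans hbm
    have h4 : b - 1 = (b0 - 1) - (b0 - b) := by ring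
    rw [h4]; exact dvd_sub hRb0 h3
  have key := hs Unit (by simp) (fun _ => m) (fun _ => b) Y hY
    (by
      intro _ p hp hpY hpm hpb
      have hpp := Nat.prime_iff_prime_int.mp hp
      have hpq : (p : ℤ) ∣ q := by
        rcases hpp.dvd_or_dvd hpm with h | h
        · exact h
        · exact absurd h (hRr p hp hpY)
      have hpa : (p : ℤ) ∣ a := by
        have h5 : a = b - (b - a) := by ring
        rw [h5]; exact dvd_sub hpb (hpq.trans hqb)
      exact hpp.not_isUnit (ha.isUnit_of_dvd' hpa hpq))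
    (by
      intro _ p hp hp2
      have : p = 2 := le_antisymm (by simpa using hp2) hp.two_le
      subst this
      exact (Int.natCast_dvd_natCast.mpr h2q).trans (Dvd.intro _ hm.symm))
    1 (Y ^ Cs) le_rfl
  have hne : ({t : ℤ | 1 ≤ t ∧ t < 1 + ((Y ^ Cs : ℕ) : ℤ) ∧ ∀ _ : Unit, Rough Y (m * t + b)}).ncard
      ≠ 0 := by
    intro h0
    rw [h0, Nat.mul_zero] at key
    have : 0 < Y ^ Cs := pow_pos (by omega) _
    omega
  obtain ⟨t, ht1, ht2, ht3⟩ := Set.nonempty_of_ncard_ne_zero hne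
  have hYZ : (2 : ℤ) ≤ Y := by exact_mod_cast hY
  have hYpos : (0 : ℤ) < Y := by linarith
  refine ⟨m * t + b, ?_, ?_, ht3 (), ?_, ?_, ?_⟩
  · have : 0 < m * t := mul_pos hmpos (by omega)
    omega
  · have ht4 : t + 1 ≤ (Y : ℤ) ^ (Cs + 1) := by
      push_cast at ht2
      have h6 : (1 : ℤ) ≤ (Y : ℤ) ^ Cs := one_le_pow₀ (by linarith)
      have h7 : (Y : ℤ) ^ (Cs + 1) = (Y : ℤ) ^ Cs * Y := pow_succ _ _
      nlinarith
    have hm2 : m ≤ (Y : ℤ) * ((Y : ℤ) ^ e * (Y : ℤ) ^ e) := by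
      rw [hm, hR]
      have hqY' : (q : ℤ) ≤ Y := by exact_mod_cast hqY
      apply mul_le_mul hqY' _ hRpos.le hYpos.le
      exact mul_le_mul h1e h2e h2.le (by positivity)
    calc m * t + b ≤ m * t + m := by linarith
      _ = m * (t + 1) := by ring
      _ ≤ ((Y : ℤ) * ((Y : ℤ) ^ e * (Y : ℤ) ^ e)) * (Y : ℤ) ^ (Cs + 1) := by
          apply mul_le_mul hm2 ht4 (by omega) (by positivity)
      _ = (Y : ℤ) ^ (2 * e + Cs + 2) := by ring
  · have h8 : m * t + b - a = m * t + (b - a) := by ring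
    rw [h8]
    exact dvd_add ((Dvd.intro _ hm.symm).mul_right t) hqb
  · obtain ⟨s, hs'⟩ := hRb
    refine ⟨1, -(q * r₂ * t + r₂ * s), ?_⟩
    have : b = 1 + R * s := by linarith
    rw [this, hm, hR]; ring
  · obtain ⟨s, hs'⟩ := hRb
    refine ⟨1, -(q * r₁ * t + r₁ * s), ?_⟩
    have : b = 1 + R * s := by linarith
    rw [this, hm, hR]; ring

/-- UCH -/
theorem t_UCH (hSV : SV) (hP : UPT) (hU : UNI) : UCH := by
  classical
  obtain ⟨Cs, hlift⟩ := uch_lift hSV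
  intro k C₁
  obtain ⟨C, Y₁, hC⟩ := hU k (2 * (C₁ + 2 * (Cs + 2)) + Cs + 2)
  refine ⟨C, max (max Y₁ 2) ((2 ^ k * primorial (KK k)) ^ 2), ?_⟩
  intro ι _ _ D hk F hF c Y Z hY hB hZ hCst
  have hY1 : Y₁ ≤ Y := le_trans (le_trans (le_max_left _ _) (le_max_left _ _)) hY
  have hY2 : 2 ≤ Y := le_trans (le_trans (le_max_right _ _) (le_max_left _ _)) hY
  have hY3 : (2 ^ k * primorial (KK k)) ^ 2 ≤ Y := le_trans (le_max_right _ _) hY
  have hW : D.W = primorial (KK k) := by rw [US.W, hk]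
  obtain ⟨⟨hPpos, hPle⟩, -, -⟩ := hP ι D
  set B : ℕ := C₁ + 2 * (Cs + 2) with hBdef
  -- the modulus
  obtain ⟨P, hPn⟩ : ∃ P : ℕ, (P : ℤ) = D.P := ⟨D.P.toNat, Int.toNat_of_nonneg hPpos.le⟩
  have hPpos' : 0 < P := by
    have : (0 : ℤ) < P := by rw [hPn]; exact hPpos
    exact_mod_cast this
  have hWpos : 0 < D.W := by rw [hW]; exact primorial_pos _
  have hQ1 : 1 ≤ D.Q := by
    have h1 := D.ha D.o
    have h2 := D.haQ D.o
    have : (1 : ℤ) ≤ D.Q := by linarith [Int.add_one_le_iff.mpr h1]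
    exact_mod_cast this
  have hPle' : P ≤ (2 * D.Q ^ 2) ^ k := by
    have : (P : ℤ) ≤ ((2 * D.Q ^ 2) ^ k : ℕ) := by
      rw [hPn, ← hk]; push_cast; exact hPle
    exact_mod_cast this
  have hPY : P ^ 2 ≤ Y := by
    have hB' : (16 * D.Q) ^ (10 * (k + 1)) ≤ Y := by
      have := hB
      unfold US.Big at this
      rwa [hk] at this
    calc P ^ 2 ≤ ((2 * D.Q ^ 2) ^ k) ^ 2 := Nat.pow_le_pow_left hPle' 2
      _ = (2 * D.Q ^ 2) ^ (2 * k) := by rw [← pow_mul, mul_comm k 2]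
      _ ≤ ((16 * D.Q) ^ 2) ^ (2 * k) := by
          apply Nat.pow_le_pow_left
          nlinarith
      _ = (16 * D.Q) ^ (4 * k) := by rw [← pow_mul]; ring_nf
      _ ≤ (16 * D.Q) ^ (10 * (k + 1)) := Nat.pow_le_pow_right (by omega) (by omega)
      _ ≤ Y := hB'
  obtain ⟨q, hq⟩ : ∃ q : ℕ, q = 2 ^ k * P * D.W := ⟨_, rfl⟩
  have hqpos : 0 < q := by rw [hq]; positivity
  have hqY : q ≤ Y := by
    have h1 : q ^ 2 ≤ Y ^ 2 := by
      calc q ^ 2 = (2 ^ k * primorial (KK k)) ^ 2 * P ^ 2 := by rw [hq, hW]; ring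
        _ ≤ Y * Y := Nat.mul_le_mul hY3 hPY
        _ = Y ^ 2 := by ring
    exact (Nat.pow_le_pow_iff_left (by norm_num)).mp h1
  have h2q : 2 ∣ q := by
    have h2W : 2 ∣ D.W := by
      rw [hW, primorial]
      apply Finset.dvd_prod_of_mem (fun p => p)
      simp only [Finset.mem_filter, Finset.mem_range]
      refine ⟨?_, Nat.prime_two⟩
      unfold KK
      have : 1 ≤ (k + 1) ^ 2 * 16 ^ k := Nat.one_le_iff_ne_zero.mpr (by positivity)
      nlinarith
    rw [hq]; exact h2W.mul_left _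
  have hqZ : (q : ℤ) = 2 ^ k * D.P * D.W := by rw [hq]; push_cast; rw [hPn]
  have hYZ : (2 : ℤ) ≤ Y := by exact_mod_cast hY2
  -- F depends on the class only
  have hcls : ∀ r r' : ℤ, 0 < r → r ≤ (Y : ℤ) ^ B → 0 < r' → r' ≤ (Y : ℤ) ^ B → Rough Y r →
      Rough Y r' → (q : ℤ) ∣ r - r' → F r = F r' := by
    intro r r' hr hrB hr' hrB' hro hro' hd
    obtain ⟨s, hs0, hsB, hsR, hsq, hs1, hs2⟩ := hlift Y q hY2 hqpos hqY h2q B r r' r hr hr' hrB hrB'
      hro hro' (uch_cop hqpos hqY hro)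
    have hle : (Y : ℤ) ^ B ≤ (Y : ℤ) ^ (2 * B + Cs + 2) := pow_le_pow_right₀ (by linarith) (by omega)
    have e1 : F r = F s := by
      apply hC ι D hk F hF c Y Z hY1 hB hZ hCst r s hr (hrB.trans hle) hs0 hsB hro hsR hs1.symm
      rw [← hqZ]
      rw [← neg_sub s r]
      exact (dvd_neg.mpr hsq)
    have e2 : F r' = F s := by
      apply hC ι D hk F hF c Y Z hY1 hB hZ hCst r' s hr' (hrB'.trans hle) hs0 hsB hro' hsR hs2.symm
      rw [← hqZ]
      have : r' - s = -(r - r') - (s - r) := by ring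
      rw [this]
      exact dvd_sub (dvd_neg.mpr hd) hsq
    rw [e1, e2]
  -- representatives
  have hone : Rough Y 1 := by
    intro p hp _ hd
    exact (Nat.prime_iff_prime_int.mp hp).not_isUnit (isUnit_of_dvd_one hd)
  have hrep : ∀ n : ℕ, ∃ r : ℤ, Nat.Coprime n q →
      0 < r ∧ r ≤ (Y : ℤ) ^ (Cs + 2) ∧ Rough Y r ∧ (q : ℤ) ∣ r - n := by
    intro n
    by_cases hn : Nat.Coprime n q
    · obtain ⟨r, h1, h2, h3, h4, -, -⟩ := hlift Y q hY2 hqpos hqY h2q 0 1 1 n one_pos one_pos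
        (by simp) (by simp) hone hone (Nat.isCoprime_iff_coprime.mpr hn)
      refine ⟨r, fun _ => ⟨h1, ?_, h3, h4⟩⟩
      simpa using h2
    · exact ⟨0, fun h => absurd h hn⟩
  choose ρ hρ using hrep
  have hle1 : (Y : ℤ) ^ (Cs + 2) ≤ (Y : ℤ) ^ B := pow_le_pow_right₀ (by linarith) (by omega)
  have hle2 : (Y : ℤ) ^ (Cs + 2) * (Y : ℤ) ^ (Cs + 2) ≤ (Y : ℤ) ^ B := by
    rw [← pow_add]; exact pow_le_pow_right₀ (by linarith) (by omega)
  have hz2 : ∀ z : ZMod 2, z = 0 ∨ z = 1 := by decide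
  refine ⟨q, fun n => if Nat.Coprime n q then (if F (ρ n) = 0 then 1 else -1) else 0, hqpos, hqY,
    ⟨?_, ?_, ?_, ?_⟩, ?_⟩
  · intro m n
    by_cases hm : Nat.Coprime m q
    · by_cases hn : Nat.Coprime n q
      · have hmn : Nat.Coprime (m * n) q := Nat.Coprime.mul_left hm hn
        obtain ⟨a1, a2, a3, a4⟩ := hρ m hm
        obtain ⟨b1, b2, b3, b4⟩ := hρ n hn
        obtain ⟨c1, c2, c3, c4⟩ := hρ (m * n) hmn
        have hadd : F (ρ (m * n)) = F (ρ m) + F (ρ n) := by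
          rw [← hF (ρ m) (ρ n) a1.ne' b1.ne']
          apply hcls _ _ c1 (c2.trans hle1) (mul_pos a1 b1) _ c3 (uch_rough_mul a3 b3)
          · have : ρ (m * n) - ρ m * ρ n =
                (ρ (m * n) - ((m * n : ℕ) : ℤ)) - (ρ m - m) * ρ n - m * (ρ n - n) := by
              push_cast; ring
            rw [this]
            exact dvd_sub (dvd_sub c4 (a4.mul_right _)) (b4.mul_left _)
          · exact (mul_le_mul a2 b2 b1.le (by positivity)).trans hle2
        simp only [if_pos hm, if_pos hn, if_pos hmn, hadd]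
        have h11 : (1 : ZMod 2) + 1 = 0 := by decide
        rcases hz2 (F (ρ m)) with h | h <;> rcases hz2 (F (ρ n)) with h' | h' <;>
          simp [h, h', h11]
      · have hmn : ¬ Nat.Coprime (m * n) q := fun h => hn (Nat.Coprime.coprime_mul_left h)
        simp [hn, hmn]
    · have hmn : ¬ Nat.Coprime (m * n) q := fun h => hm (Nat.Coprime.coprime_mul_right h)
      simp [hm, hmn]
  · intro n
    by_cases hn : Nat.Coprime n q
    · have hn' : Nat.Coprime (n + q) q := by simpa using hn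
      obtain ⟨a1, a2, a3, a4⟩ := hρ n hn
      obtain ⟨b1, b2, b3, b4⟩ := hρ (n + q) hn'
      have : F (ρ (n + q)) = F (ρ n) := by
        apply hcls _ _ b1 (b2.trans hle1) a1 (a2.trans hle1) b3 a3
        have : ρ (n + q) - ρ n = (ρ (n + q) - ((n + q : ℕ) : ℤ)) - (ρ n - n) + q := by
          push_cast; ring
        rw [this]
        exact dvd_add (dvd_sub b4 a4) dvd_rfl
      simp only [if_pos hn, if_pos hn', this]
    · have hn' : ¬ Nat.Coprime (n + q) q := by simpa using hn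
      simp only [if_neg hn, if_neg hn']
  · intro n hn
    by_cases h : F (ρ n) = 0
    · left; simp [hn, h]
    · right; simp [hn, h]
  · intro n hn
    simp [hn]
  · intro p hp hYp hpC hχ
    have hpr : Rough Y (p : ℤ) := by
      intro l hl hlY hd
      have := (Nat.prime_dvd_prime_iff_eq hl hp).mp (Int.natCast_dvd_natCast.mp hd)
      omega
    have hpq : Nat.Coprime p q := Nat.isCoprime_iff_coprime.mp (uch_cop hqpos hqY hpr)
    obtain ⟨a1, a2, a3, a4⟩ := hρ p hpq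
    have hF0 : F (ρ p) = 0 := by
      by_contra h
      have h2 : (if Nat.Coprime p q then (if F (ρ p) = 0 then (1 : ℤ) else -1) else 0) = 1 := hχ
      rw [if_pos hpq, if_neg h] at h2
      norm_num at h2
    rw [← hF0]
    apply hcls _ _ (by exact_mod_cast hp.pos) _ a1 (a2.trans hle1) hpr a3
    · rw [← neg_sub]; exact dvd_neg.mpr a4
    · calc (p : ℤ) ≤ (Y : ℤ) ^ C₁ := by exact_mod_cast hpC
        _ ≤ (Y : ℤ) ^ B := pow_le_pow_right₀ (by linarith) (by omega)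

end Pool.Agent.H661R3.UP
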