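import Pool.Agent.H661R3.UP.Defs

/-!
UEL: elimination.
-/

set_option autoImplicit false

open Finset

namespace Pool.Agent.H661R3.UP

namespace UELaux

/-- the difference operator -/
def Dl (ψ : ℕ → ZMod 2) : ℕ → ZMod 2 := fun m => ψ m + ψ (m + 1)

theorem iter_two_pow (k : ℕ) : ∀ (ψ : ℕ → ZMod 2) (m : ℕ),
    Dl^[2 ^ k] ψ m = ψ m + ψ (m + 2 ^ k) := by
  induction k with
  | zero => intro ψ m; simp [Dl]
  | succ k ih =>
    intro ψ m
    rw [pow_succ, mul_two, Function.iterate_add_apply, ih, ih, ih]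
    have h : ∀ x y z : ZMod 2, (x + y) + (y + z) = x + z := by decide
    rw [h, add_assoc]

theorem iter_sum {ι : Type} [DecidableEq ι] (S : Finset ι) : ∀ (ψ : ℕ → ZMod 2) (m : ℕ),
    Dl^[S.card] ψ m = ∑ T ∈ S.powerset, ψ (m + T.card) := by
  induction S using Finset.induction_on with
  | empty => intro ψ m; simp
  | insert a S ha ih =>
    intro ψ m
    rw [Finset.card_insert_of_notMem ha, Function.iterate_succ_apply, ih,
      Finset.sum_powerset_insert ha, ← Finset.sum_add_distrib]
    apply Finset.sum_congr rfl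
    intro T hT
    have h1 : a ∉ T := fun h => ha (Finset.mem_powerset.mp hT h)
    rw [Finset.card_insert_of_notMem h1]
    simp only [Dl]
    rw [add_assoc]

theorem iter_zero (ψ : ℕ → ZMod 2) (n N : ℕ) (h : ∀ j ≤ N, Dl^[n] ψ j = 0) :
    ∀ r j, j + r ≤ N → Dl^[n + r] ψ j = 0 := by
  intro r
  induction r with
  | zero => intro j hj; exact h j (by omega)
  | succ r ih =>
    intro j hj
    rw [← add_assoc, Function.iterate_succ_apply']
    show Dl^[n + r] ψ j + Dl^[n + r] ψ (j + 1) = 0
    rw [ih j (by omega), ih (j + 1) (by omega)]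
    simp

theorem pair_zero {ι : Type} [DecidableEq ι] (S : Finset ι) (i : ι) (hi : i ∈ S)
    (f : Finset ι → ZMod 2) (h : ∀ T, T ⊆ S → i ∉ T → f (insert i T) = f T) :
    ∑ T ∈ S.powerset, f T = 0 := by
  rw [← Finset.insert_erase hi, Finset.sum_powerset_insert (Finset.notMem_erase i S),
    ← Finset.sum_add_distrib]
  apply Finset.sum_eq_zero
  intro T hT
  have hT' := Finset.mem_powerset.mp hT
  rw [h T (hT'.trans (Finset.erase_subset _ _)) (fun hh => Finset.notMem_erase i S (hT' hh))]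
  exact CharTwo.add_self_eq_zero _

end UELaux

theorem t_UEL (h : UPT) : UEL := by
  intro ι _ _ D φ ρ hyp
  obtain ⟨-, h2, -⟩ := h ι D
  set ψ : ℕ → ZMod 2 := fun m => φ D.o ((m : ℤ) * D.P) with hψ
  -- the sums vanish
  have key : ∀ j ≤ 2 ^ D.k, ∑ T ∈ D.S.powerset, ψ (j + T.card) = 0 := by
    intro j hj
    have e1 : ∑ T ∈ D.S.powerset, ∑ i ∈ D.S, φ i (D.L i (D.px j T) (D.py T)) =
        ∑ T ∈ D.S.powerset, ρ (D.py T) :=
      Finset.sum_congr rfl fun T hT => hyp j T hj (Finset.mem_powerset.mp hT)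
    have e2 : ∑ T ∈ D.S.powerset, ρ (D.py T) = 0 := by
      apply UELaux.pair_zero D.S D.o D.ho
      intro T _ ho
      congr 1
      simp only [US.py]
      rw [Finset.sum_insert ho]
      simp
    rw [e2, Finset.sum_comm, ← Finset.add_sum_erase _ _ D.ho] at e1
    have e3 : ∑ i ∈ D.S.erase D.o, ∑ T ∈ D.S.powerset, φ i (D.L i (D.px j T) (D.py T)) = 0 := by
      apply Finset.sum_eq_zero
      intro i hi
      obtain ⟨hio, hiS⟩ := Finset.mem_erase.mp hi
      apply UELaux.pair_zero D.S i hiS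
      intro T _ hiT
      congr 1
      simp only [US.L, US.px, US.py]
      rw [Finset.sum_insert hiT, Finset.sum_insert hiT, if_neg hio, if_neg hio]
      ring
    rw [e3, add_zero] at e1
    rw [← e1]
    apply Finset.sum_congr rfl
    intro T hT
    rw [h2 j T (Finset.mem_powerset.mp hT)]
  have hcard : D.S.card ≤ 2 ^ D.k := by
    have h1 : D.S.card ≤ D.k := Finset.card_le_univ _
    exact h1.trans (Nat.lt_two_pow_self).le
  have z := UELaux.iter_zero ψ D.S.card (2 ^ D.k)
    (fun j hj => by rw [UELaux.iter_sum]; exact key j hj) (2 ^ D.k - D.S.card) 0 (by omega)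
  rw [Nat.add_sub_cancel' hcard, UELaux.iter_two_pow] at z
  have z' : ψ 0 = ψ (0 + 2 ^ D.k) := by
    have : ∀ x y : ZMod 2, x + y = 0 → x = y := by decide
    exact this _ _ z
  simp only [hψ, zero_add] at z'
  push_cast at z'
  rw [zero_mul] at z'
  exact z'

end Pool.Agent.H661R3.UP
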