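import Pool.Agent.H661R3.UP.Defs

set_option autoImplicit false

open Finset

namespace Pool.Agent.H661R3.UP

theorem t_UL3 (hT : UTA) (hL : ULK) (hP : UPT) (hE : UEL) : UL3 := by
  classical
  intro k C₁
  obtain ⟨CA, YA, hA⟩ := hT k C₁
  obtain ⟨CL, YL, hLk⟩ := hL k (CA + C₁ + 2)
  refine ⟨CL, max (max YA YL) 2, ?_⟩
  intro ι _ hdec D hDk F hF c Y Z hY hBig hZ hCst r δ hr0 hr hδ0 hδ hWδ hcop hrough
  have hYA : YA ≤ Y := le_trans (le_trans (le_max_left _ _) (le_max_left _ _)) hY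
  have hYL : YL ≤ Y := le_trans (le_trans (le_max_right _ _) (le_max_left _ _)) hY
  have hY2 : 2 ≤ Y := le_trans (le_max_right _ _) hY
  obtain ⟨u, w, hu, hw, huw, hgood⟩ := hA ι D hDk Y hYA hBig r δ hr0 hr hδ0 hδ hWδ hcop hrough
  obtain ⟨-, -, hsz⟩ := hP ι D
  have hY2Z : (2 : ℤ) ≤ Y := by exact_mod_cast hY2
  have hY1 : (1 : ℤ) ≤ Y := by linarith
  have hQ1 : 1 ≤ D.Q := by
    have h1 := D.ha D.o
    have h2 := D.haQ D.o
    have h3 : (1 : ℤ) ≤ D.Q := by linarith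
    exact_mod_cast h3
  have hB : (16 * (D.Q : ℤ)) ^ (4 * (D.k + 1)) ≤ (Y : ℤ) := by
    have h1 : (16 * D.Q) ^ (4 * (D.k + 1)) ≤ (16 * D.Q) ^ (10 * (D.k + 1)) :=
      Nat.pow_le_pow_right (by omega) (by omega)
    have h2 : (16 * D.Q) ^ (4 * (D.k + 1)) ≤ Y := le_trans h1 hBig
    exact_mod_cast h2
  have size : ∀ x α : ℤ, |x| ≤ (Y : ℤ) ^ CA → |α| ≤ (Y : ℤ) →
      |x + α * δ| ≤ (Y : ℤ) ^ (CA + C₁ + 2) := by
    intro x α hx hα
    have h1 : |x + α * δ| ≤ |x| + |α| * δ := by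
      calc |x + α * δ| ≤ |x| + |α * δ| := abs_add_le _ _
        _ = |x| + |α| * δ := by rw [abs_mul, abs_of_pos hδ0]
    have h2 : |α| * δ ≤ (Y : ℤ) * (Y : ℤ) ^ C₁ :=
      mul_le_mul hα hδ hδ0.le (Int.natCast_nonneg _)
    have h3 : (Y : ℤ) ^ CA ≤ (Y : ℤ) ^ (CA + C₁ + 1) := pow_le_pow_right₀ hY1 (by omega)
    have h4 : (Y : ℤ) * (Y : ℤ) ^ C₁ ≤ (Y : ℤ) ^ (CA + C₁ + 1) := by
      rw [← pow_succ']
      exact pow_le_pow_right₀ hY1 (by omega)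
    have h6 : (0 : ℤ) < (Y : ℤ) ^ (CA + C₁ + 1) := by positivity
    have h7 : (Y : ℤ) ^ (CA + C₁ + 2) = (Y : ℤ) ^ (CA + C₁ + 1) * Y := pow_succ _ _
    rw [h7]
    nlinarith
  have hpx : ∀ (j : ℕ) (T : Finset ι), j ≤ 2 ^ k → T ⊆ D.S → |D.px j T| ≤ (Y : ℤ) := by
    intro j T hj hTS
    exact le_trans (hsz j T hTS (by rw [hDk]; exact hj)).1 hB
  have hpy : ∀ (T : Finset ι), T ⊆ D.S → |D.py T| ≤ (Y : ℤ) := by
    intro T hTS
    exact le_trans (hsz 0 T hTS (Nat.zero_le _)).2 hB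
  have indep : ∀ (j j' : ℕ) (T T' : Finset ι), j ≤ 2 ^ k → T ⊆ D.S → j' ≤ 2 ^ k → T' ⊆ D.S →
      D.py T = D.py T' →
      D.R F (u + D.px j T * δ) (w + D.py T * δ) =
        D.R F (u + D.px j' T' * δ) (w + D.py T' * δ) := by
    intro j j' T T' hj hTS hj' hTS' he
    have g1 := hgood j T hj hTS
    have g2 := hgood j' T' hj' hTS'
    rw [← he] at g2
    rw [← he]
    exact hLk ι D hDk F hF c Y Z hYL hBig hZ hCst _ _ _ (size u _ hu (hpx j T hj hTS))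
      (size u _ hu (hpx j' T' hj' hTS')) (size w _ hw (hpy T hTS)) g1 g2
  set reg : ℤ → ℕ × Finset ι → Prop := fun β p => p.1 ≤ 2 ^ k ∧ p.2 ⊆ D.S ∧ D.py p.2 = β with hreg
  have hel := hE ι D (fun i m => F (D.L i u w + m * δ))
    (fun β => if h : ∃ p, reg β p then
      D.R F (u + D.px h.choose.1 h.choose.2 * δ) (w + D.py h.choose.2 * δ) else 0) (by
      intro j T hj hTS
      rw [hDk] at hj
      have hex : ∃ p, reg (D.py T) p := ⟨(j, T), hj, hTS, rfl⟩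
      rw [dif_pos hex]
      obtain ⟨e1, e2, e3⟩ := hex.choose_spec
      rw [← indep j hex.choose.1 T hex.choose.2 hj hTS e1 e2 e3.symm]
      unfold US.R
      apply Finset.sum_congr rfl
      intro i _
      congr 1
      unfold US.L
      ring)
  rw [huw, hDk] at hel
  rw [zero_mul, add_zero] at hel
  exact hel

end Pool.Agent.H661R3.UP
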