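import Pool.Agent.H661R3.UP.Defs
import Pool.Agent.H661R3.OP.LA

set_option autoImplicit false

open Finset

namespace Pool.Agent.H661R3.UP

open Pool.Agent.H661R3.OP (Rough Add2 SV CR LA_cop LA_ncop LA_crt2 LA_ndvd)

section

variable {ι : Type} [Fintype ι] (D : US ι)

/-- a prime at most `KK k` divides `W` -/
theorem ULA_pW {p : ℕ} (hp : p.Prime) (h : p ≤ KK D.k) : (p : ℤ) ∣ (D.W : ℤ) :=
  Int.natCast_dvd_natCast.2 ((Nat.Prime.dvd_primorial_iff hp).2 h)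

theorem ULA_Wp {p : ℕ} (hp : p.Prime) (h : (p : ℤ) ∣ (D.W : ℤ)) : p ≤ KK D.k :=
  (Nat.Prime.dvd_primorial_iff hp).1 (Int.natCast_dvd_natCast.1 h)

theorem ULA_ap {p : ℕ} {i : ι} (h : (p : ℤ) ∣ D.a i) : p ≤ D.Q := by
  have h1 := Int.le_of_dvd (D.ha i) h
  have h2 := D.haQ i
  omega

theorem ULA_Q {Y : ℕ} (hB : D.Big Y) : 1 ≤ D.Q ∧ 16 * D.Q ≤ Y := by
  have h1 : 1 ≤ D.Q := by
    have h1 := D.ha D.o
    have h2 := D.haQ D.o
    omega
  refine ⟨h1, le_trans ?_ hB⟩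
  calc 16 * D.Q = (16 * D.Q) ^ 1 := (pow_one _).symm
    _ ≤ (16 * D.Q) ^ (10 * (D.k + 1)) := Nat.pow_le_pow_right (by omega) (by omega)

/-- basic facts on the product of the values -/
theorem ULA_prod {Y : ℕ} (hQY : D.Q ≤ Y) (hY : KK D.k ≤ Y) {U w : ℤ} (hG : D.Good Y U w) :
    0 < ∏ j ∈ D.S, D.L j U w ∧ IsCoprime w (∏ j ∈ D.S, D.L j U w) ∧
    IsCoprime (∏ j ∈ D.S, D.L j U w) (D.W : ℤ) ∧
    ∀ p : ℕ, p.Prime → p ≤ Y → ¬ (p : ℤ) ∣ ∏ j ∈ D.S, D.L j U w := by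
  obtain ⟨h1, h2, h3, h4, h5⟩ := hG
  have hr : ∀ p : ℕ, p.Prime → p ≤ Y → ¬ (p : ℤ) ∣ ∏ j ∈ D.S, D.L j U w := by
    intro p hp hpY hd
    obtain ⟨j, hj, hjd⟩ := (Prime.dvd_finsetProd_iff (Nat.prime_iff_prime_int.1 hp) _).1 hd
    exact (h4 j) p hp hpY hjd
  refine ⟨Finset.prod_pos fun j hj => (h5 j hj), ?_, ?_, hr⟩
  · apply LA_cop
    intro p hp hpw hd
    obtain ⟨j, hj, hjd⟩ := (Prime.dvd_finsetProd_iff (Nat.prime_iff_prime_int.1 hp) _).1 hd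
    have h5 : (p : ℤ) ∣ D.a j * U := by
      have h6 : D.a j * U = D.L j U w - D.b j * w := by unfold US.L; ring
      rw [h6]
      exact dvd_sub hjd (Dvd.dvd.mul_left hpw _)
    rcases (Nat.prime_iff_prime_int.1 hp).dvd_or_dvd h5 with h7 | h7
    · exact hr p hp ((ULA_ap D h7).trans hQY) hd
    · exact LA_ncop h3 hp h7 hpw
  · apply LA_cop
    intro p hp hd hpW
    exact hr p hp ((ULA_Wp D hp hpW).trans hY) hd

/-- coprimality of the values -/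
theorem ULA_copr {Y : ℕ} (hY : 2 * D.Q ≤ Y) {U w V : ℤ} (hG : D.Good Y U w)
    (hV : (∏ j ∈ D.S, D.L j U w) ∣ V - w) :
    ∀ i ∈ D.S, ∀ j ∈ D.S, IsCoprime (D.L i U w) (D.L j V w) := by
  intro i hi j hj
  apply LA_cop
  intro p hp hpi hpj
  obtain ⟨_, _, h3, h4, _⟩ := hG
  have hpY : Y < p := by
    by_contra hcon
    exact (h4 i) p hp (by omega) hpi
  have hpV : (p : ℤ) ∣ V - w :=
    (hpi.trans (Finset.dvd_prod_of_mem (fun j => D.L j U w) hi)).trans hV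
  have h5 : (p : ℤ) ∣ (D.a j + D.b j) * w := by
    have h6 : (D.a j + D.b j) * w = D.L j V w - D.a j * (V - w) := by
      unfold US.L; ring
    rw [h6]
    exact dvd_sub hpj (Dvd.dvd.mul_left hpV _)
  rcases (Nat.prime_iff_prime_int.1 hp).dvd_or_dvd h5 with h7 | h7
  · have h1 := D.ha j
    have h2 := D.hb j
    have h3 := D.haQ j
    have h4 := D.hbQ j
    exact LA_ndvd (by omega) (by omega) h7
  · have h8 : (p : ℤ) ∣ D.a i * U := by
      have h6 : D.a i * U = D.L i U w - D.b i * w := by unfold US.L; ring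
      rw [h6]
      exact dvd_sub hpi (Dvd.dvd.mul_left h7 _)
    rcases (Nat.prime_iff_prime_int.1 hp).dvd_or_dvd h8 with h9 | h9
    · exact LA_ndvd (D.ha i) (by have := D.haQ i; omega) h9
    · exact LA_ncop h3 hp h9 h7

theorem ULA_bound {Y : ℕ} {C₁ : ℕ} (hY : 2 * D.Q ≤ Y) (hY1 : 1 ≤ Y) {U w : ℤ}
    (hU : |U| ≤ (Y : ℤ) ^ C₁) (hw : |w| ≤ (Y : ℤ) ^ C₁)
    (hpos : ∀ j ∈ D.S, 0 < D.L j U w) :
    ∏ j ∈ D.S, D.L j U w ≤ (Y : ℤ) ^ ((C₁ + 1) * D.k) := by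
  have hYz1 : (1 : ℤ) ≤ Y := by exact_mod_cast hY1
  have h1 : ∀ j ∈ D.S, D.L j U w ≤ (Y : ℤ) ^ (C₁ + 1) := by
    intro j _
    have hYz : (2 * (D.Q : ℤ)) ≤ Y := by exact_mod_cast hY
    have hYp : (0 : ℤ) ≤ (Y : ℤ) ^ C₁ := by positivity
    have ha := D.haQ j
    have hb := D.hbQ j
    have ha0 := D.ha j
    have hb0 := D.hb j
    have e1 : D.a j * U ≤ D.Q * (Y : ℤ) ^ C₁ := by
      calc D.a j * U ≤ D.a j * |U| := mul_le_mul_of_nonneg_left (le_abs_self U) ha0.le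
        _ ≤ D.Q * (Y : ℤ) ^ C₁ := mul_le_mul ha hU (abs_nonneg _) (by positivity)
    have e2 : D.b j * w ≤ D.Q * (Y : ℤ) ^ C₁ := by
      calc D.b j * w ≤ D.b j * |w| := mul_le_mul_of_nonneg_left (le_abs_self w) hb0.le
        _ ≤ D.Q * (Y : ℤ) ^ C₁ := mul_le_mul hb hw (abs_nonneg _) (by positivity)
    calc D.L j U w = D.a j * U + D.b j * w := rfl
      _ ≤ 2 * D.Q * (Y : ℤ) ^ C₁ := by linarith
      _ ≤ Y * (Y : ℤ) ^ C₁ := mul_le_mul_of_nonneg_right hYz hYp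
      _ = (Y : ℤ) ^ (C₁ + 1) := by ring
  calc ∏ j ∈ D.S, D.L j U w ≤ ∏ _j ∈ D.S, (Y : ℤ) ^ (C₁ + 1) :=
        Finset.prod_le_prod (fun j hj => (hpos j hj).le) h1
    _ = (Y : ℤ) ^ ((C₁ + 1) * D.S.card) := by rw [Finset.prod_const, pow_mul]
    _ ≤ (Y : ℤ) ^ ((C₁ + 1) * D.k) := by
        apply pow_le_pow_right₀ hYz1
        exact Nat.mul_le_mul_left _ (Finset.card_le_univ _)

end

theorem t_ULA (hSV : SV) : ULA := by
  intro k C₁
  obtain ⟨Cs, hCs⟩ := hSV k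
  refine ⟨C₁ + (C₁ + 1) * k + (C₁ + 1) * k + 1 + (C₁ + 2 + Cs),
    KK k + primorial (KK k) + 3, ?_⟩
  intro ι _ D hk Y hY hB U U' w hU hU' hw hG hG'
  subst hk
  have hWd : D.W = primorial (KK D.k) := rfl
  rw [← hWd] at hY
  obtain ⟨hQ1, hQY⟩ := ULA_Q D hB
  have hKY : KK D.k ≤ Y := by omega
  obtain ⟨hA0, hwA, hAW, hAr⟩ := ULA_prod D (by omega) hKY hG
  obtain ⟨hA0', hwA', hAW', hAr'⟩ := ULA_prod D (by omega) hKY hG'
  have hb := ULA_bound D (C₁ := C₁) (by omega) (by omega) hU hw (fun j hj => (hG.2.2.2.2 j hj))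
  have hb' := ULA_bound D (C₁ := C₁) (by omega) (by omega) hU' hw (fun j hj => (hG'.2.2.2.2 j hj))
  set A := ∏ j ∈ D.S, D.L j U w with hA
  set A' := ∏ j ∈ D.S, D.L j U' w with hA'
  have hKc : 2 * D.k ≤ KK D.k ∧ 2 ≤ KK D.k := by
    unfold KK
    have h1 : 1 ≤ 16 ^ D.k := Nat.one_le_pow _ _ (by norm_num)
    have h3 : 100 * (D.k + 1) ^ 2 * 1 ≤ 100 * (D.k + 1) ^ 2 * 16 ^ D.k :=
      Nat.mul_le_mul_left _ h1
    have h4 : D.k + 1 ≤ (D.k + 1) ^ 2 := by nlinarith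
    constructor <;> omega
  have hw0 : w ≠ 0 := by
    rintro rfl
    exact hG.1 2 Nat.prime_two (by omega) (dvd_zero _)
  have hwabs : 1 ≤ |w| := Int.one_le_abs hw0
  have hWpos : (0 : ℤ) < D.W := by
    rw [hWd]
    exact_mod_cast primorial_pos _
  have hwW : IsCoprime w (D.W : ℤ) := by
    apply LA_cop
    intro p hp hpw hpW
    exact hG.1 p hp ((ULA_Wp D hp hpW).trans hKY) hpw
  -- Chinese remainder
  obtain ⟨x₁, hx1, hx2⟩ := LA_crt2 (hwA.mul_right hwA') 1 w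
  have hcop : IsCoprime (w * (A * A')) (D.W : ℤ) :=
    hwW.mul_left (hAW.mul_left hAW')
  obtain ⟨x, hx3, hx4⟩ := LA_crt2 hcop x₁ (D.n₀ * w)
  have hxw : w ∣ x - 1 := by
    have h1 : w ∣ x - x₁ := (Dvd.intro _ rfl).trans hx3
    have : x - 1 = (x - x₁) + (x₁ - 1) := by ring
    rw [this]; exact dvd_add h1 hx1
  have hxA : A * A' ∣ x - w := by
    have h1 : A * A' ∣ x - x₁ := (Dvd.intro_left _ rfl).trans hx3
    have : x - w = (x - x₁) + (x₁ - w) := by ring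
    rw [this]; exact dvd_add h1 hx2
  have hxW : (D.W : ℤ) ∣ x - D.n₀ * w := hx4
  set m : ℤ := |w| * (A * A') * D.W with hm
  have hmpos : 0 < m := by positivity
  have hmw : w ∣ m := by
    have h1 : w ∣ |w| := (dvd_abs w w).2 (dvd_refl w)
    exact (h1.mul_right (A * A')).mul_right _
  have hmA : A * A' ∣ m := ((Dvd.intro_left _ rfl : A * A' ∣ |w| * (A * A'))).mul_right _
  have hmW : (D.W : ℤ) ∣ m := Dvd.intro_left _ rfl
  -- reduced representative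
  set V₀ : ℤ := x % m with hV0
  have hV00 : 0 ≤ V₀ := Int.emod_nonneg _ hmpos.ne'
  have hV0m : V₀ < m := Int.emod_lt_of_pos _ hmpos
  have hxV : m ∣ x - V₀ := Int.dvd_self_sub_emod
  -- general congruences
  have gw : ∀ t : ℤ, w ∣ (V₀ + t * m) - 1 := by
    intro t
    have : (V₀ + t * m) - 1 = (x - 1) - (x - V₀) + t * m := by ring
    rw [this]
    exact dvd_add (dvd_sub hxw (hmw.trans hxV)) (Dvd.dvd.mul_left hmw _)
  have gA : ∀ t : ℤ, A * A' ∣ (V₀ + t * m) - w := by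
    intro t
    have : (V₀ + t * m) - w = (x - w) - (x - V₀) + t * m := by ring
    rw [this]
    exact dvd_add (dvd_sub hxA (hmA.trans hxV)) (Dvd.dvd.mul_left hmA _)
  have gW : ∀ t : ℤ, (D.W : ℤ) ∣ (V₀ + t * m) - D.n₀ * w := by
    intro t
    have : (V₀ + t * m) - D.n₀ * w = (x - D.n₀ * w) - (x - V₀) + t * m := by ring
    rw [this]
    exact dvd_add (dvd_sub hxW (hmW.trans hxV)) (Dvd.dvd.mul_left hmW _)
  -- the sieve
  have hs := hCs ι le_rfl (fun i => D.a i * m) (fun i => D.a i * V₀ + D.b i * w) Y (by omega)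
    (by
      intro i p hp hpY hpc hpd
      have hP := Nat.prime_iff_prime_int.1 hp
      have g1 := gw 0
      have g3 := gW 0
      simp only [zero_mul, add_zero] at g1 g3
      have casew : ¬ (p : ℤ) ∣ w := hG.1 p hp hpY
      -- the case `p ∣ W`
      have caseW : ¬ (p : ℤ) ∣ (D.W : ℤ) := by
        intro hpW
        have h1 : (p : ℤ) ∣ w * (D.a i * D.n₀ + D.b i) := by
          have : w * (D.a i * D.n₀ + D.b i) =
              (D.a i * V₀ + D.b i * w) - D.a i * (V₀ - D.n₀ * w) := by ring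
          rw [this]
          exact dvd_sub hpd (Dvd.dvd.mul_left (hpW.trans g3) _)
        rcases hP.dvd_or_dvd h1 with h2 | h2
        · exact casew h2
        · exact D.hn₀ i p hp (ULA_Wp D hp hpW) h2
      have caseA : ¬ (p : ℤ) ∣ D.a i := by
        intro h
        have h1 : (p : ℤ) ∣ D.b i * w := by
          have : D.b i * w = (D.a i * V₀ + D.b i * w) - D.a i * V₀ := by ring
          rw [this]
          exact dvd_sub hpd (h.mul_right _)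
        rcases hP.dvd_or_dvd h1 with h2 | h2
        · exact LA_ncop (D.hab i) hp h h2
        · exact casew h2
      rcases hP.dvd_or_dvd hpc with h1 | h1
      · exact caseA h1
      · rcases hP.dvd_or_dvd h1 with h2 | h2
        · rcases hP.dvd_or_dvd h2 with h3 | h3
          · exact casew ((dvd_abs _ _).1 h3)
          · rcases hP.dvd_or_dvd h3 with h4 | h4
            · exact hAr p hp hpY h4
            · exact hAr' p hp hpY h4
        · exact caseW h2)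
    (by
      intro i p hp hpK
      exact Dvd.dvd.mul_left ((ULA_pW D hp (by omega)).trans hmW) _)
    (D.Q * (Y : ℤ) ^ C₁ + 1) (Y ^ Cs) le_rfl
  have hYs : 0 < Y ^ Cs := Nat.pow_pos (by omega)
  have hne : {t : ℤ | (D.Q * (Y : ℤ) ^ C₁ + 1) ≤ t ∧ t < (D.Q * (Y : ℤ) ^ C₁ + 1) + (Y ^ Cs : ℕ) ∧
      ∀ i, Rough Y (D.a i * m * t + (D.a i * V₀ + D.b i * w))}.Nonempty := by
    by_contra hcon
    rw [Set.not_nonempty_iff_eq_empty] at hcon
    rw [hcon, Set.ncard_empty] at hs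
    omega
  obtain ⟨t, ht1, ht2, ht3⟩ := hne
  have hYC : (0 : ℤ) < (Y : ℤ) ^ C₁ := by
    have : (0 : ℤ) < Y := by exact_mod_cast (by omega : 0 < Y)
    positivity
  have ht0 : 0 < t := by
    have : (0 : ℤ) ≤ D.Q * (Y : ℤ) ^ C₁ := by positivity
    linarith
  have hVt : t ≤ V₀ + t * m := by nlinarith
  refine ⟨V₀ + t * m, ?_, ⟨hG.1, gW t, ?_, ?_, ?_⟩, ?_, ?_⟩
  · -- size
    have hV1 : 0 ≤ V₀ + t * m := by linarith
    rw [abs_of_nonneg hV1]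
    have hYz : ((KK D.k + D.W + 3 : ℕ) : ℤ) ≤ Y := by exact_mod_cast hY
    push_cast at hYz
    have hY1 : (1 : ℤ) ≤ Y := by
      have : (0 : ℤ) ≤ KK D.k := by positivity
      linarith
    have hKn : (0 : ℤ) ≤ KK D.k := by positivity
    have hQz : (16 * (D.Q : ℤ)) ≤ Y := by exact_mod_cast hQY
    have hQ1z : (1 : ℤ) ≤ D.Q := by exact_mod_cast hQ1
    have hp1 : (1 : ℤ) ≤ (Y : ℤ) ^ (C₁ + 1 + Cs) := one_le_pow₀ hY1
    have b1 : (D.Q : ℤ) * (Y : ℤ) ^ C₁ + 1 ≤ (Y : ℤ) ^ (C₁ + 1 + Cs) := by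
      have h1 : (1 : ℤ) ≤ (Y : ℤ) ^ C₁ := one_le_pow₀ hY1
      have h2 : (D.Q : ℤ) * (Y : ℤ) ^ C₁ + 1 ≤ (D.Q + 1) * (Y : ℤ) ^ C₁ := by linarith
      have h3 : ((D.Q : ℤ) + 1) * (Y : ℤ) ^ C₁ ≤ Y * (Y : ℤ) ^ C₁ :=
        mul_le_mul_of_nonneg_right (by linarith) hYC.le
      have h4 : (Y : ℤ) * (Y : ℤ) ^ C₁ = (Y : ℤ) ^ (C₁ + 1) := by ring
      have h5 : (Y : ℤ) ^ (C₁ + 1) ≤ (Y : ℤ) ^ (C₁ + 1 + Cs) :=
        pow_le_pow_right₀ hY1 (by omega)
      linarith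
    have b2 : ((Y ^ Cs : ℕ) : ℤ) ≤ (Y : ℤ) ^ (C₁ + 1 + Cs) := by
      push_cast
      exact pow_le_pow_right₀ hY1 (by omega)
    have b3 : 1 + t ≤ (Y : ℤ) ^ (C₁ + 2 + Cs) := by
      have h1 : 1 + t ≤ 3 * (Y : ℤ) ^ (C₁ + 1 + Cs) := by linarith
      have h2 : 3 * (Y : ℤ) ^ (C₁ + 1 + Cs) ≤ Y * (Y : ℤ) ^ (C₁ + 1 + Cs) :=
        mul_le_mul_of_nonneg_right (by linarith) (by linarith)
      have h3 : (Y : ℤ) * (Y : ℤ) ^ (C₁ + 1 + Cs) = (Y : ℤ) ^ (C₁ + 2 + Cs) := by ring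
      linarith
    have hWY : (D.W : ℤ) ≤ Y := by linarith
    have b4 : m ≤ (Y : ℤ) ^ (C₁ + (C₁ + 1) * D.k + (C₁ + 1) * D.k + 1) := by
      calc m = |w| * (A * A') * D.W := rfl
        _ ≤ (Y : ℤ) ^ C₁ * ((Y : ℤ) ^ ((C₁ + 1) * D.k) * (Y : ℤ) ^ ((C₁ + 1) * D.k)) *
            Y := by
          apply mul_le_mul _ hWY hWpos.le (by positivity)
          apply mul_le_mul hw _ (by positivity) (by positivity)
          exact mul_le_mul hb hb' hA0'.le (by positivity)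
        _ = _ := by ring
    calc V₀ + t * m ≤ (1 + t) * m := by nlinarith
      _ ≤ (Y : ℤ) ^ (C₁ + 2 + Cs) *
          (Y : ℤ) ^ (C₁ + (C₁ + 1) * D.k + (C₁ + 1) * D.k + 1) :=
        mul_le_mul b3 b4 hmpos.le (by positivity)
      _ = _ := by ring
  · -- `V` and `w` coprime
    obtain ⟨k, hk⟩ := gw t
    refine ⟨1, -k, ?_⟩
    linarith
  · intro j
    have := ht3 j
    have e : D.L j (V₀ + t * m) w = D.a j * m * t + (D.a j * V₀ + D.b j * w) := by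
      unfold US.L; ring
    rw [e]; exact this
  · intro j hj
    have ha0 := D.ha j
    have hb0 := D.hb j
    have hbj := D.hbQ j
    have h1 : -(D.b j * w) ≤ D.Q * (Y : ℤ) ^ C₁ := by
      calc -(D.b j * w) ≤ |D.b j * w| := neg_le_abs _
        _ = |D.b j| * |w| := abs_mul _ _
        _ = D.b j * |w| := by rw [abs_of_pos hb0]
        _ ≤ D.Q * (Y : ℤ) ^ C₁ := mul_le_mul hbj hw (abs_nonneg _) (by positivity)
    have h2 : V₀ + t * m ≤ D.a j * (V₀ + t * m) := by nlinarith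
    have : D.L j (V₀ + t * m) w = D.a j * (V₀ + t * m) + D.b j * w := rfl
    rw [this]
    linarith
  · exact ULA_copr D (by omega) hG ((Dvd.intro _ rfl).trans (gA t))
  · exact ULA_copr D (by omega) hG' ((Dvd.intro_left _ rfl).trans (gA t))

end Pool.Agent.H661R3.UP
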