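import Pool.Agent.H661R3.UP.Defs

set_option autoImplicit false

open Finset

namespace Pool.Agent.H661R3.UP

open Pool.Agent.H661R3.OP (Rough Add2 SV CR)

theorem t_ULK (h1 : ULA) (h2 : UG) : ULK := by
  intro k C₁
  obtain ⟨Ca, Ya, ha⟩ := h1 k C₁
  obtain ⟨Cg, Yg, hg⟩ := h2 k (max C₁ Ca)
  refine ⟨Cg, max (max Ya Yg) 1, ?_⟩
  intro ι _ D hk F hF c Y Z hY hBig hZ hCst U U' w hU hU' hw hgU hgU'
  have hYa : Ya ≤ Y := (le_max_left _ _).trans ((le_max_left _ _).trans hY)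
  have hYg : Yg ≤ Y := (le_max_right _ _).trans ((le_max_left _ _).trans hY)
  have hY1' : 1 ≤ Y := (le_max_right _ _).trans hY
  have hY1 : (1 : ℤ) ≤ Y := by exact_mod_cast hY1'
  obtain ⟨V, hV, hgV, hc1, hc2⟩ := ha ι D hk Y hYa hBig U U' w hU hU' hw hgU hgU'
  have hm1 : (Y : ℤ) ^ C₁ ≤ (Y : ℤ) ^ (max C₁ Ca) := pow_le_pow_right₀ hY1 (le_max_left _ _)
  have hm2 : (Y : ℤ) ^ Ca ≤ (Y : ℤ) ^ (max C₁ Ca) := pow_le_pow_right₀ hY1 (le_max_right _ _)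
  have e1 := hg ι D hk F hF c Y Z hYg hBig hZ hCst U V w (hU.trans hm1) (hV.trans hm2)
    (hw.trans hm1) hgU hgV hc1
  have e2 := hg ι D hk F hF c Y Z hYg hBig hZ hCst U' V w (hU'.trans hm1) (hV.trans hm2)
    (hw.trans hm1) hgU' hgV hc2
  rw [e1, e2]

end Pool.Agent.H661R3.UP
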