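import Pool.Agent.H661R3.UP.Defs

set_option autoImplicit false

open Finset

namespace Pool.Agent.H661R3.UP

open Pool.Agent.H661R3.OP (Rough Add2 SV CR)

theorem t_UM (hC : UCH) (hX : EX) : UM := by
  classical
  intro k
  obtain ⟨C, Y₀, h⟩ := hC k 200
  obtain ⟨Y₁, h1⟩ := hX
  refine ⟨C, max Y₀ Y₁, ?_⟩
  intro ι _ D hk F hF hp c Y hY hB
  by_contra hcon
  push Not at hcon
  have hcst : D.Cst F (c + 1) Y ((Y : ℤ) ^ C) := by
    intro n hn0 hn hr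
    have h2 := hcon n hn0 hn hr
    have h3 : ∀ x y : ZMod 2, x ≠ y → x = y + 1 := by decide
    exact h3 _ _ h2
  obtain ⟨q, χ, hq0, hqY, hR, h2⟩ := h ι D hk F hF (c + 1) Y ((Y : ℤ) ^ C)
    ((le_max_left _ _).trans hY) hB le_rfl hcst
  obtain ⟨p, hp1, hp2, hp3, hp4⟩ := h1 q χ hq0 hR Y ((le_max_right _ _).trans hY) hqY
  exact hp p hp1 (h2 p hp1 hp2 hp3 hp4)

end Pool.Agent.H661R3.UP
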