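import Pool.Agent.H661R3.UP.Defs

set_option autoImplicit false

open Finset

namespace Pool.Agent.H661R3.UP

open Pool.Agent.H661R3.OP (Rough Add2 SV CR)

namespace UNIaux

theorem KK_ge (k : ℕ) : 4 * (2 ^ (k + 1) + 1) ≤ KK k := by
  have h1 : 2 ^ k ≤ 16 ^ k := Nat.pow_le_pow_left (by norm_num) k
  have h2 : 1 ≤ 16 ^ k := Nat.one_le_pow _ _ (by norm_num)
  have h3 : 1 ≤ (k + 1) ^ 2 := Nat.one_le_pow _ _ (by omega)
  have h4 : 1 * 16 ^ k ≤ (k + 1) ^ 2 * 16 ^ k := Nat.mul_le_mul_right _ h3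
  have h5 : KK k = 100 * ((k + 1) ^ 2 * 16 ^ k) := by rw [KK]; ring
  rw [h5, pow_succ]
  omega

/-- rough numbers are coprime to the modulus -/
theorem rough_coprime {Y K : ℕ} (hK : K ≤ Y) {r : ℤ} (hr : Rough Y r) :
    IsCoprime r ((primorial K : ℕ) : ℤ) := by
  rw [Int.isCoprime_iff_gcd_eq_one]
  by_contra h
  obtain ⟨l, hl, hd⟩ := Nat.exists_prime_and_dvd h
  have h1 : (l : ℤ) ∣ r := (Int.natCast_dvd_natCast.2 hd).trans (Int.gcd_dvd_left _ _)
  have h2 : (l : ℤ) ∣ ((primorial K : ℕ) : ℤ) :=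
    (Int.natCast_dvd_natCast.2 hd).trans (Int.gcd_dvd_right _ _)
  have h3 : l ≤ K := hl.dvd_primorial_iff.1 (Int.natCast_dvd_natCast.1 h2)
  exact hr l hl (h3.trans hK) h1

end UNIaux

open UNIaux

theorem t_UNI (hSV : SV) (hCR : CR) (hP : UPT) (h3 : UL3) : UNI := by
  intro k C₁
  obtain ⟨Cs, hCs⟩ := hSV (2 * (2 ^ (k + 1) + 1))
  obtain ⟨C, Y₁, hL⟩ := h3 k (3 * C₁ + Cs + 3)
  refine ⟨C, Y₁ + 4 + KK k + primorial (KK k), ?_⟩
  intro ι _ _ D hDk F hF c Y Z hY hBig hYZ hCst r r' hr0 hrY hr'0 hr'Y hr hr' hcop hdiv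
  have hY1 : Y₁ ≤ Y := by omega
  have hY4 : 4 ≤ Y := by omega
  have hYK : KK k ≤ Y := by omega
  have hWeq : D.W = primorial (KK k) := by rw [US.W, hDk]
  have hYW : D.W ≤ Y := by rw [hWeq]; omega
  have hW0 : (0 : ℤ) < D.W := by
    rw [hWeq]
    exact_mod_cast primorial_pos _
  have hP0 : (0 : ℤ) < D.P := (hP ι D).1.1
  have hYz : (4 : ℤ) ≤ Y := by exact_mod_cast hY4
  have hY1z : (1 : ℤ) ≤ Y := by linarith
  have hWY : (D.W : ℤ) ≤ Y := by exact_mod_cast hYW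
  obtain ⟨e, he⟩ := hdiv
  set t : ℤ := D.W * e with ht
  have hkt : 2 ^ k * D.P * t = r - r' := by rw [he, ht]; ring
  have hWt : (D.W : ℤ) ∣ t := ⟨e, ht⟩
  have h2P : (1 : ℤ) ≤ 2 ^ k * D.P := by
    have : (0 : ℤ) < 2 ^ k * D.P := by positivity
    omega
  have htabs : |t| ≤ (Y : ℤ) ^ C₁ := by
    have h1 : |2 ^ k * D.P * t| = 2 ^ k * D.P * |t| := by
      rw [abs_mul, abs_of_pos (by linarith)]
    have h2 : |r - r'| ≤ (Y : ℤ) ^ C₁ := by
      rw [abs_le]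
      constructor <;> linarith
    rw [← hkt, h1] at h2
    have h3 : 1 * |t| ≤ 2 ^ k * D.P * |t| := mul_le_mul_of_nonneg_right h2P (abs_nonneg _)
    linarith
  -- the Chinese remainder theorem
  have hrW : IsCoprime r (D.W : ℤ) := by rw [hWeq]; exact rough_coprime hYK hr
  have hr'W : IsCoprime r' (D.W : ℤ) := by rw [hWeq]; exact rough_coprime hYK hr'
  obtain ⟨x, hx⟩ := hCR (Option Bool)
    (fun b => b.elim (D.W : ℤ) (fun b' => if b' then r else r'))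
    (fun b => b.elim 0 (fun b' => if b' then 1 else 1 - t)) (by
      intro i j hij
      rcases i with _ | _ | _ <;> rcases j with _ | _ | _ <;>
        first
          | exact absurd rfl hij
          | exact hr'W.symm
          | exact hrW.symm
          | exact hr'W
          | exact hrW
          | exact hcop
          | exact hcop.symm)
  have hx0 : (D.W : ℤ) ∣ x - 0 := hx none
  have hx1 : r ∣ x - 1 := hx (some true)
  have hx2 : r' ∣ x - (1 - t) := hx (some false)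
  rw [sub_zero] at hx0
  set N : ℤ := r * r' * D.W with hN
  have hN0 : 0 < N := by positivity
  set s : ℤ := x % N with hs
  have hs0 : 0 ≤ s := Int.emod_nonneg _ hN0.ne'
  have hs1 : s < N := Int.emod_lt_of_pos _ hN0
  have hsx : N ∣ x - s := by
    rw [hs]
    exact Int.dvd_self_sub_emod
  have hrN : r ∣ N := ⟨r' * D.W, by rw [hN]; ring⟩
  have hr'N : r' ∣ N := ⟨r * D.W, by rw [hN]; ring⟩
  have hWN : (D.W : ℤ) ∣ N := ⟨r * r', by rw [hN]; ring⟩
  have hsr : r ∣ s - 1 := by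
    have h2 : s - 1 = (x - 1) - (x - s) := by ring
    rw [h2]; exact dvd_sub hx1 (hrN.trans hsx)
  have hsr' : r' ∣ s + t - 1 := by
    have h2 : s + t - 1 = (x - (1 - t)) - (x - s) := by ring
    rw [h2]; exact dvd_sub hx2 (hr'N.trans hsx)
  have hsW : (D.W : ℤ) ∣ s := by
    have h2 : s = x - (x - s) := by ring
    rw [h2]; exact dvd_sub hx0 (hWN.trans hsx)
  -- the sieve
  have hsv := hCs (Fin (2 ^ (k + 1) + 1) × Bool) (by simp [mul_comm])
    (fun i => ((i.1 : ℕ) : ℤ) * D.P * N)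
    (fun i => if i.2 then r' + ((i.1 : ℕ) : ℤ) * D.P * (s + t)
      else r + ((i.1 : ℕ) : ℤ) * D.P * s)
    Y (by omega)
    (by
      rintro ⟨m, b⟩ l hl hlY hd
      have hlz : Prime (l : ℤ) := Nat.prime_iff_prime_int.1 hl
      have hd2 : (l : ℤ) ∣ ((m : ℕ) : ℤ) * D.P ∨ (l : ℤ) ∣ (D.W : ℤ) := by
        rcases hlz.dvd_or_dvd hd with h1 | h1
        · exact Or.inl h1
        · rw [hN] at h1
          rcases hlz.dvd_or_dvd h1 with h2 | h2
          · rcases hlz.dvd_or_dvd h2 with h4 | h4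
            · exact absurd h4 (hr l hl hlY)
            · exact absurd h4 (hr' l hl hlY)
          · exact Or.inr h2
      cases b
      · intro h5
        simp only [Bool.false_eq_true, if_false] at h5
        have h6 : (l : ℤ) ∣ ((m : ℕ) : ℤ) * D.P * s := by
          rcases hd2 with h7 | h7
          · exact Dvd.dvd.mul_right h7 _
          · exact Dvd.dvd.mul_left (h7.trans hsW) _
        exact hr l hl hlY ((dvd_add_left h6).1 h5)
      · intro h5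
        simp only [if_true] at h5
        have h6 : (l : ℤ) ∣ ((m : ℕ) : ℤ) * D.P * (s + t) := by
          rcases hd2 with h7 | h7
          · exact Dvd.dvd.mul_right h7 _
          · exact Dvd.dvd.mul_left (h7.trans (dvd_add hsW hWt)) _
        exact hr' l hl hlY ((dvd_add_left h6).1 h5))
    (by
      intro i l hl hlB
      have h1 : l ≤ KK k := by
        have := KK_ge k
        omega
      have h2 : (l : ℤ) ∣ (D.W : ℤ) := by
        rw [hWeq]
        exact Int.natCast_dvd_natCast.2 (hl.dvd_primorial_iff.2 h1)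
      exact Dvd.dvd.mul_left (h2.trans hWN) _)
    ((Y : ℤ) ^ C₁ + 1) (Y ^ Cs) le_rfl
  have hYpow : 0 < Y ^ Cs := Nat.pow_pos (by omega)
  have hcard : 0 < {τ : ℤ | (Y : ℤ) ^ C₁ + 1 ≤ τ ∧ τ < (Y : ℤ) ^ C₁ + 1 + (Y ^ Cs : ℕ) ∧
      ∀ i : Fin (2 ^ (k + 1) + 1) × Bool, Rough Y (((i.1 : ℕ) : ℤ) * D.P * N * τ +
        (if i.2 then r' + ((i.1 : ℕ) : ℤ) * D.P * (s + t)
          else r + ((i.1 : ℕ) : ℤ) * D.P * s))}.ncard := by
    by_contra h0
    push Not at h0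
    have h1 := Nat.le_zero.1 h0
    rw [h1, mul_zero] at hsv
    omega
  obtain ⟨τ, hτ0, hτ1, hτr⟩ := Set.nonempty_of_ncard_ne_zero hcard.ne'
  set δ : ℤ := s + τ * N with hδ
  have hYC1 : (0 : ℤ) ≤ (Y : ℤ) ^ C₁ := by positivity
  have hτ : 0 < τ := by linarith
  have hτN : τ ≤ τ * N := by
    have h1 : (1 : ℤ) ≤ N := hN0
    nlinarith
  have hδ0 : 0 < δ := by linarith
  have hδ'0 : 0 < δ + t := by
    have := neg_abs_le t
    linarith
  have hNle : N ≤ (Y : ℤ) ^ (2 * C₁ + 1) := by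
    have h1 : r * r' ≤ (Y : ℤ) ^ C₁ * (Y : ℤ) ^ C₁ := mul_le_mul hrY hr'Y hr'0.le hYC1
    calc N = r * r' * D.W := hN
      _ ≤ (Y : ℤ) ^ C₁ * (Y : ℤ) ^ C₁ * Y := mul_le_mul h1 hWY hW0.le (by positivity)
      _ = (Y : ℤ) ^ (2 * C₁ + 1) := by ring
  have hδle : δ ≤ (Y : ℤ) ^ (3 * C₁ + Cs + 2) := by
    have h2 : δ ≤ (1 + τ) * N := by
      rw [hδ]
      nlinarith
    have h3 : 1 + τ ≤ (Y : ℤ) ^ (C₁ + Cs + 1) := by
      push_cast at hτ1
      have a1 : (Y : ℤ) ^ C₁ ≤ (Y : ℤ) ^ (C₁ + Cs) := pow_le_pow_right₀ hY1z (by omega)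
      have a2 : (Y : ℤ) ^ Cs ≤ (Y : ℤ) ^ (C₁ + Cs) := pow_le_pow_right₀ hY1z (by omega)
      have a3 : (1 : ℤ) ≤ (Y : ℤ) ^ (C₁ + Cs) := one_le_pow₀ hY1z
      have a4 : 4 * (Y : ℤ) ^ (C₁ + Cs) ≤ Y * (Y : ℤ) ^ (C₁ + Cs) :=
        mul_le_mul_of_nonneg_right hYz (by positivity)
      have a5 : (Y : ℤ) ^ (C₁ + Cs + 1) = Y * (Y : ℤ) ^ (C₁ + Cs) := by ring
      rw [a5]
      linarith
    calc δ ≤ (1 + τ) * N := h2
      _ ≤ (Y : ℤ) ^ (C₁ + Cs + 1) * (Y : ℤ) ^ (2 * C₁ + 1) :=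
          mul_le_mul h3 hNle hN0.le (by positivity)
      _ = (Y : ℤ) ^ (3 * C₁ + Cs + 2) := by ring
  have hE : 4 * (Y : ℤ) ^ (3 * C₁ + Cs + 2) ≤ (Y : ℤ) ^ (3 * C₁ + Cs + 3) := by
    have a5 : (Y : ℤ) ^ (3 * C₁ + Cs + 3) = Y * (Y : ℤ) ^ (3 * C₁ + Cs + 2) := by ring
    rw [a5]
    exact mul_le_mul_of_nonneg_right hYz (by positivity)
  have hE0 : (0 : ℤ) ≤ (Y : ℤ) ^ (3 * C₁ + Cs + 2) := by positivity
  have hC1E : (Y : ℤ) ^ C₁ ≤ (Y : ℤ) ^ (3 * C₁ + Cs + 2) := pow_le_pow_right₀ hY1z (by omega)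
  have hWδ : (D.W : ℤ) ∣ δ := dvd_add hsW (Dvd.dvd.mul_left hWN _)
  have hrδ : r ∣ δ - 1 := by
    have h1 : δ - 1 = (s - 1) + τ * N := by rw [hδ]; ring
    rw [h1]
    exact dvd_add hsr (Dvd.dvd.mul_left hrN _)
  have hr'δ : r' ∣ δ + t - 1 := by
    have h1 : δ + t - 1 = (s + t - 1) + τ * N := by rw [hδ]; ring
    rw [h1]
    exact dvd_add hsr' (Dvd.dvd.mul_left hr'N _)
  have hcop1 : IsCoprime r δ := by
    obtain ⟨y, hy⟩ := hrδ
    exact ⟨-y, 1, by linear_combination hy⟩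
  have hcop2 : IsCoprime r' (δ + t) := by
    obtain ⟨y, hy⟩ := hr'δ
    exact ⟨-y, 1, by linear_combination hy⟩
  have k1 := hL ι D hDk F hF c Y Z hY1 hBig hYZ hCst r δ hr0 (by linarith) hδ0 (by linarith) hWδ
    hcop1 (fun m hm => by
      have h1 := hτr (⟨m, by omega⟩, false)
      simp only [Bool.false_eq_true, if_false] at h1
      have h2 : r + m * D.P * δ = (m : ℤ) * D.P * N * τ + (r + (m : ℤ) * D.P * s) := by
        rw [hδ]; ring
      rw [h2]; exact h1)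
  have k2 := hL ι D hDk F hF c Y Z hY1 hBig hYZ hCst r' (δ + t) hr'0 (by linarith) hδ'0
    (by
      have := le_abs_self t
      linarith) (dvd_add hWδ hWt) hcop2 (fun m hm => by
      have h1 := hτr (⟨m, by omega⟩, true)
      simp only [if_true] at h1
      have h2 : r' + m * D.P * (δ + t) =
          (m : ℤ) * D.P * N * τ + (r' + (m : ℤ) * D.P * (s + t)) := by
        rw [hδ]; ring
      rw [h2]; exact h1)
  rw [k1, k2]
  congr 1
  linear_combination -hkt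

end Pool.Agent.H661R3.UP
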