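import Pool.Agent.H661R3.UP.Defs

set_option autoImplicit false

open Finset

namespace Pool.Agent.H661R3.UP

open Pool.Agent.H661R3.OP (Rough Add2 SV CR)

section upt

variable {ι : Type} [Fintype ι] [DecidableEq ι] (D : US ι)

theorem upt_Q : (1 : ℤ) ≤ D.Q := by
  have h1 := D.ha D.o
  have h2 := D.haQ D.o
  omega

theorem upt_s_pos {i : ι} (hi : i ∈ D.S) : 0 < D.s i := by
  unfold US.s
  split_ifs with h
  · exact D.ha D.o
  · exact D.hmin i hi h

theorem upt_s_le (i : ι) : D.s i ≤ 2 * (D.Q : ℤ) ^ 2 := by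
  have hQ := upt_Q D
  unfold US.s
  split_ifs with h
  · have := D.haQ D.o
    nlinarith
  · have h1 := D.haQ D.o
    have h2 := D.hbQ i
    have h3 : D.a D.o * D.b i ≤ D.Q * D.Q :=
      mul_le_mul h1 h2 (D.hb i).le (by linarith)
    have h4 : 0 < D.a i * D.b D.o := mul_pos (D.ha i) (D.hb D.o)
    nlinarith

theorem upt_prod (T : Finset ι) (hT : T ⊆ D.S) :
    0 < ∏ j ∈ T, D.s j ∧ ∏ j ∈ T, D.s j ≤ (2 * (D.Q : ℤ) ^ 2) ^ D.k := by
  have hQ := upt_Q D
  have h1 : (1 : ℤ) ≤ 2 * (D.Q : ℤ) ^ 2 := by nlinarith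
  refine ⟨Finset.prod_pos fun j hj => upt_s_pos D (hT hj), ?_⟩
  calc ∏ j ∈ T, D.s j ≤ ∏ _j ∈ T, (2 * (D.Q : ℤ) ^ 2) :=
        Finset.prod_le_prod (fun j hj => (upt_s_pos D (hT hj)).le) fun j _ => upt_s_le D j
    _ = (2 * (D.Q : ℤ) ^ 2) ^ T.card := by rw [Finset.prod_const]
    _ ≤ _ := pow_le_pow_right₀ h1 (Finset.card_le_univ T)

theorem upt_cof (i : ι) : 0 < D.cof i ∧ D.cof i ≤ (2 * (D.Q : ℤ) ^ 2) ^ D.k :=
  upt_prod D _ (Finset.erase_subset _ _)

theorem upt_s_cof {i : ι} (hi : i ∈ D.S) : D.s i * D.cof i = D.P :=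
  Finset.mul_prod_erase D.S D.s hi

end upt

theorem t_UPT : UPT := by
  intro ι _ _ D
  have hQ := upt_Q D
  refine ⟨upt_prod D D.S (Finset.Subset.refl _), ?_, ?_⟩
  · intro j T hT
    have h0 : D.a D.o * D.cof D.o = D.P := by
      have := upt_s_cof D D.ho
      unfold US.s at this
      rwa [if_pos rfl] at this
    have h1 : ∀ i ∈ T, D.a D.o * (if i = D.o then D.cof D.o else D.cof i * D.b i) +
        D.b D.o * (if i = D.o then 0 else - (D.cof i * D.a i)) = D.P := by
      intro i hi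
      by_cases h : i = D.o
      · rw [if_pos h, if_pos h, mul_zero, add_zero]
        exact h0
      · rw [if_neg h, if_neg h]
        have := upt_s_cof D (hT hi)
        unfold US.s at this
        rw [if_neg h] at this
        rw [← this]
        ring
    unfold US.L US.px US.py
    rw [mul_add, add_assoc, Finset.mul_sum, Finset.mul_sum, ← Finset.sum_add_distrib,
      Finset.sum_congr rfl h1, Finset.sum_const, nsmul_eq_mul]
    push_cast
    rw [← h0]
    ring
  · intro j T hT hj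
    set B : ℤ := (2 * (D.Q : ℤ) ^ 2) ^ D.k with hB
    have hB0 : 0 < B := by positivity
    have hTk : ((T.card : ℕ) : ℤ) ≤ 2 ^ D.k := by
      have h1 : T.card ≤ D.k := Finset.card_le_univ T
      have h2 : D.k < 2 ^ D.k := Nat.lt_two_pow_self
      exact_mod_cast h1.trans h2.le
    have hj' : (j : ℤ) ≤ 2 ^ D.k := by exact_mod_cast hj
    have h16 : (1 : ℤ) ≤ 16 * (D.Q : ℤ) := by linarith
    have hfin : 2 ^ D.k * B * (2 * D.Q) ≤ (16 * (D.Q : ℤ)) ^ (4 * (D.k + 1)) := by
      have e1 : (2 : ℤ) ^ D.k ≤ (16 * (D.Q : ℤ)) ^ D.k := pow_le_pow_left₀ (by norm_num) (by linarith) _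
      have e2 : B ≤ ((16 * (D.Q : ℤ)) ^ 2) ^ D.k :=
        pow_le_pow_left₀ (by positivity) (by nlinarith) _
      have e3 : (2 : ℤ) * D.Q ≤ 16 * D.Q := by linarith
      calc (2 : ℤ) ^ D.k * B * (2 * D.Q) ≤
          (16 * (D.Q : ℤ)) ^ D.k * ((16 * (D.Q : ℤ)) ^ 2) ^ D.k * (16 * D.Q) := by gcongr
        _ = (16 * (D.Q : ℤ)) ^ (3 * D.k + 1) := by rw [← pow_mul]; ring
        _ ≤ _ := pow_le_pow_right₀ h16 (by omega)
    have hBQ : B ≤ B * D.Q := by nlinarith
    constructor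
    · unfold US.px
      have h1 : |(j : ℤ) * D.cof D.o| ≤ 2 ^ D.k * B := by
        rw [abs_mul, Nat.abs_cast, abs_of_pos (upt_cof D D.o).1]
        exact mul_le_mul hj' (upt_cof D D.o).2 (upt_cof D D.o).1.le (by positivity)
      have h2 : |∑ i ∈ T, (if i = D.o then D.cof D.o else D.cof i * D.b i)| ≤ 2 ^ D.k * (B * D.Q) := by
        refine (Finset.abs_sum_le_sum_abs _ _).trans ?_
        calc ∑ i ∈ T, |(if i = D.o then D.cof D.o else D.cof i * D.b i)| ≤ ∑ _i ∈ T, B * D.Q := by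
              refine Finset.sum_le_sum fun i _ => ?_
              split_ifs
              · rw [abs_of_pos (upt_cof D D.o).1]
                exact (upt_cof D D.o).2.trans hBQ
              · rw [abs_of_pos (mul_pos (upt_cof D i).1 (D.hb i))]
                exact mul_le_mul (upt_cof D i).2 (D.hbQ i) (D.hb i).le hB0.le
          _ = (T.card : ℤ) * (B * D.Q) := by rw [Finset.sum_const, nsmul_eq_mul]
          _ ≤ _ := mul_le_mul_of_nonneg_right hTk (by positivity)
      calc |(j : ℤ) * D.cof D.o + ∑ i ∈ T, (if i = D.o then D.cof D.o else D.cof i * D.b i)|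
          ≤ 2 ^ D.k * B + 2 ^ D.k * (B * D.Q) := (abs_add_le _ _).trans (add_le_add h1 h2)
        _ ≤ 2 ^ D.k * (B * D.Q) + 2 ^ D.k * (B * D.Q) := by gcongr
        _ = 2 ^ D.k * B * (2 * D.Q) := by ring
        _ ≤ _ := hfin
    · unfold US.py
      refine (Finset.abs_sum_le_sum_abs _ _).trans ?_
      calc ∑ i ∈ T, |(if i = D.o then (0 : ℤ) else - (D.cof i * D.a i))| ≤ ∑ _i ∈ T, B * D.Q := by
            refine Finset.sum_le_sum fun i _ => ?_
            split_ifs
            · rw [abs_zero]; positivity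
            · rw [abs_neg, abs_of_pos (mul_pos (upt_cof D i).1 (D.ha i))]
              exact mul_le_mul (upt_cof D i).2 (D.haQ i) (D.ha i).le hB0.le
        _ = (T.card : ℤ) * (B * D.Q) := by rw [Finset.sum_const, nsmul_eq_mul]
        _ ≤ 2 ^ D.k * (B * D.Q) := mul_le_mul_of_nonneg_right hTk (by positivity)
        _ ≤ 2 ^ D.k * (B * D.Q) + 2 ^ D.k * (B * D.Q) := by
            have : 0 ≤ 2 ^ D.k * (B * D.Q) := by positivity
            linarith
        _ = 2 ^ D.k * B * (2 * D.Q) := by ring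
        _ ≤ _ := hfin

end Pool.Agent.H661R3.UP
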