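import Pool.Agent.H661R3.UP.Defs

set_option autoImplicit false

open Finset

namespace Pool.Agent.H661R3.UP

open Pool.Agent.H661R3.OP (Rough Add2 SV CR)

/-- USU: the system exists -/
theorem t_USU (hCR : CR) : USU := by
  intro ι _ a b S Q ha hb haQ hbQ hdet hS hadm
  classical
  have hne : S.Nonempty := by
    rw [← Finset.card_pos]
    exact hS.pos
  obtain ⟨o, ho, hmin⟩ := Finset.exists_min_image S (fun i => (b i : ℚ) / a i) hne
  have haQ' : ∀ i, (0 : ℚ) < a i := fun i => by exact_mod_cast ha i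
  have hmin' : ∀ i ∈ S, i ≠ o → 0 < a o * b i - a i * b o := by
    intro i hi hio
    have h1 := hmin i hi
    rw [div_le_div_iff₀ (haQ' o) (haQ' i)] at h1
    have h2 : b o * a i ≤ b i * a o := by exact_mod_cast h1
    have h3 := hdet o i (Ne.symm hio)
    have h4 : 0 ≤ a o * b i - a i * b o := by nlinarith
    omega
  have hab : ∀ i, IsCoprime (a i) (b i) := by
    intro i
    rw [Int.isCoprime_iff_gcd_eq_one]
    by_contra hg
    obtain ⟨p, hp, hpd⟩ := Nat.exists_prime_and_dvd hg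
    obtain ⟨n, hn⟩ := hadm p hp
    have h1 : (p : ℤ) ∣ a i := (Int.natCast_dvd_natCast.2 hpd).trans (Int.gcd_dvd_left _ _)
    have h2 : (p : ℤ) ∣ b i := (Int.natCast_dvd_natCast.2 hpd).trans (Int.gcd_dvd_right _ _)
    exact hn i (dvd_add (h1.mul_right _) h2)
  choose r hr using hadm
  set K : ℕ := KK (Fintype.card ι) with hK
  obtain ⟨n₀, hn₀⟩ := hCR {p : Fin (K + 1) // (p : ℕ).Prime} (fun p => ((p.1 : ℕ) : ℤ))
    (fun p => r p.1 p.2) (by
      rintro ⟨i, hi⟩ ⟨j, hj⟩ hij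
      have hne : (i : ℕ) ≠ (j : ℕ) := by
        intro hh
        apply hij
        ext
        exact hh
      exact Nat.isCoprime_iff_coprime.2 ((Nat.coprime_primes hi hj).2 hne))
  have e6 : ∀ i, ∀ p : ℕ, p.Prime → p ≤ K → ¬ (p : ℤ) ∣ a i * n₀ + b i := by
    intro i p hp hpK hd
    have h1 := hn₀ ⟨⟨p, by omega⟩, hp⟩
    refine hr p hp i ?_
    have h2 : a i * r p hp + b i = (a i * n₀ + b i) - a i * (n₀ - r p hp) := by ring
    rw [h2]
    exact dvd_sub hd (h1.mul_left _)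
  exact ⟨US.mk a b S o Q n₀ ha hb haQ hbQ hab hdet hS ho hmin' e6, rfl, rfl, rfl, rfl⟩

end Pool.Agent.H661R3.UP
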