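import Pool.Agent.H661R3.UP.Defs

/-!
The family of good pairs through `(r, δ)`, uniform version.
-/

set_option autoImplicit false

open Finset

namespace Pool.Agent.H661R3.UP

open Pool.Agent.H661R3.OP (Rough Add2 SV CR)

namespace UTAaux

theorem z1 {Y : ℤ} (h : 16 ≤ Y) : 1 + Y * Y ≤ Y * Y * Y := by nlinarith

theorem z2 {Y : ℤ} (h : 16 ≤ Y) : Y * Y + Y ≤ Y * Y * Y := by nlinarith

theorem z3 {Y : ℤ} (h : 16 ≤ Y) : Y ^ 4 + 1 ≤ Y ^ 5 := by
  have h6 : (1 : ℤ) ≤ Y ^ 4 := one_le_pow₀ (by linarith)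
  have h7 : Y ^ 5 = Y ^ 4 * Y := by ring
  nlinarith

theorem z4 {Q X Y : ℤ} (h1 : X ^ 2 ≤ Y) (hX : X = 16 * Q) (hQ : 1 ≤ Q) : Q ^ 2 + 1 ≤ Y := by
  rw [hX] at h1
  nlinarith

theorem z5 {Q Y : ℤ} (h1 : Q ^ 2 + 1 ≤ Y) (hQ : 1 ≤ Q) : Q ≤ Y := by nlinarith

theorem z6 {Q : ℤ} (hQ : 1 ≤ Q) : 2 * Q ^ 2 ≤ (16 * Q) ^ 2 := by nlinarith

theorem z7 {B X Y : ℤ} (h1 : B * X ≤ Y) (hX : 16 ≤ X) (hB : 1 ≤ B) : 3 * B ≤ Y := by nlinarith

theorem z8 {t A B : ℤ} (h : t < 8 * A + 1 + B) (hA : 1 ≤ A) (hB : 1 ≤ B) : t ≤ 10 * (A * B) := by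
  nlinarith

theorem z9 {E F Y a : ℤ} (h : a ≤ 3 * E + 10 * F) (hE : E ≤ F) (hF : 0 < F) (hY : 16 ≤ Y) :
    a ≤ F * Y := by
  nlinarith

theorem z10 {c t L M : ℤ} (hc : 1 ≤ c) (ht : M + 1 ≤ t) (hM : 0 ≤ M) (hL : -M ≤ L) :
    0 < c * t + L := by
  nlinarith

theorem cop_of_primes (x y : ℤ)
    (h : ∀ p : ℕ, p.Prime → (p : ℤ) ∣ x → ¬ (p : ℤ) ∣ y) : IsCoprime x y := by
  rw [Int.isCoprime_iff_gcd_eq_one]
  by_contra hne
  obtain ⟨p, hp, hpd⟩ := Nat.exists_prime_and_dvd hne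
  have h1 : (p : ℤ) ∣ x := (Int.natCast_dvd_natCast.mpr hpd).trans (Int.gcd_dvd_left ..)
  have h2 : (p : ℤ) ∣ y := (Int.natCast_dvd_natCast.mpr hpd).trans (Int.gcd_dvd_right ..)
  exact h p hp h1 h2

theorem dvd_W {ι : Type} [Fintype ι] (D : US ι) {p : ℕ} (hp : p.Prime) :
    (p : ℤ) ∣ (D.W : ℤ) ↔ p ≤ KK D.k := by
  rw [Int.natCast_dvd_natCast]
  exact hp.dvd_primorial_iff

theorem Lo {ι : Type} [Fintype ι] (D : US ι) {r δ n ω q₁ x₁ y₁ s u w : ℤ}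
    (hq : r = ω * (D.a D.o * n + D.b D.o) + D.W * q₁)
    (hxy : x₁ * D.a D.o + y₁ * D.b D.o = 1)
    (hu : u = ω * n + D.W * q₁ * x₁ - s * (D.W * D.b D.o))
    (hw : w = ω + D.W * q₁ * y₁ + s * (D.W * D.a D.o)) (α β : ℤ) :
    D.L D.o (u + α * δ) (w + β * δ) = r + D.L D.o α β * δ := by
  simp only [US.L]
  rw [hu, hw, hq]
  linear_combination (D.W * q₁ : ℤ) * hxy

/-- the algebraic core: goodness of the family -/
theorem good {ι : Type} [Fintype ι] [DecidableEq ι] (D : US ι) (Y : ℕ)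
    {r δ n ω q₁ x₁ y₁ s PP u w κ : ℤ}
    (hn : (D.W : ℤ) ∣ n - D.n₀) (hWδ : (D.W : ℤ) ∣ δ) (hrδ : IsCoprime r δ) (hr : 0 < r)
    (hδ : 0 < δ) (hPpos : 0 < D.P)
    (hrough : ∀ m : ℕ, m ≤ 2 ^ (D.k + 1) → Rough Y (r + m * D.P * δ))
    (hq : r = ω * (D.a D.o * n + D.b D.o) + D.W * q₁)
    (hxy : x₁ * D.a D.o + y₁ * D.b D.o = 1)
    (hu : u = ω * n + D.W * q₁ * x₁ - s * (D.W * D.b D.o))
    (hw : w = ω + D.W * q₁ * y₁ + s * (D.W * D.a D.o))
    (hPP : ∀ m : ℕ, m ≤ 2 ^ (D.k + 1) → (r + m * D.P * δ) ∣ PP)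
    (hs : PP ∣ w - κ * δ)
    (α β : ℤ) (m : ℕ) (hm : m ≤ 2 ^ (D.k + 1)) (hL : D.L D.o α β = m * D.P)
    (hκ : 0 < κ + β) (hκY : κ + β ≤ Y)
    (hrw : Rough Y (w + β * δ))
    (hj : ∀ i, i ≠ D.o → Rough Y (D.L i (u + α * δ) (w + β * δ)))
    (hpos : ∀ i ∈ D.S, i ≠ D.o → 0 < D.L i (u + α * δ) (w + β * δ)) :
    D.Good Y (u + α * δ) (w + β * δ) := by
  have hLo : D.L D.o (u + α * δ) (w + β * δ) = r + m * D.P * δ := by
    rw [Lo D hq hxy hu hw, hL]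
  have hRo := hrough m hm
  refine ⟨hrw, ?_, ?_, ?_, ?_⟩
  · obtain ⟨δ', hδ'⟩ := hWδ
    obtain ⟨n', hn'⟩ := hn
    refine ⟨q₁ * x₁ - s * D.b D.o + α * δ' - D.n₀ * (q₁ * y₁ + s * D.a D.o + β * δ') + ω * n', ?_⟩
    rw [hu, hw, hδ']
    linear_combination ω * hn'
  · apply cop_of_primes
    intro p hp hpu hpw
    have hpL : (p : ℤ) ∣ r + m * D.P * δ := by
      rw [← hLo]
      exact dvd_add (hpu.mul_left _) (hpw.mul_left _)
    have hpY : Y < p := by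
      by_contra hcon
      exact hRo p hp (by omega) hpL
    have hpP : (p : ℤ) ∣ w - κ * δ := (hpL.trans (hPP m hm)).trans hs
    have h3 : (p : ℤ) ∣ (κ + β) * δ := by
      have := dvd_sub hpw hpP
      have h4 : w + β * δ - (w - κ * δ) = (κ + β) * δ := by ring
      rwa [h4] at this
    have hpp : Prime (p : ℤ) := Nat.prime_iff_prime_int.mp hp
    have hpδ : (p : ℤ) ∣ δ := by
      rcases hpp.dvd_or_dvd h3 with h | h
      · exfalso
        have h5 : (p : ℤ) ≤ κ + β := Int.le_of_dvd hκ h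
        have h7 : (Y : ℤ) < p := by exact_mod_cast hpY
        linarith
      · exact h
    have hpr : (p : ℤ) ∣ r := by
      have := dvd_sub hpL (hpδ.mul_left (m * D.P))
      simpa using this
    have := hrδ.isUnit_of_dvd' hpr hpδ
    exact hpp.not_unit this
  · intro i
    by_cases hio : i = D.o
    · subst hio
      rw [hLo]
      exact hRo
    · exact hj i hio
  · intro i hiS
    by_cases hio : i = D.o
    · subst hio
      rw [hLo]
      have : 0 ≤ (m : ℤ) * D.P * δ := mul_nonneg (mul_nonneg (by positivity) hPpos.le) hδ.le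
      linarith
    · exact hpos i hiS hio

/-- the sieve step -/
theorem forms {ι : Type} [Fintype ι] [DecidableEq ι] (D : US ι) (C₂ : ℕ)
    (hC : ∀ (κ : Type) [Fintype κ],
      Fintype.card κ ≤ (D.k + 1) * ((2 ^ D.k + 1) * 2 ^ D.k) →
      ∀ (c d : κ → ℤ) (Y : ℕ), 2 ≤ Y →
      (∀ i, ∀ p : ℕ, p.Prime → p ≤ Y → (p : ℤ) ∣ c i → ¬ (p : ℤ) ∣ d i) →
      (∀ i, ∀ p : ℕ, p.Prime → p ≤ 2 * ((D.k + 1) * ((2 ^ D.k + 1) * 2 ^ D.k)) →
        (p : ℤ) ∣ c i) →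
      ∀ (T₀ : ℤ) (T : ℕ), Y ^ C₂ ≤ T →
      T ≤ Y ^ C₂ * {t : ℤ | T₀ ≤ t ∧ t < T₀ + T ∧ ∀ i, Rough Y (c i * t + d i)}.ncard)
    (Y : ℕ) (hY : 2 ≤ Y) (hKY : KK D.k ≤ Y) {r δ n ω q₁ x₁ y₁ s PP u w : ℤ}
    (hn : (D.W : ℤ) ∣ n - D.n₀) (hWδ : (D.W : ℤ) ∣ δ)
    (hrough : ∀ m : ℕ, m ≤ 2 ^ (D.k + 1) → Rough Y (r + m * D.P * δ))
    (hq : r = ω * (D.a D.o * n + D.b D.o) + D.W * q₁)
    (hxy : x₁ * D.a D.o + y₁ * D.b D.o = 1)
    (hu : u = ω * n + D.W * q₁ * x₁ - s * (D.W * D.b D.o))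
    (hw : w = ω + D.W * q₁ * y₁ + s * (D.W * D.a D.o))
    (hPP : Rough Y PP)
    (hpt : ∀ (j : ℕ) (T : Finset ι), T ⊆ D.S →
      D.L D.o (D.px j T) (D.py T) = ((j + T.card : ℕ) : ℤ) * D.P)
    (T₀ : ℤ) :
    ∃ t : ℤ, T₀ ≤ t ∧ t < T₀ + (Y : ℤ) ^ C₂ ∧ ∀ (j : ℕ) (T : Finset ι), j ≤ 2 ^ D.k → T ⊆ D.S →
      Rough Y (D.W * PP * D.a D.o * t + (w + D.py T * δ)) ∧ ∀ i, i ≠ D.o →
        Rough Y (D.W * PP * (D.a D.o * D.b i - D.a i * D.b D.o) * t
          + D.L i (u + D.px j T * δ) (w + D.py T * δ)) := by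
  classical
  have hSk : D.S.card ≤ D.k := Finset.card_le_univ D.S
  -- bound of the index
  have hmle : ∀ (j : ℕ) (T : Finset ι), j ≤ 2 ^ D.k → T ⊆ D.S → j + T.card ≤ 2 ^ (D.k + 1) := by
    intro j T hj hT
    have h1 : T.card ≤ D.k := (Finset.card_le_card hT).trans hSk
    have h2 : D.k < 2 ^ D.k := Nat.lt_two_pow_self
    rw [pow_succ]
    omega
  have hLoR : ∀ (j : ℕ) (T : Finset ι), j ≤ 2 ^ D.k → T ⊆ D.S →
      Rough Y (D.L D.o (u + D.px j T * δ) (w + D.py T * δ)) := by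
    intro j T hj hT
    rw [Lo D hq hxy hu hw, hpt j T hT]
    exact hrough _ (hmle j T hj hT)
  have hr0 : Rough Y r := by
    have := hrough 0 (Nat.zero_le _)
    simpa using this
  -- units modulo the primes dividing `W`
  have hωp : ∀ p : ℕ, p.Prime → (p : ℤ) ∣ (D.W : ℤ) → ¬ (p : ℤ) ∣ ω := by
    intro p hp hpW hpω
    refine hr0 p hp (((dvd_W D hp).1 hpW).trans hKY) ?_
    rw [hq]
    exact dvd_add (hpω.mul_right _) (hpW.mul_right _)
  have hK2 : 2 * ((D.k + 1) * ((2 ^ D.k + 1) * 2 ^ D.k)) ≤ KK D.k := by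
    unfold KK
    have h1 : 2 ^ D.k + 1 ≤ 2 * 2 ^ D.k := by
      have : 1 ≤ 2 ^ D.k := Nat.one_le_two_pow
      omega
    have h2 : 2 ^ D.k * 2 ^ D.k ≤ 16 ^ D.k := by
      rw [← mul_pow]
      exact Nat.pow_le_pow_left (by norm_num) _
    have h3 : D.k + 1 ≤ (D.k + 1) ^ 2 := by nlinarith
    calc 2 * ((D.k + 1) * ((2 ^ D.k + 1) * 2 ^ D.k))
        ≤ 2 * ((D.k + 1) ^ 2 * ((2 * 2 ^ D.k) * 2 ^ D.k)) := by gcongr
      _ = 4 * (D.k + 1) ^ 2 * (2 ^ D.k * 2 ^ D.k) := by ring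
      _ ≤ 4 * (D.k + 1) ^ 2 * 16 ^ D.k := by gcongr
      _ ≤ 100 * (D.k + 1) ^ 2 * 16 ^ D.k := by gcongr; norm_num
  have hcard : Fintype.card (Option ι × (Fin (2 ^ D.k + 1) × {T // T ∈ D.S.powerset})) ≤
      (D.k + 1) * ((2 ^ D.k + 1) * 2 ^ D.k) := by
    rw [Fintype.card_prod, Fintype.card_prod, Fintype.card_option, Fintype.card_fin,
      Fintype.card_coe, Finset.card_powerset]
    have h1 : 2 ^ D.S.card ≤ 2 ^ D.k := Nat.pow_le_pow_right (by norm_num) hSk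
    exact Nat.mul_le_mul_left _ (Nat.mul_le_mul_left _ h1)
  have key := hC (Option ι × (Fin (2 ^ D.k + 1) × {T // T ∈ D.S.powerset})) hcard
    (fun x => x.1.elim (D.W * PP * D.a D.o)
      (fun i => if i = D.o then 0 else D.W * PP * (D.a D.o * D.b i - D.a i * D.b D.o)))
    (fun x => x.1.elim (w + D.py x.2.2.1 * δ)
      (fun i => if i = D.o then 1 else
        D.L i (u + D.px x.2.1 x.2.2.1 * δ) (w + D.py x.2.2.1 * δ))) Y hY ?_ ?_ T₀ (Y ^ C₂) le_rfl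
  · have hne : ({t : ℤ | T₀ ≤ t ∧ t < T₀ + (Y ^ C₂ : ℕ) ∧
        ∀ x : Option ι × (Fin (2 ^ D.k + 1) × {T // T ∈ D.S.powerset}), Rough Y
        ((x.1.elim (D.W * PP * D.a D.o)
          (fun i => if i = D.o then 0 else D.W * PP * (D.a D.o * D.b i - D.a i * D.b D.o))) * t +
        (x.1.elim (w + D.py x.2.2.1 * δ)
          (fun i => if i = D.o then 1 else
            D.L i (u + D.px x.2.1 x.2.2.1 * δ) (w + D.py x.2.2.1 * δ))))}).Nonempty := by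
      apply Set.nonempty_of_ncard_ne_zero
      intro h0
      rw [h0] at key
      have : 0 < Y ^ C₂ := by positivity
      omega
    obtain ⟨t, ht0, ht1, ht⟩ := hne
    refine ⟨t, ht0, by exact_mod_cast ht1, ?_⟩
    intro j T hj hT
    have hTm : T ∈ D.S.powerset := Finset.mem_powerset.2 hT
    refine ⟨?_, ?_⟩
    · exact ht (none, (⟨j, by omega⟩, ⟨T, hTm⟩))
    · intro i hi
      have := ht (some i, (⟨j, by omega⟩, ⟨T, hTm⟩))
      simp only [Option.elim_some, if_neg hi] at this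
      exact this
  · -- coprimality condition
    rintro ⟨oi, ⟨j, hj⟩, ⟨T, hTm⟩⟩ p hp hpY hpc hpd
    have hT : T ⊆ D.S := Finset.mem_powerset.1 hTm
    have hj' : j ≤ 2 ^ D.k := by omega
    have hpp : Prime (p : ℤ) := Nat.prime_iff_prime_int.mp hp
    have hPPp : ¬ (p : ℤ) ∣ PP := hPP p hp hpY
    have hLop := hLoR j T hj' hT p hp hpY
    rcases oi with _ | i
    · simp only [Option.elim_none] at hpc hpd
      rcases hpp.dvd_or_dvd hpc with h | h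
      · rcases hpp.dvd_or_dvd h with h | h
        · -- `p ∣ W`
          have hpδ : (p : ℤ) ∣ δ := h.trans hWδ
          refine hωp p hp h ?_
          have h2 : ω = (w + D.py T * δ) - D.W * (q₁ * y₁ + s * D.a D.o) - D.py T * δ := by
            rw [hw]
            ring
          rw [h2]
          exact dvd_sub (dvd_sub hpd (h.mul_right _)) (hpδ.mul_left _)
        · exact hPPp h
      · -- `p ∣ a o`
        exact hLop (dvd_add (h.mul_right _) (hpd.mul_left _))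
    · simp only [Option.elim_some] at hpc hpd
      by_cases hi : i = D.o
      · rw [if_pos hi] at hpd
        exact hpp.not_dvd_one hpd
      · rw [if_neg hi] at hpc hpd
        rcases hpp.dvd_or_dvd hpc with h | h
        · rcases hpp.dvd_or_dvd h with h | h
          · -- `p ∣ W`
            have hpδ : (p : ℤ) ∣ δ := h.trans hWδ
            have h1 : (p : ℤ) ∣ ω * (D.a i * D.n₀ + D.b i) := by
              have h2 : ω * (D.a i * D.n₀ + D.b i) =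
                  D.L i (u + D.px j T * δ) (w + D.py T * δ) -
                  D.W * (D.a i * (q₁ * x₁ - s * D.b D.o) + D.b i * (q₁ * y₁ + s * D.a D.o)) -
                  δ * (D.a i * D.px j T + D.b i * D.py T) - (n - D.n₀) * (ω * D.a i) := by
                simp only [US.L]
                rw [hu, hw]
                ring
              rw [h2]
              exact dvd_sub (dvd_sub (dvd_sub hpd (h.mul_right _)) (hpδ.mul_right _))
                ((h.trans hn).mul_right _)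
            rcases hpp.dvd_or_dvd h1 with h' | h'
            · exact hωp p hp h h'
            · exact D.hn₀ i p hp ((dvd_W D hp).1 h) h'
          · exact hPPp h
        · -- `p ∣ d i`
          have e1 : (p : ℤ) ∣ D.a i * D.L D.o (u + D.px j T * δ) (w + D.py T * δ) := by
            have h2 : D.a i * D.L D.o (u + D.px j T * δ) (w + D.py T * δ) =
                D.a D.o * D.L i (u + D.px j T * δ) (w + D.py T * δ) -
                (D.a D.o * D.b i - D.a i * D.b D.o) * (w + D.py T * δ) := by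
              simp only [US.L]
              ring
            rw [h2]
            exact dvd_sub (hpd.mul_left _) (h.mul_right _)
          have e2 : (p : ℤ) ∣ D.b i * D.L D.o (u + D.px j T * δ) (w + D.py T * δ) := by
            have h2 : D.b i * D.L D.o (u + D.px j T * δ) (w + D.py T * δ) =
                D.b D.o * D.L i (u + D.px j T * δ) (w + D.py T * δ) +
                (D.a D.o * D.b i - D.a i * D.b D.o) * (u + D.px j T * δ) := by
              simp only [US.L]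
              ring
            rw [h2]
            exact dvd_add (hpd.mul_left _) (h.mul_right _)
          have f1 : (p : ℤ) ∣ D.a i := (hpp.dvd_or_dvd e1).resolve_right hLop
          have f2 : (p : ℤ) ∣ D.b i := (hpp.dvd_or_dvd e2).resolve_right hLop
          exact hpp.not_unit ((D.hab i).isUnit_of_dvd' f1 f2)
  · rintro ⟨oi, ⟨j, hj⟩, ⟨T, hTm⟩⟩ p hp hpK
    have hpW : (p : ℤ) ∣ (D.W : ℤ) := (dvd_W D hp).2 (hpK.trans hK2)
    rcases oi with _ | i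
    · simp only [Option.elim_none]
      exact (hpW.mul_right _).mul_right _
    · simp only [Option.elim_some]
      split_ifs with hi
      · exact dvd_zero _
      · exact (hpW.mul_right _).mul_right _

end UTAaux

open UTAaux in
theorem t_UTA (hSV : SV) (hP : UPT) : UTA := by
  intro k C₁
  classical
  obtain ⟨C₂, hC₂⟩ := hSV ((k + 1) * ((2 ^ k + 1) * 2 ^ k))
  refine ⟨((C₁ + 3) * (2 ^ (k + 1) + 1) + C₁ + 6) + 4 + C₂ + (C₁ + 3) * (2 ^ (k + 1) + 1),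
    primorial (KK k) + KK k + 2 ^ (k + 1) + 100, ?_⟩
  intro ι _ _ D hDk Y hY hBig r δ hr hrY hδ hδY hWδ hrδ hrough
  subst hDk
  obtain ⟨e, he⟩ : ∃ e, e = (C₁ + 3) * (2 ^ (D.k + 1) + 1) := ⟨_, rfl⟩
  rw [← he]
  obtain ⟨E, hE⟩ : ∃ E, E = e + C₁ + 6 := ⟨_, rfl⟩
  rw [← hE]
  obtain ⟨⟨hPpos, hPle⟩, hpt, hsz⟩ := hP ι D
  have hQ1 : 1 ≤ D.Q := by
    have h1 := D.ha D.o
    have h2 := D.haQ D.o
    omega
  obtain ⟨X, hX⟩ : ∃ X, X = 16 * D.Q := ⟨_, rfl⟩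
  have hX16 : 16 ≤ X := by omega
  have hXY : ∀ j, j ≤ 10 * (D.k + 1) → X ^ j ≤ Y := by
    intro j hj
    have h1 : X ^ j ≤ X ^ (10 * (D.k + 1)) := Nat.pow_le_pow_right (by omega) hj
    have h2 : X ^ (10 * (D.k + 1)) ≤ Y := by
      rw [hX]
      exact hBig
    exact h1.trans h2
  have hXYz : ∀ j, j ≤ 10 * (D.k + 1) → (X : ℤ) ^ j ≤ Y := fun j hj => by
    exact_mod_cast hXY j hj
  have hXz : (X : ℤ) = 16 * D.Q := by exact_mod_cast hX
  have hX16z : (16 : ℤ) ≤ X := by exact_mod_cast hX16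
  have hQ1z : (1 : ℤ) ≤ D.Q := by exact_mod_cast hQ1
  have hQ2 : (D.Q : ℤ) ^ 2 + 1 ≤ Y := z4 (hXYz 2 (by omega)) hXz hQ1z
  have hQY : (D.Q : ℤ) ≤ Y := z5 hQ2 hQ1z
  have hPY : D.P ≤ Y := by
    have h1 : (2 * (D.Q : ℤ) ^ 2) ^ D.k ≤ ((X : ℤ) ^ 2) ^ D.k := by
      apply pow_le_pow_left₀ (by positivity)
      rw [hXz]
      exact z6 hQ1z
    rw [← pow_mul] at h1
    exact hPle.trans (h1.trans (hXYz _ (by omega)))
  obtain ⟨B, hB⟩ : ∃ B : ℤ, B = (X : ℤ) ^ (4 * (D.k + 1)) := ⟨_, rfl⟩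
  have hB1 : 1 ≤ B := by
    rw [hB]
    exact one_le_pow₀ (by linarith)
  have hB3 : 3 * B ≤ Y := by
    have h1 := hXYz (4 * (D.k + 1) + 1) (by omega)
    rw [pow_succ, ← hB] at h1
    exact z7 h1 hX16z hB1
  have hszB : ∀ (j : ℕ) (T : Finset ι), T ⊆ D.S → j ≤ 2 ^ D.k →
      |D.px j T| ≤ B ∧ |D.py T| ≤ B := by
    intro j T hT hj
    rw [hB, hXz]
    exact hsz j T hT hj
  have hsplit : ∀ a b c : ℕ, a + b + c + 100 ≤ Y → a ≤ Y ∧ b ≤ Y ∧ c ≤ Y ∧ 100 ≤ Y := by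
    intro a b c h
    omega
  obtain ⟨hWYn', hKY, h2kY, hY100⟩ := hsplit _ _ _ hY
  clear hsplit
  have hWYn : D.W ≤ Y := hWYn'
  clear hY hWYn'
  have hY2 : 2 ≤ Y := le_trans (by norm_num) hY100
  have hYr : (16 : ℤ) ≤ Y := by
    have : 16 ≤ Y := le_trans (by norm_num) hY100
    exact_mod_cast this
  have hY1 : (1 : ℤ) ≤ Y := by linarith
  have hY0 : (0 : ℤ) ≤ Y := by linarith
  have hWY : (D.W : ℤ) ≤ Y := by exact_mod_cast hWYn
  have hW0 : (0 : ℤ) < D.W := by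
    have : 0 < D.W := primorial_pos _
    exact_mod_cast this
  -- the residue of `n₀`
  obtain ⟨n, hndef⟩ : ∃ n, n = D.n₀ % (D.W : ℤ) := ⟨_, rfl⟩
  have hn0 : 0 ≤ n := by rw [hndef]; exact Int.emod_nonneg _ hW0.ne'
  have hnW : n < D.W := by rw [hndef]; exact Int.emod_lt_of_pos _ hW0
  have hn : (D.W : ℤ) ∣ n - D.n₀ := by
    rw [hndef, ← neg_sub]
    exact dvd_neg.mpr Int.dvd_self_sub_emod
  obtain ⟨l, hl⟩ : ∃ l, l = D.a D.o * n + D.b D.o := ⟨_, rfl⟩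
  have hcl : IsCoprime l (D.W : ℤ) := by
    apply cop_of_primes
    intro p hp h1 h2
    refine D.hn₀ D.o p hp ((dvd_W D hp).1 h2) ?_
    have h3 : D.a D.o * D.n₀ + D.b D.o = l - D.a D.o * (n - D.n₀) := by
      rw [hl]
      ring
    rw [h3]
    exact dvd_sub h1 ((h2.trans hn).mul_left _)
  obtain ⟨ω', v', hω'⟩ := hcl
  obtain ⟨ω, hωdef⟩ : ∃ ω, ω = (ω' * r) % (D.W : ℤ) := ⟨_, rfl⟩
  have hω0 : 0 ≤ ω := by rw [hωdef]; exact Int.emod_nonneg _ hW0.ne'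
  have hωW : ω < D.W := by rw [hωdef]; exact Int.emod_lt_of_pos _ hW0
  have hωd : (D.W : ℤ) ∣ ω' * r - ω := by
    rw [hωdef]
    exact Int.dvd_self_sub_emod
  obtain ⟨q₁, hq'⟩ : (D.W : ℤ) ∣ r - ω * l := by
    have h3 : r - ω * l = (ω' * r - ω) * l + D.W * (v' * r) := by
      linear_combination (-r) * hω'
    rw [h3]
    exact dvd_add (hωd.mul_right _) (dvd_mul_right _ _)
  have hq : r = ω * (D.a D.o * n + D.b D.o) + D.W * q₁ := by
    rw [← hl]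
    linarith
  -- Bezout
  obtain ⟨x₀, y₀, hxy₀⟩ := D.hab D.o
  obtain ⟨x₁, hx₁⟩ : ∃ x₁, x₁ = x₀ % D.b D.o := ⟨_, rfl⟩
  have hbo := D.hb D.o
  have hao := D.ha D.o
  have hx0 : 0 ≤ x₁ := by rw [hx₁]; exact Int.emod_nonneg _ hbo.ne'
  have hxb : x₁ < D.b D.o := by rw [hx₁]; exact Int.emod_lt_of_pos _ hbo
  have hxd : D.b D.o ∣ x₀ - x₁ := by
    rw [hx₁]
    exact Int.dvd_self_sub_emod
  obtain ⟨y₁, hy₁⟩ : D.b D.o ∣ 1 - x₁ * D.a D.o := by
    have h3 : 1 - x₁ * D.a D.o = (x₀ - x₁) * D.a D.o + D.b D.o * y₀ := by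
      linear_combination -hxy₀
    rw [h3]
    exact dvd_add (hxd.mul_right _) (dvd_mul_right _ _)
  have hxy : x₁ * D.a D.o + y₁ * D.b D.o = 1 := by linarith
  have hxY : |x₁| ≤ Y := by
    rw [abs_of_nonneg hx0]
    have := D.hbQ D.o
    linarith
  have hyY : |y₁| ≤ Y := by
    have h1 : |D.b D.o * y₁| ≤ 1 + D.Q * D.Q := by
      rw [← hy₁]
      have h2 : |1 - x₁ * D.a D.o| ≤ |(1 : ℤ)| + |x₁ * D.a D.o| := abs_sub _ _
      rw [abs_one, abs_mul, abs_of_nonneg hx0, abs_of_pos hao] at h2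
      have h3 : x₁ * D.a D.o ≤ D.Q * D.Q :=
        mul_le_mul (hxb.le.trans (D.hbQ D.o)) (D.haQ D.o) hao.le (by positivity)
      linarith
    rw [abs_mul, abs_of_pos hbo] at h1
    have h2 : |y₁| ≤ D.b D.o * |y₁| := le_mul_of_one_le_left (abs_nonneg _) hbo
    have h3 : (D.Q : ℤ) * D.Q = (D.Q : ℤ) ^ 2 := by ring
    have h4 := h2.trans h1
    rw [h3] at h4
    exact h4.trans (by rw [add_comm]; exact hQ2)
  -- PP
  obtain ⟨PP, hPPdef⟩ : ∃ PP : ℤ, PP = ∏ m ∈ Finset.range (2 ^ (D.k + 1) + 1),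
    (r + (m : ℤ) * D.P * δ) := ⟨_, rfl⟩
  have hPPpos : 0 < PP := by
    rw [hPPdef]
    apply Finset.prod_pos
    intro m _
    positivity
  have hPPdvd : ∀ m : ℕ, m ≤ 2 ^ (D.k + 1) → (r + m * D.P * δ) ∣ PP := by
    intro m hm
    rw [hPPdef]
    exact Finset.dvd_prod_of_mem (fun m : ℕ => r + (m : ℤ) * D.P * δ)
      (Finset.mem_range.mpr (by omega))
  have hPPrough : Rough Y PP := by
    intro p hp hpY hpP
    rw [hPPdef] at hpP
    obtain ⟨m, hm, hpm⟩ := (Nat.prime_iff_prime_int.mp hp).exists_mem_finset_dvd hpP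
    have hm' := Finset.mem_range.mp hm
    exact hrough m (by omega) p hp hpY hpm
  have hPPle : PP ≤ (Y : ℤ) ^ e := by
    have h1 : PP ≤ ∏ m ∈ Finset.range (2 ^ (D.k + 1) + 1), (Y : ℤ) ^ (C₁ + 3) := by
      rw [hPPdef]
      apply Finset.prod_le_prod
      · intro m _
        positivity
      · intro m hm
        have hm' := Finset.mem_range.mp hm
        have hm'' : (m : ℤ) ≤ Y := by exact_mod_cast (by omega : m ≤ Y)
        calc r + (m : ℤ) * D.P * δ ≤ (Y : ℤ) ^ C₁ + Y * Y * (Y : ℤ) ^ C₁ := by gcongr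
          _ = (Y : ℤ) ^ C₁ * (1 + Y * Y) := by ring
          _ ≤ (Y : ℤ) ^ C₁ * (Y * Y * Y) :=
              mul_le_mul_of_nonneg_left (z1 hYr) (by positivity)
          _ = (Y : ℤ) ^ (C₁ + 3) := by ring
    rwa [Finset.prod_const, Finset.card_range, ← pow_mul, ← he] at h1
  -- invertibility of `W a_o` modulo `PP`
  have hcop : IsCoprime (D.W * D.a D.o : ℤ) PP := by
    apply cop_of_primes
    intro p hp h1 h2
    have hpY : p ≤ Y := by
      rcases (Nat.prime_iff_prime_int.mp hp).dvd_or_dvd h1 with h | h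
      · exact ((dvd_W D hp).1 h).trans hKY
      · have h3 := Int.le_of_dvd hao h
        have h4 := D.haQ D.o
        have h5 : (p : ℤ) ≤ Y := by linarith
        exact_mod_cast h5
    exact hPPrough p hp hpY h2
  obtain ⟨x₂, y₂, hxy₂⟩ := hcop
  obtain ⟨κ, hκ⟩ : ∃ κ : ℤ, κ = B + 1 := ⟨_, rfl⟩
  set s₁ : ℤ := x₂ * (κ * δ - ω - D.W * q₁ * y₁) with hs₁
  set s : ℤ := s₁ % PP with hs
  have hs0 : 0 ≤ s := Int.emod_nonneg _ hPPpos.ne'
  have hsP : s < PP := Int.emod_lt_of_pos _ hPPpos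
  have hsmod : PP ∣ s₁ - s := by
    rw [hs]
    exact Int.dvd_self_sub_emod
  set u : ℤ := ω * n + D.W * q₁ * x₁ - s * (D.W * D.b D.o) with hu
  set w : ℤ := ω + D.W * q₁ * y₁ + s * (D.W * D.a D.o) with hw
  have hPw : PP ∣ w - κ * δ := by
    have h1 : w - κ * δ = -((s₁ - s) * (D.W * D.a D.o)) -
        PP * (y₂ * (κ * δ - ω - D.W * q₁ * y₁)) := by
      rw [hw, hs₁]
      linear_combination (κ * δ - ω - D.W * q₁ * y₁) * hxy₂
    rw [h1]
    exact dvd_sub (dvd_neg.mpr (hsmod.mul_right _)) (dvd_mul_right _ _)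
  -- sizes
  have hpE : ∀ j, j ≤ E → (Y : ℤ) ^ j ≤ (Y : ℤ) ^ E := fun j hj => pow_le_pow_right₀ hY1 hj
  have hωY : ω ≤ Y := hωW.le.trans hWY
  have hnY : n ≤ Y := hnW.le.trans hWY
  have haY : ∀ j, D.a j ≤ (Y : ℤ) := fun j => (D.haQ j).trans hQY
  have hbY : ∀ j, D.b j ≤ (Y : ℤ) := fun j => (D.hbQ j).trans hQY
  have hWq : |D.W * q₁| ≤ (Y : ℤ) ^ (C₁ + 5) := by
    have h1 : (D.W * q₁ : ℤ) = r - ω * (D.a D.o * n + D.b D.o) := by linarith
    rw [h1]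
    have h2 : (1 : ℤ) ≤ (Y : ℤ) ^ C₁ := one_le_pow₀ hY1
    have h0 : 0 ≤ D.a D.o * n + D.b D.o := by positivity
    have h4 : ω * (D.a D.o * n + D.b D.o) ≤ (Y : ℤ) ^ 4 := by
      have h5 : D.a D.o * n + D.b D.o ≤ Y * Y + Y :=
        add_le_add (mul_le_mul (haY _) hnY hn0 hY0) (hbY _)
      calc ω * (D.a D.o * n + D.b D.o) ≤ Y * (Y * Y + Y) := mul_le_mul hωY h5 h0 hY0
        _ ≤ Y * (Y * Y * Y) := mul_le_mul_of_nonneg_left (z2 hYr) hY0
        _ = (Y : ℤ) ^ 4 := by ring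
    calc |r - ω * (D.a D.o * n + D.b D.o)| ≤ |r| + |ω * (D.a D.o * n + D.b D.o)| :=
          abs_sub _ _
      _ ≤ (Y : ℤ) ^ C₁ + (Y : ℤ) ^ 4 := by
          rw [abs_of_pos hr, abs_of_nonneg (mul_nonneg hω0 h0)]
          exact add_le_add hrY h4
      _ ≤ (Y : ℤ) ^ C₁ * (Y : ℤ) ^ 5 := by
          have h5 : (Y : ℤ) ^ 4 + 1 ≤ (Y : ℤ) ^ 5 := z3 hYr
          have h8 : (0 : ℤ) ≤ ((Y : ℤ) ^ C₁ - 1) * ((Y : ℤ) ^ 5 - 1) :=
            mul_nonneg (by linarith) (by have := one_le_pow₀ hY1 (n := 4); linarith)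
          linarith
      _ = (Y : ℤ) ^ (C₁ + 5) := by ring
  have hprod1 : ∀ z : ℤ, |z| ≤ (Y : ℤ) → |D.W * q₁ * z| ≤ (Y : ℤ) ^ E := by
    intro z hz
    rw [abs_mul]
    calc |D.W * q₁| * |z| ≤ (Y : ℤ) ^ (C₁ + 5) * Y := by gcongr
      _ = (Y : ℤ) ^ (C₁ + 6) := by ring
      _ ≤ (Y : ℤ) ^ E := hpE _ (by omega)
  have hprod2 : ∀ z : ℤ, |z| ≤ (Y : ℤ) → |s * (D.W * z)| ≤ (Y : ℤ) ^ E := by
    intro z hz
    rw [abs_mul, abs_mul, abs_of_nonneg hs0, abs_of_pos hW0]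
    calc s * (D.W * |z|) ≤ (Y : ℤ) ^ e * (Y * Y) := by
          gcongr
          exact hsP.le.trans hPPle
      _ = (Y : ℤ) ^ (e + 2) := by ring
      _ ≤ (Y : ℤ) ^ E := hpE _ (by omega)
  have hωn : |ω * n| ≤ (Y : ℤ) ^ E := by
    rw [abs_of_nonneg (mul_nonneg hω0 hn0)]
    calc ω * n ≤ Y * Y := mul_le_mul hωY hnY hn0 hY0
      _ = (Y : ℤ) ^ 2 := by ring
      _ ≤ (Y : ℤ) ^ E := hpE _ (by omega)
  have hωE : |ω| ≤ (Y : ℤ) ^ E := by
    rw [abs_of_nonneg hω0]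
    calc ω ≤ Y := hωY
      _ = (Y : ℤ) ^ 1 := (pow_one _).symm
      _ ≤ (Y : ℤ) ^ E := hpE _ (by omega)
  have habsb : ∀ j, |D.b j| ≤ (Y : ℤ) := fun j => by
    rw [abs_of_pos (D.hb j)]
    exact hbY j
  have habsa : ∀ j, |D.a j| ≤ (Y : ℤ) := fun j => by
    rw [abs_of_pos (D.ha j)]
    exact haY j
  have hu3 : |u| ≤ 3 * (Y : ℤ) ^ E := by
    have h1 := hprod1 x₁ hxY
    have h2 := hprod2 (D.b D.o) (habsb _)
    calc |u| ≤ |ω * n + D.W * q₁ * x₁| + |s * (D.W * D.b D.o)| := abs_sub _ _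
      _ ≤ |ω * n| + |D.W * q₁ * x₁| + |s * (D.W * D.b D.o)| := by
          gcongr
          exact abs_add_le _ _
      _ ≤ 3 * (Y : ℤ) ^ E := by linarith
  have hw3 : |w| ≤ 3 * (Y : ℤ) ^ E := by
    have h1 := hprod1 y₁ hyY
    have h2 := hprod2 (D.a D.o) (habsa _)
    calc |w| ≤ |ω + D.W * q₁ * y₁| + |s * (D.W * D.a D.o)| := abs_add_le _ _
      _ ≤ |ω| + |D.W * q₁ * y₁| + |s * (D.W * D.a D.o)| := by
          gcongr
          exact abs_add_le _ _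
      _ ≤ 3 * (Y : ℤ) ^ E := by linarith
  -- the sieve
  obtain ⟨t, ht0, ht1, ht⟩ := forms D C₂ hC₂ Y hY2 hKY hn hWδ hrough hq hxy hu hw hPPrough hpt
    (8 * (Y : ℤ) ^ (E + 1) + 1)
  have htpos : 0 < t := by
    have : (0 : ℤ) < (Y : ℤ) ^ (E + 1) := by positivity
    linarith
  have hLsmall : ∀ i, ∀ α β : ℤ, |α| ≤ B → |β| ≤ B →
      |D.L i (u + α * δ) (w + β * δ)| ≤ 8 * (Y : ℤ) ^ (E + 1) := by
    intro i α β hα hβ
    have hBY : B ≤ Y := by linarith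
    have h1 : ∀ γ : ℤ, |γ| ≤ B → |γ * δ| ≤ (Y : ℤ) ^ E := by
      intro γ hγ
      rw [abs_mul, abs_of_pos hδ]
      calc |γ| * δ ≤ Y * (Y : ℤ) ^ C₁ :=
            mul_le_mul (hγ.trans hBY) hδY hδ.le hY0
        _ = (Y : ℤ) ^ (C₁ + 1) := by ring
        _ ≤ (Y : ℤ) ^ E := hpE _ (by omega)
    have h2 : |u + α * δ| ≤ 4 * (Y : ℤ) ^ E := by
      have := abs_add_le u (α * δ)
      have := h1 α hα
      linarith
    have h3 : |w + β * δ| ≤ 4 * (Y : ℤ) ^ E := by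
      have := abs_add_le w (β * δ)
      have := h1 β hβ
      linarith
    calc |D.L i (u + α * δ) (w + β * δ)|
        ≤ |D.a i * (u + α * δ)| + |D.b i * (w + β * δ)| := abs_add_le _ _
      _ = |D.a i| * |u + α * δ| + |D.b i| * |w + β * δ| := by
          rw [abs_mul, abs_mul]
      _ ≤ Y * (4 * (Y : ℤ) ^ E) + Y * (4 * (Y : ℤ) ^ E) :=
          add_le_add (mul_le_mul (habsa i) h2 (abs_nonneg _) hY0)
            (mul_le_mul (habsb i) h3 (abs_nonneg _) hY0)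
      _ = 8 * (Y : ℤ) ^ (E + 1) := by ring
  have hYC : (1 : ℤ) ≤ (Y : ℤ) ^ C₂ := one_le_pow₀ hY1
  have htle : t ≤ 10 * (Y : ℤ) ^ (E + 1 + C₂) := by
    have h1 : (1 : ℤ) ≤ (Y : ℤ) ^ (E + 1) := one_le_pow₀ hY1
    have h2 : (Y : ℤ) ^ (E + 1 + C₂) = (Y : ℤ) ^ (E + 1) * (Y : ℤ) ^ C₂ := pow_add _ _ _
    rw [h2]
    exact z8 ht1 h1 hYC
  have hfinal : ∀ z x : ℤ, |z| ≤ (Y : ℤ) → |x| ≤ 3 * (Y : ℤ) ^ E →
      |x + t * PP * (D.W * z)| ≤ (Y : ℤ) ^ (E + 4 + C₂ + e) := by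
    intro z x hz hx
    have h1 : |t * PP * (D.W * z)| ≤ 10 * (Y : ℤ) ^ (E + 3 + C₂ + e) := by
      rw [abs_mul, abs_mul, abs_mul, abs_of_pos htpos, abs_of_pos hPPpos, abs_of_pos hW0]
      calc t * PP * (D.W * |z|)
          ≤ (10 * (Y : ℤ) ^ (E + 1 + C₂)) * (Y : ℤ) ^ e * (Y * Y) := by gcongr
        _ = 10 * (Y : ℤ) ^ (E + 3 + C₂ + e) := by ring
    have h2 : (Y : ℤ) ^ E ≤ (Y : ℤ) ^ (E + 3 + C₂ + e) := pow_le_pow_right₀ hY1 (by omega)
    have h3 : (Y : ℤ) ^ (E + 4 + C₂ + e) = (Y : ℤ) ^ (E + 3 + C₂ + e) * Y := by ring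
    have h4 : (0 : ℤ) < (Y : ℤ) ^ (E + 3 + C₂ + e) := by positivity
    have h5 := abs_add_le x (t * PP * (D.W * z))
    rw [h3]
    exact z9 (h5.trans (add_le_add hx h1)) h2 h4 hYr
  refine ⟨u + t * PP * (D.W * (-D.b D.o)), w + t * PP * (D.W * D.a D.o), ?_, ?_, ?_, ?_⟩
  · exact hfinal _ _ (by rw [abs_neg]; exact habsb _) hu3
  · exact hfinal _ _ (habsa _) hw3
  · simp only [US.L]
    rw [hu, hw]
    linear_combination (D.W * q₁ : ℤ) * hxy - hq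
  · intro j T hj hT
    obtain ⟨hα, hβ⟩ := hszB j T hT hj
    obtain ⟨hta, htb⟩ := ht j T hj hT
    have hβ' := abs_le.mp hβ
    have hm : j + T.card ≤ 2 ^ (D.k + 1) := by
      have h1 : T.card ≤ D.k := (Finset.card_le_card hT).trans (Finset.card_le_univ D.S)
      have h2 : D.k < 2 ^ D.k := Nat.lt_two_pow_self
      rw [pow_succ]
      omega
    have hshift : ∀ i, D.L i (u + t * PP * (D.W * (-D.b D.o)) + D.px j T * δ)
        (w + t * PP * (D.W * D.a D.o) + D.py T * δ) =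
        D.W * PP * (D.a D.o * D.b i - D.a i * D.b D.o) * t
          + D.L i (u + D.px j T * δ) (w + D.py T * δ) := by
      intro i
      simp only [US.L]
      ring
    refine good D Y (r := r) (δ := δ) (n := n) (ω := ω) (q₁ := q₁) (x₁ := x₁) (y₁ := y₁)
      (s := s + t * PP) (PP := PP) (κ := κ) hn hWδ hrδ hr hδ hPpos hrough hq hxy
      (by rw [hu]; ring) (by rw [hw]; ring) hPPdvd ?_ (D.px j T) (D.py T) (j + T.card) hm
      (hpt j T hT) (by rw [hκ]; linarith [hβ'.1]) (by rw [hκ]; linarith [hβ'.2]) ?_ ?_ ?_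
    · have h2 : w + t * PP * (D.W * D.a D.o) - κ * δ =
          (w - κ * δ) + PP * (t * (D.W * D.a D.o)) := by ring
      rw [h2]
      exact dvd_add hPw (dvd_mul_right _ _)
    · have h2 : w + t * PP * (D.W * D.a D.o) + D.py T * δ =
          D.W * PP * D.a D.o * t + (w + D.py T * δ) := by ring
      rw [h2]
      exact hta
    · intro i hi
      rw [hshift]
      exact htb i hi
    · intro i hiS hio
      rw [hshift]
      have h3 := abs_le.mp (hLsmall i _ _ hα hβ)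
      have h4 : (1 : ℤ) ≤ D.W * PP * (D.a D.o * D.b i - D.a i * D.b D.o) := by
        have := D.hmin i hiS hio
        have : 0 < D.W * PP * (D.a D.o * D.b i - D.a i * D.b D.o) := by positivity
        exact this
      exact z10 h4 ht0 (by positivity) h3.1

end Pool.Agent.H661R3.UP
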