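import Pool.Agent.H661R3.UP.UG
import Pool.Agent.H661R3.UP.ULA
import Pool.Agent.H661R3.UP.ULK
import Pool.Agent.H661R3.UP.UPT
import Pool.Agent.H661R3.UP.UEL
import Pool.Agent.H661R3.UP.UTAf
import Pool.Agent.H661R3.UP.UL3
import Pool.Agent.H661R3.UP.UNI
import Pool.Agent.H661R3.UP.UCH
import Pool.Agent.H661R3.UP.EA
import Pool.Agent.H661R3.UP.EX
import Pool.Agent.H661R3.UP.USU
import Pool.Agent.H661R3.UP.UM
import Pool.Agent.H661R3.UP.KT
import Pool.Agent.H661R3.OP.SV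
import Pool.Agent.H661R3.OP.CR

set_option autoImplicit false

namespace Pool.Agent.H661R3.UP

open Pool.Agent.H661R3.OP

theorem ulk : ULK := t_ULK (t_ULA t_SV) (t_UG t_SV t_CR)

theorem ul3 : UL3 := t_UL3 (t_UTA t_SV t_UPT) ulk t_UPT (t_UEL t_UPT)

theorem uni : UNI := t_UNI t_SV t_CR t_UPT ul3

theorem uch : UCH := t_UCH t_SV t_UPT uni

theorem um : UM := t_UM uch (t_EX t_EA)

theorem kt : KT := t_KT um (t_USU t_CR)

end Pool.Agent.H661R3.UP
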