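import Pool.Agent.H661R3.UP.Defs
import Pool.Agent.H661R3.OP.GB

/-! Task UG (helper613): the grid, uniform version. -/

set_option autoImplicit false

open Finset

namespace Pool.Agent.H661R3.UP

open Pool.Agent.H661R3.OP (Rough Add2 SV CR)

namespace UGp

theorem rough_ne {Y : ℕ} (hY : 2 ≤ Y) {m : ℤ} (hm : Rough Y m) : m ≠ 0 := by
  intro h0
  exact hm 2 Nat.prime_two hY (by rw [h0]; exact dvd_zero _)

theorem rough_dvd {Y : ℕ} {m k : ℤ} (hm : Rough Y m) (hk : k ∣ m) : Rough Y k := by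
  intro p hp hpY hpk
  exact hm p hp hpY (hpk.trans hk)

theorem side {ι : Type} [Fintype ι] (D : US ι) (F : ℤ → ZMod 2) (hF : Add2 F)
    (c : ZMod 2) (Y : ℕ) (Z : ℤ) (X P T w : ℤ) (hY : 2 ≤ Y)
    (hA : ∀ j ∈ D.S, 0 < D.L j P w)
    (hQ : ∀ i j, Rough Y (D.a i * D.a j * X + D.a i * D.b j * T + D.b i * D.a j * P
      + D.b i * D.b j * w))
    (hd : ∀ j ∈ D.S, D.L j P w ∣ D.L j X T)
    (hp : ∀ j ∈ D.S, 0 < D.L j X T ∧ D.L j X T ≤ Z)
    (hE : D.Cst F c Y Z) :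
    ∑ j ∈ D.S, ∑ i ∈ D.S, F (D.a i * D.a j * X + D.a i * D.b j * T + D.b i * D.a j * P
      + D.b i * D.b j * w) = (D.S.card : ZMod 2) * D.R F P w + (D.S.card : ZMod 2) * c := by
  have key : ∀ j ∈ D.S, ∑ i ∈ D.S, F (D.a i * D.a j * X + D.a i * D.b j * T + D.b i * D.a j * P
      + D.b i * D.b j * w) = (D.S.card : ZMod 2) * F (D.L j P w) + c := by
    intro j hj
    set A := D.L j P w with hAdef
    obtain ⟨n, hn⟩ := hd j hj
    have hA0 : 0 < A := hA j hj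
    have e1 : ∀ i, D.a i * D.a j * X + D.a i * D.b j * T + D.b i * D.a j * P
      + D.b i * D.b j * w = A * D.L i n 1 := by
      intro i
      have h1 : A * D.L i n 1 = D.a i * (A * n) + D.b i * A := by
        unfold US.L; ring
      rw [h1, ← hn, hAdef]
      unfold US.L
      ring
    have hr : ∀ i, Rough Y (D.L i n 1) := by
      intro i
      have h1 := hQ i j
      rw [e1 i] at h1
      exact rough_dvd h1 (Dvd.intro_left _ rfl)
    have hn0 : 0 < n := by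
      have h1 := (hp j hj).1
      rw [hn] at h1
      exact (mul_pos_iff_of_pos_left hA0).mp h1
    have hnZ : n ≤ Z := by
      have h1 := (hp j hj).2
      rw [hn] at h1
      nlinarith
    have hR : D.R F n 1 = c := hE n hn0 hnZ hr
    have e2 : ∀ i ∈ D.S, F (D.a i * D.a j * X + D.a i * D.b j * T + D.b i * D.a j * P
      + D.b i * D.b j * w) = F A + F (D.L i n 1) := by
      intro i _
      rw [e1 i]
      exact hF _ _ hA0.ne' (rough_ne hY (hr i))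
    rw [Finset.sum_congr rfl e2, Finset.sum_add_distrib, Finset.sum_const, nsmul_eq_mul]
    rw [← hR]
    rfl
  rw [Finset.sum_congr rfl key, Finset.sum_add_distrib, Finset.sum_const, nsmul_eq_mul,
    ← Finset.mul_sum]
  rfl

theorem alg {ι : Type} [Fintype ι] (D : US ι) (F : ℤ → ZMod 2) (hF : Add2 F)
    (c : ZMod 2) (Y : ℕ) (Z : ℤ) (X U V w : ℤ) (hY : 2 ≤ Y)
    (hA : ∀ j ∈ D.S, 0 < D.L j U w ∧ 0 < D.L j V w)
    (hQ : ∀ i j, Rough Y (D.a i * D.a j * X + D.a i * D.b j * V + D.b i * D.a j * U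
      + D.b i * D.b j * w))
    (hd : ∀ j ∈ D.S, D.L j U w ∣ D.L j X V ∧ D.L j V w ∣ D.L j X U)
    (hp : ∀ j ∈ D.S, 0 < D.L j X V ∧ D.L j X V ≤ Z ∧ 0 < D.L j X U ∧ D.L j X U ≤ Z)
    (hE : D.Cst F c Y Z) :
    D.R F U w = D.R F V w := by
  have s1 := side D F hF c Y Z X U V w hY (fun j hj => (hA j hj).1) hQ
    (fun j hj => (hd j hj).1) (fun j hj => ⟨(hp j hj).1, (hp j hj).2.1⟩) hE
  have s2 := side D F hF c Y Z X V U w hY (fun j hj => (hA j hj).2) (fun i j => by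
      have := hQ j i
      have e : D.a i * D.a j * X + D.a i * D.b j * U + D.b i * D.a j * V + D.b i * D.b j * w =
        D.a j * D.a i * X + D.a j * D.b i * V + D.b j * D.a i * U + D.b j * D.b i * w := by ring
      rw [e]; exact this)
    (fun j hj => (hd j hj).2) (fun j hj => ⟨(hp j hj).2.2.1, (hp j hj).2.2.2⟩) hE
  have hcard : (D.S.card : ZMod 2) = 1 := by
    rw [ZMod.natCast_eq_one_iff_odd]
    exact D.hS
  rw [hcard, one_mul, one_mul] at s1 s2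
  have e : ∑ j ∈ D.S, ∑ i ∈ D.S, F (D.a i * D.a j * X + D.a i * D.b j * V + D.b i * D.a j * U
      + D.b i * D.b j * w) = ∑ j ∈ D.S, ∑ i ∈ D.S, F (D.a i * D.a j * X + D.a i * D.b j * U +
        D.b i * D.a j * V + D.b i * D.b j * w) := by
    rw [Finset.sum_comm]
    apply Finset.sum_congr rfl
    intro j _
    apply Finset.sum_congr rfl
    intro i _
    congr 1
    ring
  rw [s1, s2] at e
  exact add_right_cancel e

theorem Wdvd {ι : Type} [Fintype ι] (D : US ι) {p : ℕ} (hp : p.Prime) :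
    p ∣ D.W ↔ p ≤ KK D.k := by
  unfold US.W
  exact hp.dvd_primorial_iff

theorem pairU {ι : Type} [Fintype ι] (D : US ι) {Y : ℕ} (hbig : 2 * D.Q ^ 2 ≤ Y) {U w : ℤ}
    (h : D.Good Y U w) (i j : ι) (hij : i ≠ j) :
    IsCoprime (D.L i U w) (D.L j U w) := by
  apply OP.GB.coprime_of_primes
  intro p hp h1 h2
  have hpr := OP.GB.cast_prime hp
  have hpY : Y < p := by
    by_contra hle
    exact h.2.2.2.1 i p hp (not_lt.mp hle) h1
  have h3 : (p : ℤ) ∣ (D.a i * D.b j - D.a j * D.b i) * w := by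
    have h4 : (D.a i * D.b j - D.a j * D.b i) * w = D.a i * D.L j U w - D.a j * D.L i U w := by
      unfold US.L; ring
    rw [h4]
    exact dvd_sub (h2.mul_left _) (h1.mul_left _)
  have hQ1 : ∀ i, 0 < D.a i ∧ D.a i ≤ D.Q := fun i => ⟨D.ha i, D.haQ i⟩
  have hQ2 : ∀ i, 0 < D.b i ∧ D.b i ≤ D.Q := fun i => ⟨D.hb i, D.hbQ i⟩
  have hQ0 : (0 : ℤ) ≤ D.Q := by positivity
  rcases hpr.dvd_or_dvd h3 with h4 | h4
  · have h5 : (p : ℤ) ≤ |D.a i * D.b j - D.a j * D.b i| :=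
      Int.le_of_dvd (abs_pos.mpr (D.hdet i j hij)) ((dvd_abs _ _).mpr h4)
    have h6 : |D.a i * D.b j - D.a j * D.b i| ≤ 2 * (D.Q : ℤ) ^ 2 := by
      have e1 : D.a i * D.b j ≤ D.Q * D.Q :=
        mul_le_mul (hQ1 i).2 (hQ2 j).2 (hQ2 j).1.le hQ0
      have e2 : D.a j * D.b i ≤ D.Q * D.Q :=
        mul_le_mul (hQ1 j).2 (hQ2 i).2 (hQ2 i).1.le hQ0
      have e3 : 0 < D.a i * D.b j := mul_pos (hQ1 i).1 (hQ2 j).1
      have e4 : 0 < D.a j * D.b i := mul_pos (hQ1 j).1 (hQ2 i).1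
      rw [abs_le]
      constructor <;> nlinarith
    have h7 : 2 * (D.Q : ℤ) ^ 2 ≤ (Y : ℤ) := by exact_mod_cast hbig
    have h8 : (Y : ℤ) < (p : ℤ) := by exact_mod_cast hpY
    linarith
  · -- p ∣ w
    have h5 : (p : ℤ) ∣ D.a i * U := by
      have h6 : D.a i * U = D.L i U w - D.b i * w := by unfold US.L; ring
      rw [h6]
      exact dvd_sub h1 (h4.mul_left _)
    rcases hpr.dvd_or_dvd h5 with h6 | h6
    · have h7 : (p : ℤ) ≤ D.a i := Int.le_of_dvd (D.ha i) h6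
      have h8 : (p : ℤ) ≤ D.Q := h7.trans (D.haQ i)
      have h9 : p ≤ D.Q := by exact_mod_cast h8
      have h10 : D.Q ≤ 2 * D.Q ^ 2 := by
        rcases Nat.eq_zero_or_pos D.Q with h0 | h0
        · rw [h0]; simp
        · nlinarith
      omega
    · exact OP.GB.prime_of_coprime h.2.2.1 hp h6 h4

theorem crt {ι : Type} [Fintype ι] (D : US ι) (hCR : CR) {Y : ℕ} (hbig : 2 * D.Q ^ 2 ≤ Y)
    (hKY : KK D.k ≤ Y) {U V w : ℤ}
    (hU : D.Good Y U w) (hV : D.Good Y V w)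
    (hUV : ∀ i ∈ D.S, ∀ j ∈ D.S, IsCoprime (D.L i U w) (D.L j V w)) :
    ∃ X : ℤ, (D.W : ℤ) ∣ X - D.n₀ ^ 2 * w ∧
      ∀ j ∈ D.S, D.L j U w ∣ D.L j X V ∧ D.L j V w ∣ D.L j X U := by
  classical
  have hQY : D.Q ≤ Y := by
    refine le_trans ?_ hbig
    rcases Nat.eq_zero_or_pos D.Q with h0 | h0
    · rw [h0]; simp
    · nlinarith
  have hinv : ∀ (x : ℤ) (j : ι), Rough Y x → ∀ y : ℤ, ∃ r : ℤ, x ∣ D.a j * r + D.b j * y := by
    intro x j hx y
    have hc : IsCoprime (D.a j) x := by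
      apply OP.GB.coprime_of_primes
      intro p hp h1 h2
      refine hx p hp ?_ h2
      have h3 : (p : ℤ) ≤ D.a j := Int.le_of_dvd (D.ha j) h1
      have h4 := D.haQ j
      have h5 : (p : ℤ) ≤ (D.Q : ℤ) := h3.trans h4
      have h6 : p ≤ D.Q := by exact_mod_cast h5
      exact h6.trans hQY
    obtain ⟨u, v, huv⟩ := hc
    exact ⟨-u * D.b j * y, ⟨v * D.b j * y, by linear_combination (-(D.b j * y)) * huv⟩⟩
  have hWr : ∀ x : ℤ, Rough Y x → IsCoprime (D.W : ℤ) x := by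
    intro x hx
    apply OP.GB.coprime_of_primes
    intro p hp h1 h2
    refine hx p hp ?_ h2
    exact ((Wdvd D hp).mp (Int.natCast_dvd_natCast.mp h1)).trans hKY
  choose r1 hr1 using fun j : D.S => hinv (D.L j U w) j (hU.2.2.2.1 j) V
  choose r2 hr2 using fun j : D.S => hinv (D.L j V w) j (hV.2.2.2.1 j) U
  obtain ⟨X, hX⟩ := hCR (Option (D.S ⊕ D.S))
    (fun x => match x with
      | none => (D.W : ℤ)
      | some (Sum.inl j) => D.L j U w
      | some (Sum.inr j) => D.L j V w)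
    (fun x => match x with
      | none => D.n₀ ^ 2 * w
      | some (Sum.inl j) => r1 j
      | some (Sum.inr j) => r2 j) (by
    intro x y hxy
    match x, y with
    | none, none => exact absurd rfl hxy
    | none, some (Sum.inl j) => exact hWr _ (hU.2.2.2.1 j)
    | none, some (Sum.inr j) => exact hWr _ (hV.2.2.2.1 j)
    | some (Sum.inl j), none => exact (hWr _ (hU.2.2.2.1 j)).symm
    | some (Sum.inr j), none => exact (hWr _ (hV.2.2.2.1 j)).symm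
    | some (Sum.inl i), some (Sum.inl j) =>
      exact pairU D hbig hU i j (fun h => hxy (by rw [Subtype.ext h]))
    | some (Sum.inr i), some (Sum.inr j) =>
      exact pairU D hbig hV i j (fun h => hxy (by rw [Subtype.ext h]))
    | some (Sum.inl i), some (Sum.inr j) => exact hUV i i.2 j j.2
    | some (Sum.inr i), some (Sum.inl j) => exact (hUV j j.2 i i.2).symm)
  refine ⟨X, hX none, fun j hj => ⟨?_, ?_⟩⟩
  · have h1 : D.L j U w ∣ X - r1 ⟨j, hj⟩ := hX (some (Sum.inl ⟨j, hj⟩))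
    have h2 : D.L j U w ∣ D.a j * r1 ⟨j, hj⟩ + D.b j * V := hr1 ⟨j, hj⟩
    have h3 : D.L j X V = D.a j * (X - r1 ⟨j, hj⟩) + (D.a j * r1 ⟨j, hj⟩ + D.b j * V) := by
      unfold US.L; ring
    rw [h3]
    exact dvd_add (Dvd.dvd.mul_left h1 _) h2
  · have h1 : D.L j V w ∣ X - r2 ⟨j, hj⟩ := hX (some (Sum.inr ⟨j, hj⟩))
    have h2 : D.L j V w ∣ D.a j * r2 ⟨j, hj⟩ + D.b j * U := hr2 ⟨j, hj⟩
    have h3 : D.L j X U = D.a j * (X - r2 ⟨j, hj⟩) + (D.a j * r2 ⟨j, hj⟩ + D.b j * U) := by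
      unfold US.L; ring
    rw [h3]
    exact dvd_add (Dvd.dvd.mul_left h1 _) h2

theorem L_le {ι : Type} [Fintype ι] (D : US ι) (j : ι) {x y M : ℤ} (hx : |x| ≤ M) (hy : |y| ≤ M) :
    |D.b j * x| ≤ D.Q * M ∧ D.L j x y ≤ 2 * D.Q * M := by
  have hM : 0 ≤ M := (abs_nonneg _).trans hx
  have ha : |D.a j| ≤ D.Q := by rw [abs_of_pos (D.ha j)]; exact D.haQ j
  have hb : |D.b j| ≤ D.Q := by rw [abs_of_pos (D.hb j)]; exact D.hbQ j
  have h1 : |D.b j * x| ≤ D.Q * M := by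
    rw [abs_mul]
    exact mul_le_mul hb hx (abs_nonneg _) (by positivity)
  have h2 : |D.b j * y| ≤ D.Q * M := by
    rw [abs_mul]
    exact mul_le_mul hb hy (abs_nonneg _) (by positivity)
  have h3 : |D.a j * x| ≤ D.Q * M := by
    rw [abs_mul]
    exact mul_le_mul ha hx (abs_nonneg _) (by positivity)
  refine ⟨h1, ?_⟩
  unfold US.L
  have h4 := le_abs_self (D.a j * x)
  have h5 := le_abs_self (D.b j * y)
  linarith

/-- the sieve input: a prime at most `Y` does not divide both coefficients -/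
theorem unit {ι : Type} [Fintype ι] (D : US ι) {Y : ℕ} {U V w X G : ℤ}
    (hU : D.Good Y U w) (hV : D.Good Y V w)
    (hX : (D.W : ℤ) ∣ X - D.n₀ ^ 2 * w) (hG : Rough Y G) (i j : ι) (p : ℕ) (hp : p.Prime)
    (hpY : p ≤ Y) (hd : (p : ℤ) ∣ D.a i * D.a j * (G * D.W)) :
    ¬ (p : ℤ) ∣ D.a i * D.a j * X + D.a i * D.b j * V + D.b i * D.a j * U + D.b i * D.b j * w := by
  have hpr := OP.GB.cast_prime hp
  intro h
  rcases hpr.dvd_or_dvd hd with h0 | h0
  · rcases hpr.dvd_or_dvd h0 with h1 | h1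
    · -- p ∣ a i
      have h2 : (p : ℤ) ∣ D.b i * D.L j U w := by
        have e1 : D.b i * D.L j U w = D.a i * D.a j * X + D.a i * D.b j * V + D.b i * D.a j * U
            + D.b i * D.b j * w - D.a i * (D.a j * X + D.b j * V) := by
          unfold US.L; ring
        rw [e1]
        exact dvd_sub h (h1.mul_right _)
      rcases hpr.dvd_or_dvd h2 with h3 | h3
      · exact OP.GB.prime_of_coprime (D.hab i) hp h1 h3
      · exact hU.2.2.2.1 j p hp hpY h3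
    · have h2 : (p : ℤ) ∣ D.b j * D.L i V w := by
        have e1 : D.b j * D.L i V w = D.a i * D.a j * X + D.a i * D.b j * V + D.b i * D.a j * U
            + D.b i * D.b j * w - D.a j * (D.a i * X + D.b i * U) := by
          unfold US.L; ring
        rw [e1]
        exact dvd_sub h (h1.mul_right _)
      rcases hpr.dvd_or_dvd h2 with h3 | h3
      · exact OP.GB.prime_of_coprime (D.hab j) hp h1 h3
      · exact hV.2.2.2.1 i p hp hpY h3
  · rcases hpr.dvd_or_dvd h0 with h1 | h1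
    · exact hG p hp hpY h1
    · have hpK : p ≤ KK (Fintype.card ι) := (Wdvd D hp).mp (Int.natCast_dvd_natCast.mp h1)
      have h2 : (p : ℤ) ∣ w * ((D.a i * D.n₀ + D.b i) * (D.a j * D.n₀ + D.b j)) := by
        have e1 := (h1.trans hU.2.1).mul_left (D.b i * D.a j)
        have e2 := (h1.trans hV.2.1).mul_left (D.a i * D.b j)
        have e3 := (h1.trans hX).mul_left (D.a i * D.a j)
        have e4 := ((h.sub e1).sub e2).sub e3
        have e5 : w * ((D.a i * D.n₀ + D.b i) * (D.a j * D.n₀ + D.b j)) =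
            D.a i * D.a j * X + D.a i * D.b j * V + D.b i * D.a j * U + D.b i * D.b j * w -
            D.b i * D.a j * (U - D.n₀ * w) - D.a i * D.b j * (V - D.n₀ * w) -
            D.a i * D.a j * (X - D.n₀ ^ 2 * w) := by ring
        rw [e5]; exact e4
      rcases hpr.dvd_or_dvd h2 with h2 | h2
      · exact hU.1 p hp hpY h2
      · rcases hpr.dvd_or_dvd h2 with h3 | h3
        · exact D.hn₀ i p hp hpK h3
        · exact D.hn₀ j p hp hpK h3

end UGp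

theorem t_UG (hSV : SV) (hCR : CR) : UG := by
  classical
  intro k C₁
  obtain ⟨Cs, hCs⟩ := hSV (k * k)
  refine ⟨2 * k * (C₁ + 1) + Cs + C₁ + 3, primorial (KK k) + KK k + 2, ?_⟩
  intro ι _ D hDk F hF c Y Z hY hBig hZY hCst U V w hUb hVb hwb hU hV hUV
  set C := 2 * k * (C₁ + 1) + Cs + C₁ + 3 with hC
  have hcard : Fintype.card ι = k := hDk
  have hWe : D.W = primorial (KK k) := by unfold US.W; rw [hDk]
  have hWpos : 0 < D.W := by rw [hWe]; exact primorial_pos _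
  have hWY : D.W ≤ Y := by rw [hWe]; omega
  have hKY : KK D.k ≤ Y := by rw [hDk]; omega
  have hY2 : 2 ≤ Y := by omega
  have hQY : 16 * D.Q ≤ Y := by
    rcases Nat.eq_zero_or_pos D.Q with h0 | h0
    · rw [h0]; simp
    · refine le_trans ?_ hBig
      exact Nat.le_self_pow (by omega) _
  have hQ2Y : 2 * D.Q ^ 2 ≤ Y := by
    refine le_trans ?_ hBig
    rcases Nat.eq_zero_or_pos D.Q with h0 | h0
    · rw [h0]; simp
    · calc 2 * D.Q ^ 2 ≤ (16 * D.Q) ^ 2 := by nlinarith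
        _ ≤ (16 * D.Q) ^ (10 * (D.k + 1)) := Nat.pow_le_pow_right (by omega) (by omega)
  have hoS := D.ho
  have hQ1 : 1 ≤ D.Q := by
    have h1 := D.ha D.o
    have h2 := D.haQ D.o
    have h3 : (0 : ℤ) < D.Q := lt_of_lt_of_le h1 h2
    exact_mod_cast h3
  have hYpos : (0 : ℤ) < (Y : ℤ) := by exact_mod_cast (by omega : 0 < Y)
  have hY1 : (1 : ℤ) ≤ (Y : ℤ) := by exact_mod_cast (by omega : 1 ≤ Y)
  have hpow : ∀ m n : ℕ, m ≤ n → (Y : ℤ) ^ m ≤ (Y : ℤ) ^ n := fun m n h =>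
    pow_le_pow_right₀ hY1 h
  have hUS : ∀ j ∈ D.S, 0 < D.L j U w := hU.2.2.2.2
  have hVS : ∀ j ∈ D.S, 0 < D.L j V w := hV.2.2.2.2
  set G1 := ∏ j ∈ D.S, D.L j U w with hG1
  set G2 := ∏ j ∈ D.S, D.L j V w with hG2
  have hG1p : 0 < G1 := Finset.prod_pos (fun j hj => hUS j hj)
  have hG2p : 0 < G2 := Finset.prod_pos (fun j hj => hVS j hj)
  have hG1r : Rough Y G1 := OP.GB.rough_prod _ _ (fun j _ => hU.2.2.2.1 j)
  have hG2r : Rough Y G2 := OP.GB.rough_prod _ _ (fun j _ => hV.2.2.2.1 j)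
  have hGr : Rough Y (G1 * G2) := by
    intro p hp hpY hd
    rcases (OP.GB.cast_prime hp).dvd_or_dvd hd with h | h
    · exact hG1r p hp hpY h
    · exact hG2r p hp hpY h
  have hSk : D.S.card ≤ k := by rw [← hcard]; exact Finset.card_le_univ _
  have hGb : ∀ x : ℤ, |x| ≤ (Y : ℤ) ^ C₁ → (∀ j ∈ D.S, 0 < D.L j x w) →
      ∏ j ∈ D.S, D.L j x w ≤ (Y : ℤ) ^ (k * (C₁ + 1)) := by
    intro x hx hpos
    calc ∏ j ∈ D.S, D.L j x w ≤ ∏ j ∈ D.S, (Y : ℤ) ^ (C₁ + 1) := by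
          apply Finset.prod_le_prod (fun j hj => (hpos j hj).le)
          intro j _
          have h1 := (UGp.L_le D j hx hwb).2
          calc D.L j x w ≤ 2 * D.Q * (Y : ℤ) ^ C₁ := h1
            _ ≤ Y * (Y : ℤ) ^ C₁ := by
              apply mul_le_mul_of_nonneg_right _ (by positivity)
              exact_mod_cast (by omega : 2 * D.Q ≤ Y)
            _ = (Y : ℤ) ^ (C₁ + 1) := by ring
      _ = (Y : ℤ) ^ ((C₁ + 1) * D.S.card) := by rw [Finset.prod_const, ← pow_mul]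
      _ ≤ (Y : ℤ) ^ (k * (C₁ + 1)) := by
        apply hpow
        rw [mul_comm k]
        exact Nat.mul_le_mul_left _ hSk
  have hG1b := hGb U hUb (fun j hj => hUS j hj)
  have hG2b := hGb V hVb (fun j hj => hVS j hj)
  set G := G1 * G2 with hG
  have hGp : 0 < G := mul_pos hG1p hG2p
  have hGbd : G ≤ (Y : ℤ) ^ (2 * k * (C₁ + 1)) := by
    calc G ≤ (Y : ℤ) ^ (k * (C₁ + 1)) * (Y : ℤ) ^ (k * (C₁ + 1)) :=
          mul_le_mul hG1b hG2b hG2p.le (by positivity)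
      _ = (Y : ℤ) ^ (2 * k * (C₁ + 1)) := by rw [← pow_add]; congr 1; ring
  set H := G * D.W with hH
  have hWp : (0 : ℤ) < (D.W : ℤ) := by exact_mod_cast hWpos
  have hHp : 0 < H := mul_pos hGp hWp
  have hQp : (0 : ℤ) < (D.Q : ℤ) := by exact_mod_cast hQ1
  have h4H : 4 * D.Q * H ≤ (Y : ℤ) ^ (2 * k * (C₁ + 1) + 2) := by
    have h1 : 4 * (D.Q : ℤ) ≤ Y := by exact_mod_cast (by omega : 4 * D.Q ≤ Y)
    have h2 : (D.W : ℤ) ≤ Y := by exact_mod_cast hWY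
    calc 4 * D.Q * H = (4 * (D.Q : ℤ)) * (G * D.W) := by rw [hH]
      _ ≤ Y * ((Y : ℤ) ^ (2 * k * (C₁ + 1)) * Y) := by
          apply mul_le_mul h1 _ (by positivity) hYpos.le
          exact mul_le_mul hGbd h2 hWp.le (by positivity)
      _ = (Y : ℤ) ^ (2 * k * (C₁ + 1) + 2) := by ring
  have hα : ((Y ^ Cs : ℕ) : ℤ) * (4 * D.Q * H) ≤ Z := by
    refine le_trans ?_ hZY
    push_cast
    calc (Y : ℤ) ^ Cs * (4 * D.Q * H) ≤ (Y : ℤ) ^ Cs * (Y : ℤ) ^ (2 * k * (C₁ + 1) + 2) :=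
          mul_le_mul_of_nonneg_left h4H (by positivity)
      _ = (Y : ℤ) ^ (2 * k * (C₁ + 1) + Cs + 2) := by ring
      _ ≤ (Y : ℤ) ^ C := hpow _ _ (by omega)
  have hβ : 4 * D.Q * H * (D.Q * (Y : ℤ) ^ C₁ + 1) ≤ Z := by
    refine le_trans ?_ hZY
    have h2 : D.Q * (Y : ℤ) ^ C₁ + 1 ≤ (Y : ℤ) ^ (C₁ + 1) := by
      have h3 : (1 : ℤ) ≤ (Y : ℤ) ^ C₁ := one_le_pow₀ hY1
      have h4 : 2 * (D.Q : ℤ) ≤ (Y : ℤ) := by exact_mod_cast (by omega : 2 * D.Q ≤ Y)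
      have h6 : (1 : ℤ) ≤ D.Q := hQp
      have h5 : (1 : ℤ) * 1 ≤ D.Q * (Y : ℤ) ^ C₁ := mul_le_mul h6 h3 zero_le_one hQp.le
      calc D.Q * (Y : ℤ) ^ C₁ + 1 ≤ (2 * D.Q) * (Y : ℤ) ^ C₁ := by linarith
        _ ≤ (Y : ℤ) * (Y : ℤ) ^ C₁ := mul_le_mul_of_nonneg_right h4 (by positivity)
        _ = (Y : ℤ) ^ (C₁ + 1) := by ring
    calc 4 * D.Q * H * (D.Q * (Y : ℤ) ^ C₁ + 1)
        ≤ (Y : ℤ) ^ (2 * k * (C₁ + 1) + 2) * (Y : ℤ) ^ (C₁ + 1) := by
          apply mul_le_mul h4H h2 (by positivity) (by positivity)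
      _ = (Y : ℤ) ^ (2 * k * (C₁ + 1) + C₁ + 3) := by ring
      _ ≤ (Y : ℤ) ^ C := hpow _ _ (by omega)
  -- the residue class
  obtain ⟨X₁, hX₁W, hX₁⟩ := UGp.crt D hCR hQ2Y hKY hU hV hUV
  set X₀ := X₁ % H with hX₀
  have hX₀0 : 0 ≤ X₀ := Int.emod_nonneg _ hHp.ne'
  have hX₀H : X₀ < H := Int.emod_lt_of_pos _ hHp
  have hX₀e : X₀ = X₁ - H * (X₁ / H) := by
    have := Int.emod_add_mul_ediv X₁ H
    linarith
  have hWH : (D.W : ℤ) ∣ H := Dvd.intro_left _ rfl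
  have hX₀W : (D.W : ℤ) ∣ X₀ - D.n₀ ^ 2 * w := by
    have h1 : X₀ - D.n₀ ^ 2 * w = (X₁ - D.n₀ ^ 2 * w) - H * (X₁ / H) := by rw [hX₀e]; ring
    rw [h1]
    exact dvd_sub hX₁W (hWH.mul_right _)
  have hUH : ∀ j ∈ D.S, D.L j U w ∣ H := by
    intro j hj
    exact ((Finset.dvd_prod_of_mem _ hj).mul_right G2).mul_right _
  have hVH : ∀ j ∈ D.S, D.L j V w ∣ H := by
    intro j hj
    exact ((Finset.dvd_prod_of_mem _ hj).mul_left G1).mul_right _
  set T₀ : ℤ := D.Q * (Y : ℤ) ^ C₁ + 1 with hT₀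
  have hkK : 2 * (k * k) ≤ KK D.k := by
    rw [hDk]
    unfold KK
    have h1 : 1 ≤ 16 ^ k := Nat.one_le_pow _ _ (by norm_num)
    calc 2 * (k * k) ≤ 100 * (k + 1) ^ 2 * 1 := by nlinarith
      _ ≤ 100 * (k + 1) ^ 2 * 16 ^ k := Nat.mul_le_mul_left _ h1
  -- the sieve
  have hsv := hCs (ι × ι) (by rw [Fintype.card_prod, hcard])
    (fun p => D.a p.1 * D.a p.2 * H)
    (fun p => D.a p.1 * D.a p.2 * X₀ + D.a p.1 * D.b p.2 * V + D.b p.1 * D.a p.2 * U +
      D.b p.1 * D.b p.2 * w) Y hY2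
    (fun i p hp hpY hd => UGp.unit D hU hV hX₀W hGr i.1 i.2 p hp hpY hd)
    (fun i p hp hpk => by
      have h1 : p ∣ D.W := (UGp.Wdvd D hp).mpr (hpk.trans hkK)
      exact ((Int.natCast_dvd_natCast.mpr h1).trans hWH).mul_left _) T₀ (Y ^ Cs) le_rfl
  have hne : {t : ℤ | T₀ ≤ t ∧ t < T₀ + (Y ^ Cs : ℕ) ∧ ∀ p : ι × ι, Rough Y
    (D.a p.1 * D.a p.2 * H * t + (D.a p.1 * D.a p.2 * X₀ + D.a p.1 * D.b p.2 * V +
      D.b p.1 * D.a p.2 * U + D.b p.1 * D.b p.2 * w))}.Nonempty := by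
    rw [Set.nonempty_iff_ne_empty]
    intro h0
    rw [h0, Set.ncard_empty, mul_zero] at hsv
    have h1 : 0 < Y ^ Cs := Nat.pow_pos (by omega)
    omega
  obtain ⟨t, ht1, ht2, ht3⟩ := hne
  refine UGp.alg D F hF c Y Z (X₀ + t * H) U V w hY2 (fun j hj => ⟨hUS j hj, hVS j hj⟩) ?_ ?_ ?_
    hCst
  · intro i j
    have h1 := ht3 (i, j)
    have h2 : D.a i * D.a j * (X₀ + t * H) + D.a i * D.b j * V + D.b i * D.a j * U
        + D.b i * D.b j * w =
      D.a i * D.a j * H * t + (D.a i * D.a j * X₀ + D.a i * D.b j * V +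
        D.b i * D.a j * U + D.b i * D.b j * w) := by ring
    rw [h2]; exact h1
  · intro j hj
    constructor
    · have h1 : D.L j (X₀ + t * H) V = D.L j X₁ V + H * (D.a j * (t - X₁ / H)) := by
        simp only [US.L]; rw [hX₀e]; ring
      rw [h1]
      exact dvd_add (hX₁ j hj).1 ((hUH j hj).mul_right _)
    · have h1 : D.L j (X₀ + t * H) U = D.L j X₁ U + H * (D.a j * (t - X₁ / H)) := by
        simp only [US.L]; rw [hX₀e]; ring
      rw [h1]
      exact dvd_add (hX₁ j hj).2 ((hVH j hj).mul_right _)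
  · intro j _
    have hs : ∀ x : ℤ, |x| ≤ (Y : ℤ) ^ C₁ →
        0 < D.L j (X₀ + t * H) x ∧ D.L j (X₀ + t * H) x ≤ Z := by
      intro x hx
      have h1 := (UGp.L_le D j hx hwb).1
      exact OP.GB.size (D.ha j) (D.haQ j) hQp hHp hX₀0 hX₀H (by positivity) h1 ht1 ht2 hα hβ
    exact ⟨(hs V hVb).1, (hs V hVb).2, (hs U hUb).1, (hs U hUb).2⟩

end Pool.Agent.H661R3.UP
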